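import Pool.Agent.Lib.MP_94aef8_gt.H.MapB

/-!
The metric of the core region.
-/

open scoped Manifold ContDiff Topology
open Matrix Set Filter Real

namespace Pool.Agent.Lib.MP_94aef8_gt.Hb

variable {P : Par}

theorem GBH_symm (b : ℝ) (x : E4) : (GBH b x)ᵀ = GBH b x := by
  simp only [GBH, transpose_add, transpose_smul, sq1_symm, sym2_symm]

theorem GSW_symm (ϱ b z R : ℝ) (x : E4) : (GSW ϱ b z R x)ᵀ = GSW ϱ b z R x := by
  simp only [GSW, transpose_add, transpose_smul, sq1_symm, sym2_symm]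

theorem GB_symm (b : ℝ) (x : E4) : (GB b x)ᵀ = GB b x := GSW_symm _ _ _ _ _

theorem GT_symm (P : Par) (x : E4) : (P.GT x)ᵀ = P.GT x := by
  simp only [Par.GT, transpose_add, transpose_smul, GBH_symm, GSW_symm]

theorem GC_symm (P : Par) (x : E4) : (GC P x)ᵀ = GC P x := GT_symm _ _

theorem qf_GBH (b : ℝ) (x : E4) (w : Fin 4 → ℝ) : qf (GBH b x) w =
    3 * rB x / (rB x ^ 2 + rB x + 1) * ((w 0 - b * x 1 * w 3) ^ 2 + (w 1 + b * x 0 * w 3) ^ 2) +
      3 / 16 * u01 x * (rB x ^ 2 + 4 * rB x + 1) / (rB x * (rB x ^ 2 + rB x + 1)) *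
        (x 0 * w 1 - x 1 * w 0 + b * u01 x * w 3) ^ 2 + rB x ^ 2 * (w 2 ^ 2 + w 3 ^ 2) := by
  simp only [GBH, qf_add, qf_smul, qf_ee]
  rw [qf_sq1, qf_sym2]
  simp [l01, ee, u01]
  ring

theorem qf_GSW (ϱ b z R : ℝ) (x : E4) (w : Fin 4 → ℝ) : qf (GSW ϱ b z R x) w =
    (w 0 - b * x 1 * w 3) ^ 2 + (w 1 + b * x 0 * w 3) ^ 2 + w 2 ^ 2 +
      ϱ / ((R - ϱ) * R ^ 2) * (x 0 * w 0 + x 1 * w 1 + z * w 2) ^ 2 + (1 - ϱ / R) * w 3 ^ 2 := by
  simp only [GSW, qf_add, qf_smul, qf_ee]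
  rw [qf_sq1, qf_sym2]
  simp [l01, ee, u01]
  ring

theorem goodc_rB (x : E4) : 0 < rB x := by
  unfold rB u01
  positivity

theorem goodc_R3 (x : E4) : |x 2| ≤ R3 x :=
  Real.abs_le_sqrt (le_add_of_nonneg_left (by unfold u01; positivity))

theorem goodc_l01 (i : Fin 4) : ContDiff ℝ ∞ fun x => l01 x i := by
  fin_cases i <;> simp [l01] <;> fun_prop

theorem goodc_pos {a b c d : ℝ} (ha : 0 < a) (hb : 0 ≤ b) (hc : 0 < c) (hd : 0 < d)
    {w : Fin 4 → ℝ} (hw : w ≠ 0) (s t : ℝ) :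
    0 < a * ((w 0 - s * w 3) ^ 2 + (w 1 + t * w 3) ^ 2) + b + c * w 2 ^ 2 + d * w 3 ^ 2 := by
  rcases eq_or_ne (w 3) 0 with h3 | h3
  · rcases eq_or_ne (w 2) 0 with h2 | h2
    · rw [h3, mul_zero, mul_zero, sub_zero, add_zero]
      rcases eq_or_ne (w 1) 0 with h1 | h1
      · have h0 : w 0 ≠ 0 := fun h0 => hw (by
          funext i
          fin_cases i
          exacts [h0, h1, h2, h3])
        positivity
      · positivity
    · positivity
  · positivity

theorem GBH_pos (b : ℝ) (x : E4) : (GBH b x).PosDef := by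
  refine posDef_of_qf (GBH_symm b x) fun w hw => ?_
  have h0 := goodc_rB x
  have h1 : 0 ≤ u01 x := by unfold u01; positivity
  rw [qf_GBH, mul_add (rB x ^ 2), ← add_assoc]
  exact goodc_pos (by positivity) (by positivity) (by positivity) (by positivity) hw _ _

theorem GSW_pos {ϱ R : ℝ} (h0 : 0 ≤ ϱ) (h1 : ϱ < R) (b z : ℝ) (x : E4) :
    (GSW ϱ b z R x).PosDef := by
  refine posDef_of_qf (GSW_symm _ _ _ _ _) fun w hw => ?_
  have h2 := sub_pos.2 h1
  have := goodc_pos one_pos (b := ϱ / ((R - ϱ) * R ^ 2) * (x 0 * w 0 + x 1 * w 1 + z * w 2) ^ 2)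
    (by positivity) one_pos (sub_pos.2 ((div_lt_one (h0.trans_lt h1)).2 h1)) hw (b * x 1) (b * x 0)
  rw [qf_GSW]
  linarith

theorem GBH_smooth (b : ℝ) (i j : Fin 4) : ContDiff ℝ ∞ fun x => GBH b x i j := by
  have h1 := goodc_l01 i
  have h2 := goodc_l01 j
  have h3 : ContDiff ℝ ∞ u01 := by unfold u01; fun_prop
  have h4 : ContDiff ℝ ∞ rB := by unfold rB; fun_prop
  simp only [GBH, Matrix.add_apply, Matrix.smul_apply, smul_eq_mul, sq1, sym2, vecMulVec_apply,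
    Pi.add_apply, Pi.smul_apply]
  fun_prop (disch := intro x; have := goodc_rB x; positivity)

theorem chiS_low {u : ℝ} (h : u ≤ 1 / 20) : chiS u = 1 := by
  exact smoothTransition.one_of_one_le (by linarith)

theorem chiS_high {u : ℝ} (h : 1 / 10 ≤ u) : chiS u = 0 := by
  exact smoothTransition.zero_of_nonpos (by linarith)

theorem GT_far (h : P.Ok) {x : E4} (hx : P.l / 10 ≤ R3 x) : P.GT x = GBH P.B x := by
  rw [Par.GT, chiS_high ((le_div_iff₀ (l_pos h)).2 (by linarith))]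
  simp

theorem GT_near (h : P.Ok) {x : E4} (hx : R3 x ≤ P.l / 20) :
    P.GT x = GSW P.ϱ (P.B * chiT (R3 x / P.ϱ)) (x 2) (R3 x) x := by
  rw [Par.GT, chiS_low ((div_le_iff₀ (l_pos h)).2 (by linarith))]
  simp

/-- A convex combination of two positive definite matrices; smooth because `0 < ϱ < R3 x`. -/
theorem good_GT (h : P.Ok) : Good P.GT P.UT := by
  refine ⟨isOpen_UT P, fun i j x hx => ContDiffAt.contDiffWithinAt ?_, fun x hx => ?_⟩
  · have h0 := h.ϱ0.trans hx.2.2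
    have h0' := sub_pos.2 hx.2.2
    have h1 := (goodc_l01 i).contDiffAt (x := x)
    have h2 := (goodc_l01 j).contDiffAt (x := x)
    have h3 : ContDiff ℝ ∞ u01 := by unfold u01; fun_prop
    have h4 := R3_smooth h0
    have h5 := (GBH_smooth P.B i j).contDiffAt (x := x)
    have h6 : ∀ i : Fin 4, ContDiff ℝ ∞ fun x : E4 => ![x 0, x 1, x 2, 0] i := fun i => by
      fin_cases i <;> simp <;> fun_prop
    have h7 := (h6 i).contDiffAt (x := x)
    have h8 := (h6 j).contDiffAt (x := x)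
    have h9 : ContDiff ℝ ∞ chiS := smoothTransition.contDiff.comp (by fun_prop)
    have h10 : ContDiff ℝ ∞ chiT := smoothTransition.contDiff.comp (by fun_prop)
    simp only [Par.GT, GSW, Matrix.add_apply, Matrix.smul_apply, smul_eq_mul, sq1, sym2,
      vecMulVec_apply]
    fun_prop (disch := positivity)
  · have h1 := GSW_pos h.ϱ0.le hx.2.2 (P.B * chiT (R3 x / P.ϱ)) (x 2) x
    have h2 := GBH_pos P.B x
    have h3 : 0 ≤ chiS (R3 x / P.l) := smoothTransition.nonneg _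
    have h4 : chiS (R3 x / P.l) ≤ 1 := smoothTransition.le_one _
    rcases h3.eq_or_lt with h5 | h5
    · rw [Par.GT, ← h5]
      simpa using h2
    · exact (h1.smul h5).add_posSemidef (h2.posSemidef.smul (sub_nonneg.2 h4))

/-- If `jn (sh j x) = j` this is `zj_sh`. Otherwise `l / 2 ≤ |x 2|` (`jn_eq`) and `Rj_sh_ne`, so
both sides are `GBH B`, which depends only on the first two coordinates. -/
theorem GC_sh (h : P.Ok) (j : ℤ) {x : E4} (hx : |x 2| ≤ 9 / 10 * P.l) :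
    GC P (P.sh j x) = P.GT x := by
  rcases eq_or_ne (P.jn (P.sh j x)) j with h1 | h1
  · rw [GC, h1, zj_sh]
    exact congrArg _ (ext4 rfl rfl rfl rfl)
  · have h2 : P.l / 2 ≤ |x 2| := not_lt.1 fun h2 => h1 (jn_eq h (by rwa [zj_sh]))
    rw [GC, GT_far h ((Rj_sh_ne h h1 hx).trans (abs_zj_le _ _ _)),
      GT_far h (by linarith [goodc_R3 x, l_pos h])]
    rfl

/-- Near `x`, `GC = GT ∘ sh (-j)` with `j = jn x` (`exists_UT`, `GC_sh`). -/
theorem good_GC (h : P.Ok) : Good (GC P) P.UC := by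
  refine ⟨isOpen_UC h, fun i j x hx => ContDiffAt.contDiffWithinAt ?_, fun x hx => ?_⟩
  · have h1 := (exists_UT h hx).1
    have h2 : ContDiffAt ℝ ∞ (P.sh (-P.jn x)) x := by
      rw [sh_eq_add]
      fun_prop
    refine ((((good_GT h).smooth i j).contDiffAt ((isOpen_UT P).mem_nhds h1)).comp x
      h2).congr_of_eventuallyEq ?_
    filter_upwards [h2.continuousAt.eventually_mem ((isOpen_UT P).mem_nhds h1)] with y hy
    rw [Function.comp_apply, ← GC_sh h (P.jn x) hy.2.1.le,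
      show P.sh (P.jn x) (P.sh (-P.jn x) y) = y from ext4 rfl rfl (by simp [Par.sh]) rfl]
  · obtain ⟨h1, h2⟩ := exists_UT h hx
    rw [← h2, GC_sh h _ h1.2.1.le]
    exact (good_GT h).pos _ h1

theorem GC_far (h : P.Ok) {x : E4} (hx : (P.l / 10) ^ 2 ≤ u01 x) : GC P x = GBH P.B x := by
  exact GT_far h (x := mk4 (x 0) (x 1) (P.zj (P.jn x) x) (x 3))
    (Real.le_sqrt_of_sq_le (le_add_of_le_of_nonneg hx (sq_nonneg _)))

theorem GC_near (h : P.Ok) {j : ℤ} {x : E4} (hx : P.Rj j x ≤ P.l / 20) :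
    GC P x = GSW P.ϱ (P.B * chiT (P.Rj j x / P.ϱ)) (P.zj j x) (P.Rj j x) x := by
  rw [GC, jn_eq h (j := j) (by linarith [abs_zj_le P j x, l_pos h])]
  exact GT_near h (x := mk4 (x 0) (x 1) (P.zj j x) (x 3)) hx

theorem GC_dk (h : P.Ok) (a b : ℤ) (x : E4) : GC P (P.dk a b x) = GC P x := by
  rw [GC, zj_dk (jn_dk h a b x)]
  rfl

end Pool.Agent.Lib.MP_94aef8_gt.Hb
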