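import Pool.Agent.Lib.MP_94aef8_gt.H.GoodO
import Pool.Agent.Lib.MP_94aef8_gt.H.GoodC

/-!
The slab metric is the black hole in polar coordinates.
-/

open scoped Manifold ContDiff Topology
open Matrix Set Filter Real

namespace Pool.Agent.Lib.MP_94aef8_gt.Hb

variable {P : Par}

theorem geom_B (h : P.Geom) : P.B = 3 * P.n := by
  have h1 : (0 : ℝ) < P.K := by exact_mod_cast h.K0
  have h2 := nu_pos P
  rw [Par.B, h.hδ]
  field_simp

theorem geom_rho (h : P.Geom) : P.ϱ = 1 / (3 * P.nu ^ 2) := by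
  have h1 : (0 : ℝ) < P.K := by exact_mod_cast h.K0
  have h2 := nu_pos P
  rw [h.hϱ, h.hδ]
  field_simp

/-- The black hole in polar form: at `X = s (cos a, sin a)` and for the vector with components
`ds (cos a, sin a) + s da (- sin a, cos a)`, `dz`, `dt`, with `r = 1 + 3/4 s²`, `V = r² - 1/r`. -/
theorem qf_GBH_polar (b a z t ds da dz dt : ℝ) {s : ℝ} (hs : s ≠ 0) :
    qf (GBH b (mk4 (s * cos a) (s * sin a) z t))
        ![ds * cos a - s * da * sin a, ds * sin a + s * da * cos a, dz, dt] =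
      (3 / 2 * s * ds) ^ 2 / ((1 + 3 / 4 * s ^ 2) ^ 2 - 1 / (1 + 3 / 4 * s ^ 2)) +
        4 / 9 * ((1 + 3 / 4 * s ^ 2) ^ 2 - 1 / (1 + 3 / 4 * s ^ 2)) * (da + b * dt) ^ 2 +
        (1 + 3 / 4 * s ^ 2) ^ 2 * (dz ^ 2 + dt ^ 2) := by
  have h1 := cos_sq_add_sin_sq a
  have hu : u01 (mk4 (s * cos a) (s * sin a) z t) = s ^ 2 := by
    simp only [u01, mk4_0, mk4_1]
    linear_combination s ^ 2 * h1
  have e1 : (ds * cos a - s * da * sin a - b * (s * sin a) * dt) ^ 2 +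
      (ds * sin a + s * da * cos a + b * (s * cos a) * dt) ^ 2 =
      ds ^ 2 + s ^ 2 * (da + b * dt) ^ 2 := by
    linear_combination (ds ^ 2 + s ^ 2 * (da + b * dt) ^ 2) * h1
  have e2 : s * cos a * (ds * sin a + s * da * cos a) - s * sin a * (ds * cos a - s * da * sin a) +
      b * s ^ 2 * dt = s ^ 2 * (da + b * dt) := by
    linear_combination s ^ 2 * da * h1
  have e3 : (1 + 3 / 4 * s ^ 2) ^ 2 - 1 / (1 + 3 / 4 * s ^ 2) =
      3 / 4 * s ^ 2 * ((1 + 3 / 4 * s ^ 2) ^ 2 + (1 + 3 / 4 * s ^ 2) + 1) / (1 + 3 / 4 * s ^ 2) := by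
    field_simp
    ring
  rw [qf_GBH]
  simp only [rB, hu, mk4_0, mk4_1, Matrix.cons_val_zero, Matrix.cons_val_one, Matrix.cons_val]
  rw [e1, e2, e3]
  field_simp
  ring

/-- `jac_mk4_mulVec`; `s = √(4/3 (1/(δ y) - 1))` has `ds = - (2/3) / (δ y² s) dy`. -/
theorem jac_P1 (h : P.Ok) {p : E4} (h0 : 0 < p 3) (h1 : P.δ * p 3 < 1) (v : E4) :
    jac P.P1 p *ᵥ v.ofLp =
      ![-(2 / 3) / (P.δ * p 3 ^ 2 * √(4 / 3 * (1 / (P.δ * p 3) - 1))) * v 3 *
            cos (2 * π * p 0 / P.K) -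
          √(4 / 3 * (1 / (P.δ * p 3) - 1)) * (2 * π * v 0 / P.K) * sin (2 * π * p 0 / P.K),
        -(2 / 3) / (P.δ * p 3 ^ 2 * √(4 / 3 * (1 / (P.δ * p 3) - 1))) * v 3 *
            sin (2 * π * p 0 / P.K) +
          √(4 / 3 * (1 / (P.δ * p 3) - 1)) * (2 * π * v 0 / P.K) * cos (2 * π * p 0 / P.K),
        P.δ * v 2, 4 * π * P.ϱ * (v 1 - 2 * P.n * v 0) / P.K] := by
  have hδ := h.δ0
  have hpos : 0 < 4 / 3 * (1 / (P.δ * p 3) - 1) := by
    have : 1 < 1 / (P.δ * p 3) := by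
      rw [lt_div_iff₀ (by positivity)]
      linarith
    linarith
  have hq := Real.sqrt_pos.2 hpos
  have g1 : HasDerivAt (fun y : ℝ => 4 / 3 * (1 / (P.δ * y) - 1))
      (4 / 3 * (-1 / (P.δ * p 3 ^ 2))) (p 3) := by
    have := ((((hasDerivAt_id (p 3)).const_mul P.δ).fun_inv
      (mul_pos hδ h0).ne').sub_const 1).const_mul (4 / 3)
    simp only [one_div]
    refine this.congr_deriv ?_
    simp only [id]
    field_simp
  have g2 : HasDerivAt (fun y : ℝ => √(4 / 3 * (1 / (P.δ * y) - 1)))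
      (-(2 / 3) / (P.δ * p 3 ^ 2 * √(4 / 3 * (1 / (P.δ * p 3) - 1)))) (p 3) := by
    refine (g1.sqrt hpos.ne').congr_deriv ?_
    generalize √(4 / 3 * (1 / (P.δ * p 3) - 1)) = q at hq
    field_simp
    ring
  have g3 := g2.comp_hasFDerivAt (f := fun x : E4 => x 3) p (hfdCoord 3 p)
  have g4 := ((hfdCoord 0 p).const_mul (2 * π)).mul_const (P.K : ℝ)⁻¹
  have g5 := (((hfdCoord 1 p).sub ((hfdCoord 0 p).const_mul (2 * P.n))).const_mul
    (4 * π * P.ϱ)).mul_const (P.K : ℝ)⁻¹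
  have := jac_mk4_mulVec (g3.mul g4.cos) (g3.mul g4.sin) ((hfdCoord 2 p).const_mul P.δ) g5 v
  refine this.trans ?_
  funext i
  fin_cases i <;> simp [div_eq_mul_inv] <;> ring

/-- `pull_eq_of_qf`, `jac_P1`, `qf_GBH_polar`, `qf_slabM`. Here `1 + 3/4 s² = r = 1 / (δ y)`,
`V = r² (1 - (δ y)³)`, `3/2 s ds = - dy / (δ y²)`, `4 π ϱ / K = δ / ν`, `2 π / K = 3/2 δ ν`,
`B = 3 n`, so `da + B dt = 3/2 δ (v0 + 2 n v1) / ν` and `dt = δ (- 2 n v0 + v1) / ν`. -/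
theorem pull_P1 (h : P.Geom) {p : E4} (h0 : 0 < p 3) (h1 : P.δ * p 3 < 1) :
    pull P.P1 (GBH P.B) p = slabM P (1 - (P.δ * p 3) ^ 3) (p 3) := by
  have hδ := h.δ0
  have hK : (0 : ℝ) < P.K := by exact_mod_cast h.K0
  have hν := nu_pos P
  have hν2 := nu_sq P
  have hpos : 0 < 4 / 3 * (1 / (P.δ * p 3) - 1) := by
    have : 1 < 1 / (P.δ * p 3) := by
      rw [lt_div_iff₀ (by positivity)]
      linarith
    linarith
  have hq := Real.sqrt_pos.2 hpos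
  have hq2 := Real.sq_sqrt hpos.le
  have h3 : 0 < 1 - (P.δ * p 3) ^ 3 := sub_pos.2 (pow_lt_one₀ (by positivity) h1 (by norm_num))
  refine pull_eq_of_qf (GBH_symm _ _) (slabM_symm _ _ _) fun v => ?_
  rw [jac_P1 h.toOk h0 h1, Par.P1, qf_GBH_polar _ _ _ _ _ _ _ _ hq.ne', qf_slabM, geom_B h]
  generalize √(4 / 3 * (1 / (P.δ * p 3) - 1)) = q at hq hq2
  have e1 : 1 + 3 / 4 * q ^ 2 = 1 / (P.δ * p 3) := by
    rw [hq2]
    ring
  have e2 : (1 / (P.δ * p 3)) ^ 2 - 1 / (1 / (P.δ * p 3)) =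
      (1 - (P.δ * p 3) ^ 3) / (P.δ * p 3) ^ 2 := by
    field_simp
  have e3 : 3 / 2 * q * (-(2 / 3) / (P.δ * p 3 ^ 2 * q) * v 3) = -v 3 / (P.δ * p 3 ^ 2) := by
    field_simp
  have e4 : 4 * π * P.ϱ * (v 1 - 2 * P.n * v 0) / P.K = P.δ * ((-2 * P.n * v 0 + v 1) / P.nu) := by
    rw [h.hϱ]
    field_simp
    ring
  have e5 : 2 * π * v 0 / P.K = 3 / 2 * P.δ * P.nu * v 0 := by
    rw [h.hδ]
    field_simp
    ring
  have e6 : 3 / 2 * P.δ * P.nu * v 0 + 3 * P.n * (P.δ * ((-2 * P.n * v 0 + v 1) / P.nu)) =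
      3 / 2 * P.δ * ((v 0 + 2 * P.n * v 1) / P.nu) := by
    field_simp
    linear_combination v 0 * hν2
  rw [e1, e2, e3, e4, e5, e6]
  generalize (v 0 + 2 * P.n * v 1) / P.nu = A
  generalize (-2 * P.n * v 0 + v 1) / P.nu = B
  generalize 1 - (P.δ * p 3) ^ 3 = V at h3
  field_simp
  ring

/-- `GC_far`, `P1_far`, `vO_high` (`pull` only sees the value of the field at `P1 p`). -/
theorem pull_P1_GC (h : P.Geom) {p : E4} (hp : p ∈ P.UO) (h1 : 4 ≤ p 3) :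
    pull P.P1 (GC P) p = P.GO p := by
  have h0 : 0 < p 3 := by linarith
  have h2 : P.δ * p 3 < 1 := by
    have h3 := mul_pos h.δ0 h0
    have h4 := hp.2
    nlinarith [mul_nonneg h3.le (sq_nonneg (P.l / 10))]
  rw [GO_eq, vO_high P h1, ← pull_P1 h h0 h2]
  simp only [pull, GC_far h.toOk (P1_far h.toOk hp).le]

end Pool.Agent.Lib.MP_94aef8_gt.Hb
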