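import Pool.Agent.Lib.MP_94aef8_gt.H.Loc2

/-!
Translations, scalings and the change of hemisphere.
-/

open scoped Manifold ContDiff Topology
open Matrix Set Filter Real

namespace Pool.Agent.Lib.MP_94aef8_gt.Hb

variable {P : Par}

theorem pull_add_const (w : E4) (G : Tn) (p : E4) : pull (fun x => x + w) G p = G (p + w) := by
  simp [pull, jac_add_const]

theorem pull_smul (τ : E4 → E4) (r : ℝ) (G : Tn) (p : E4) :
    pull τ (fun x => r • G x) p = r • pull τ G p := by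
  simp [pull]

theorem pull_trl (P : Par) (K : ℝ) (v : Fin 3 → ℤ) (p : E4) : pull (trl K v) P.GO p = P.GO p := by
  rw [trl_eq_add, pull_add_const]
  simp [GO_eq]

theorem pull_dk (h : P.Ok) (a b : ℤ) (x : E4) : pull (P.dk a b) (GC P) x = GC P x := by
  have := GC_dk h a b x
  rw [dk_eq_add] at this ⊢
  rw [pull_add_const]
  exact this

theorem pull_sh (h : P.Ok) (j : ℤ) {x : E4} (hx : |x 2| ≤ 9 / 10 * P.l) :
    pull (P.sh j) (GC P) x = P.GT x := by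
  have := GC_sh h j hx
  rw [sh_eq_add] at this ⊢
  rw [pull_add_const]
  exact this

theorem loc3_jac {τ : E4 → E4} {r : ℝ} {w : E4} (h : τ = fun y => r • y + w) (x : E4) :
    jac τ x = r • (1 : Mat) := by
  refine mat_ext_mulVec fun v => ?_
  have h1 : HasFDerivAt τ (r • ContinuousLinearMap.id ℝ E4) x := by
    rw [h]
    exact ((hasFDerivAt_id x).const_smul r).add_const w
  rw [jac_mulVec h1]
  simp [Matrix.smul_mulVec]

theorem jac_sc (P : Par) (j : ℤ) (x : E4) : jac (P.sc j) x = P.ϱ • (1 : Mat) := by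
  refine loc3_jac (w := mk4 0 0 (j * P.l) 0) (funext fun y => ?_) x
  refine ext4 ?_ ?_ ?_ ?_ <;> simp [Par.sc]

theorem jac_usc (P : Par) (j : ℤ) (x : E4) : jac (P.usc j) x = P.ϱ⁻¹ • (1 : Mat) := by
  refine loc3_jac (w := mk4 0 0 (-(j * P.l) / P.ϱ) 0) (funext fun y => ?_) x
  refine ext4 ?_ ?_ ?_ ?_ <;> simp [Par.usc, Par.zj] <;> ring

/-- `GC_near`, `Rj_sc`; compare the quadratic forms (`qf_GSW`). -/
theorem GC_sc (h : P.Ok) (j : ℤ) {x : E4} (h1 : 1 < R3 x) (h2 : R3 x ≤ P.l / (20 * P.ϱ)) :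
    GC P (P.sc j x) = GB (P.B * P.ϱ) x := by
  have h0 := h.ϱ0
  have h3 : P.Rj j (P.sc j x) ≤ P.l / 20 := by
    rw [Rj_sc h]
    rw [le_div_iff₀ (by positivity)] at h2 ⊢
    linarith
  rw [GC_near h h3, Rj_sc h, mul_div_cancel_left₀ _ h0.ne']
  refine eq_of_qf (GSW_symm _ _ _ _ _) (GB_symm _ _) fun w => ?_
  have h4 : R3 x ≠ 0 := by linarith
  have h5 : R3 x - 1 ≠ 0 := by linarith
  have h6 : P.ϱ * R3 x - P.ϱ = P.ϱ * (R3 x - 1) := by ring
  rw [GB, qf_GSW, qf_GSW, h6]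
  simp only [Par.sc, Par.zj, mk4_0, mk4_1, mk4_2]
  field_simp
  ring

theorem pull_sc (h : P.Ok) (j : ℤ) {x : E4} (h1 : 1 < R3 x) (h2 : R3 x ≤ P.l / (20 * P.ϱ)) :
    pull (P.sc j) (GC P) x = P.ϱ ^ 2 • GB (P.B * P.ϱ) x := by
  simp [pull, jac_sc, GC_sc h j h1 h2, smul_smul, sq]

/-- `pull_comp`, `pull_smul`, `pull_P2u`, `jac_usc`, `GC_sc`, `sc_usc`, `usc_data`. -/
theorem pull_CN (h : P.Ok) {j : ℤ} {e : ℤˣ} {x : E4} (hx : x ∈ P.UC) (h1 : P.Rj j x < 4 * P.ϱ)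
    (h2 : 0 < P.Rj j x + ((e : ℤ) : ℝ) * P.zj j x) :
    pull (P2u e ∘ P.usc j) (fun z => P.ϱ ^ 2 • GN (P.B * P.ϱ) z) x = GC P x := by
  obtain ⟨a1, a2, a3, -⟩ := usc_data h hx h1 h2
  have h0 := h.ϱ0
  have h3 : R3 (P.usc j x) ≤ P.l / (20 * P.ϱ) := by
    rw [le_div_iff₀ (by positivity), Par.l]
    nlinarith [h.ϱ1]
  have h4 := GC_sc h j a1 h3
  rw [sc_usc h] at h4
  rw [pull_comp ((P2u_smooth e a1 a3).differentiableAt (by simp))
    ((usc_smooth P j).differentiable (by simp) x), h4]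
  have h5 : pull (P2u e) (fun z => P.ϱ ^ 2 • GN (P.B * P.ϱ) z) (P.usc j x) =
      P.ϱ ^ 2 • GB (P.B * P.ϱ) (P.usc j x) := by
    rw [pull_smul, pull_P2u e _ a1 a3]
  rw [pull, h5, jac_usc]
  have h6 : P.ϱ⁻¹ * (P.ϱ ^ 2 * P.ϱ⁻¹) = 1 := by field_simp
  simp [smul_smul, h6]

/-- With `u = u23 z`, `d(p / u) = (u dp - 2 p (p · dp)) / u²` has length `|dp| / u`, and
`1 + 1 / u = (1 + u) / u`; the twisted vector `dp + κ J p` is mapped by the same linear map. -/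
theorem pull_P3 (b : ℝ) {z : E4} (h : u23 z ≠ 0) : pull P3 (GN b) z = GN b z := by
  refine pull_eq_of_qf (GN_symm _ _) (GN_symm _ _) fun v => ?_
  have hu : HasFDerivAt u23 _ z := ((hfdCoord 2 z).pow 2).add ((hfdCoord 3 z).pow 2)
  have hi := (hasDerivAt_inv h).comp_hasFDerivAt z hu
  have hj := jac_mk4_mulVec (hfdCoord 0 z) (hfdCoord 1 z) ((hfdCoord 2 z).mul hi)
    ((hfdCoord 3 z).mul hi) v
  have e : P3 = fun x : E4 => mk4 (x 0) (x 1) (x 2 * (u23 x)⁻¹) (x 3 * (u23 x)⁻¹) := rfl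
  have e1 : u01 (P3 z) = u01 z := rfl
  have e2 : u23 (P3 z) = (u23 z)⁻¹ := by
    have : u23 (P3 z) = u23 z / u23 z ^ 2 := by
      simp only [P3, u23, mk4_2, mk4_3]
      rw [div_pow, div_pow, add_div]
    rw [this]
    field_simp
  have hj' : jac P3 z *ᵥ v.ofLp = ![v 0, v 1,
      (u23 z * v 2 - 2 * z 2 * (z 2 * v 2 + z 3 * v 3)) / u23 z ^ 2,
      (u23 z * v 3 - 2 * z 3 * (z 2 * v 2 + z 3 * v 3)) / u23 z ^ 2] := by
    rw [e]
    refine Eq.trans hj ?_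
    funext i
    fin_cases i <;> simp <;> field_simp <;> ring
  rw [hj', qf_GN, qf_GN, e1, e2]
  simp only [P3, mk4_0, mk4_1, mk4_2, mk4_3, cons_val_zero, cons_val_one, cons_val]
  generalize 2 * b * chiT (1 + u01 z) / u01 z * (z 0 * v 1 - z 1 * v 0) = k
  have h1 : 1 + u23 z ≠ 0 := by
    have : 0 ≤ u23 z := by unfold u23; positivity
    linarith
  have h2 : 1 + (u23 z)⁻¹ = (1 + u23 z) / u23 z := by field_simp; ring
  have h3 : ((u23 z * v 2 - 2 * z 2 * (z 2 * v 2 + z 3 * v 3)) / u23 z ^ 2 -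
      k * (z 3 / u23 z)) ^ 2 + ((u23 z * v 3 - 2 * z 3 * (z 2 * v 2 + z 3 * v 3)) / u23 z ^ 2 +
      k * (z 2 / u23 z)) ^ 2 = ((v 2 - k * z 3) ^ 2 + (v 3 + k * z 2) ^ 2) / u23 z ^ 2 := by
    field_simp
    unfold u23
    ring
  rw [h2, h3]
  field_simp

end Pool.Agent.Lib.MP_94aef8_gt.Hb
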