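import Pool.Agent.Lib.MP_94aef8_gt.H.MapA

/-!
The cusp symmetries commute with the transition maps.
-/

open scoped Manifold ContDiff Topology
open Matrix Set Filter Real

namespace Pool.Agent.Lib.MP_94aef8_gt.Hb

variable {P : Par}

theorem act_mem_UO (u : Sy) {p : E4} (hp : p ∈ P.UO) : u.act p ∈ P.UO := hp

theorem u01_actC (P : Par) (u : Sy) (x : E4) : u01 (P.actC u x) = u01 x := by
  simp only [u01, Par.actC, rot, mk4_0, mk4_1]
  linear_combination (x 0 ^ 2 + ((u.e : ℤ) : ℝ) ^ 2 * x 1 ^ 2) *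
    sin_sq_add_cos_sq (4 * π * u.v 0 / P.K) + x 1 ^ 2 * sgn_sq u.e

theorem zj_actC (P : Par) (u : Sy) (j : ℤ) (x : E4) :
    P.zj (actJ u j) (P.actC u x) = ((u.e' : ℤ) : ℝ) * P.zj j x := by
  simp only [Par.zj, Par.actC, rot, mk4_2, actJ, Par.l]
  push_cast
  ring

theorem Rj_actC (P : Par) (u : Sy) (j : ℤ) (x : E4) :
    P.Rj (actJ u j) (P.actC u x) = P.Rj j x := by
  rw [Par.Rj, Par.Rj, u01_actC, zj_actC, mul_pow, sgn_sq, one_mul]

theorem actJ_surj (u : Sy) (j : ℤ) : ∃ i, actJ u i = j := by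
  refine ⟨u.e' * (j - u.v 2), ?_⟩
  rw [actJ, ← mul_assoc, Int.units_coe_mul_self]
  ring

theorem actC_mem_UC (u : Sy) {x : E4} (hx : x ∈ P.UC) : P.actC u x ∈ P.UC := by
  refine ⟨by rw [u01_actC]; exact hx.1, fun j => ?_⟩
  obtain ⟨i, rfl⟩ := actJ_surj u j
  rw [Rj_actC]
  exact hx.2 i

theorem u01_actN (P : Par) (u : Sy) (z : E4) : u01 (actN P u z) = u01 z := by
  simp only [u01, actN, mk4_0, mk4_1]
  linear_combination (z 0 ^ 2 + ((u.e : ℤ) : ℝ) ^ 2 * z 1 ^ 2) *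
    sin_sq_add_cos_sq (4 * π * (u.v 1 - 2 * P.n * u.v 0) / P.K) + z 1 ^ 2 * sgn_sq u.e

theorem u23_actN (P : Par) (u : Sy) (z : E4) : u23 (actN P u z) = u23 z := by
  simp only [u23, actN, mk4_2, mk4_3]
  linear_combination (z 2 ^ 2 + ((u.e : ℤ) : ℝ) ^ 2 * z 3 ^ 2) *
    sin_sq_add_cos_sq (4 * π * u.v 0 / P.K) + z 3 ^ 2 * sgn_sq u.e

theorem actN_mem_UN (P : Par) (u : Sy) {z : E4} (hz : z ∈ UN) : actN P u z ∈ UN := by
  change u01 _ < 3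
  rw [u01_actN]
  exact hz

theorem mapc_cos (e : ℤˣ) (a t : ℝ) :
    cos (a + ((e : ℤ) : ℝ) * t) = cos a * cos t - sin a * (((e : ℤ) : ℝ) * sin t) := by
  rw [cos_add]
  rcases Int.units_eq_one_or e with rfl | rfl <;> simp

theorem mapc_sin (e : ℤˣ) (a t : ℝ) :
    sin (a + ((e : ℤ) : ℝ) * t) = sin a * cos t + cos a * (((e : ℤ) : ℝ) * sin t) := by
  rw [sin_add]
  rcases Int.units_eq_one_or e with rfl | rfl <;> simp

/-- `u.e = ± 1`, addition formulas. -/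
theorem P1_act (h : P.Ok) (u : Sy) (p : E4) : P.P1 (u.act p) = P.actC u (P.P1 p) := by
  have h1 : 2 * π * (((u.e : ℤ) : ℝ) * p 0 + 2 * u.v 0) / P.K =
      4 * π * u.v 0 / P.K + ((u.e : ℤ) : ℝ) * (2 * π * p 0 / P.K) := by ring
  refine ext4 ?_ ?_ ?_ ?_ <;>
    simp only [Par.P1, Sy.act, Par.actC, rot, mk4_0, mk4_1, mk4_2, mk4_3, h1, mapc_cos,
      mapc_sin] <;> ring

theorem actC_dk (P : Par) (u : Sy) (a b : ℤ) (x : E4) :
    P.actC u (P.dk a b x) = P.dk (u.e' * a) (u.e * b) (P.actC u x) := by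
  refine ext4 rfl rfl ?_ ?_ <;> simp only [Par.dk, Par.actC, rot, mk4_2, mk4_3] <;> push_cast <;>
    ring

theorem actN_P3 (P : Par) (u : Sy) (z : E4) : actN P u (P3 z) = P3 (actN P u z) := by
  refine ext4 rfl rfl ?_ ?_ <;> simp only [P3, mk4_2, mk4_3, u23_actN] <;>
    simp only [actN, mk4_2, mk4_3] <;> ring

/-- `R3_usc`, `Rj_actC`, `zj_actC`, addition formulas. -/
theorem P2u_act (h : P.Ok) (u : Sy) (j : ℤ) (e : ℤˣ) (x : E4) :
    P2u (u.e' * e) (P.usc (actJ u j) (P.actC u x)) = actN P u (P2u e (P.usc j x)) := by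
  have h0 := h.ϱ0.ne'
  have h1 : R3 (P.usc (actJ u j) (P.actC u x)) = R3 (P.usc j x) := by
    rw [R3_usc h, R3_usc h, Rj_actC]
  have h2 : (((u.e : ℤ) : ℝ) * x 3 + 8 * π * P.ϱ * (u.v 1 - 2 * P.n * u.v 0) / P.K) / P.ϱ / 2 =
      4 * π * (u.v 1 - 2 * P.n * u.v 0) / P.K + ((u.e : ℤ) : ℝ) * (x 3 / P.ϱ / 2) := by
    field_simp
    ring
  have h3 : (((u.e' * e : ℤˣ) : ℤ) : ℝ) * (((u.e' : ℤ) : ℝ) * P.zj j x / P.ϱ) =
      ((e : ℤ) : ℝ) * (P.zj j x / P.ϱ) := by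
    push_cast
    linear_combination ((e : ℤ) : ℝ) * (P.zj j x / P.ϱ) * sgn_sq u.e'
  rw [P2u, h1, P2u]
  generalize R3 (P.usc j x) = R
  refine ext4 ?_ ?_ ?_ ?_ <;>
    simp only [Par.usc, zj_actC, actN, mk4_0, mk4_1, mk4_2, mk4_3, h3] <;>
    simp only [Par.actC, rot, mk4_0, mk4_1, mk4_3, h2, mapc_cos, mapc_sin] <;> ring

theorem actJ_sub (u : Sy) {j j' a : ℤ} (e : 2 * (j' - j) = a * P.K) :
    2 * (actJ u j' - actJ u j) = (u.e' * a) * P.K := by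
  simp only [actJ]
  linear_combination (u.e' : ℤ) * e

end Pool.Agent.Lib.MP_94aef8_gt.Hb
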