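import Pool.Agent.Lib.MP_94aef8_gt.H.GoodO
import Pool.Agent.Lib.MP_94aef8_gt.H.GoodC
import Pool.Agent.Lib.MP_94aef8_gt.H.MapC

/-!
The cusp symmetries and the twist.
-/

open scoped Manifold ContDiff Topology
open Matrix Set Filter Real

namespace Pool.Agent.Lib.MP_94aef8_gt.Hb

variable {P : Par}

theorem loc4_jac_act (u : Sy) (x v : E4) : jac u.act x *ᵥ v.ofLp =
    ![((u.e : ℤ) : ℝ) * v 0, ((u.e : ℤ) : ℝ) * v 1, ((u.e' : ℤ) : ℝ) * v 2, v 3] :=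
  jac_mk4_mulVec (((hfdCoord 0 x).const_mul _).add_const _)
    (((hfdCoord 1 x).const_mul _).add_const _) (((hfdCoord 2 x).const_mul _).add_const _)
    (hfdCoord 3 x) v

theorem loc4_conj {J G H : Mat} (hG : Gᵀ = G) (hH : Hᵀ = H)
    (h : ∀ v : E4, qf G (J *ᵥ v.ofLp) = qf H v.ofLp) : Jᵀ * G * J = H := by
  refine eq_of_qf ?_ hH fun v => ?_
  · simp [Matrix.transpose_mul, hG, Matrix.mul_assoc]
  · rw [qf_conj]
    exact h (WithLp.toLp 2 v)

theorem loc4_sq {C S : ℝ} (h : S ^ 2 + C ^ 2 = 1) (A B : ℝ) :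
    (C * A - S * B) ^ 2 + (S * A + C * B) ^ 2 = A ^ 2 + B ^ 2 := by
  linear_combination (A ^ 2 + B ^ 2) * h

theorem pull_act (P : Par) (u : Sy) (p : E4) : pull u.act P.GO p = P.GO p := by
  refine pull_eq_of_qf (slabM_symm _ _ _) (slabM_symm _ _ _) fun v => ?_
  have h3 : u.act p 3 = p 3 := rfl
  rw [loc4_jac_act, GO_eq, GO_eq, qf_slabM, qf_slabM, h3]
  rcases Int.units_eq_one_or u.e with h | h <;> rcases Int.units_eq_one_or u.e' with h' | h' <;>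
    simp [h, h'] <;> ring_nf <;> simp

/-- The linear part of `actC`. -/
theorem jac_actC (P : Par) (u : Sy) (x v : E4) : jac (P.actC u) x *ᵥ v.ofLp =
    ![cos (4 * π * u.v 0 / P.K) * v 0 - sin (4 * π * u.v 0 / P.K) * (((u.e : ℤ) : ℝ) * v 1),
      sin (4 * π * u.v 0 / P.K) * v 0 + cos (4 * π * u.v 0 / P.K) * (((u.e : ℤ) : ℝ) * v 1),
      ((u.e' : ℤ) : ℝ) * v 2, ((u.e : ℤ) : ℝ) * v 3] :=
  jac_mk4_mulVec
    (((hfdCoord 0 x).const_mul _).sub (((hfdCoord 1 x).const_mul _).const_mul _))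
    (((hfdCoord 0 x).const_mul _).add (((hfdCoord 1 x).const_mul _).const_mul _))
    (((hfdCoord 2 x).const_mul _).add_const _) (((hfdCoord 3 x).const_mul _).add_const _) v

theorem loc4_actC0 (P : Par) (u : Sy) (x : E4) : P.actC u x 0 =
    cos (4 * π * u.v 0 / P.K) * x 0 - sin (4 * π * u.v 0 / P.K) * (((u.e : ℤ) : ℝ) * x 1) := rfl

theorem loc4_actC1 (P : Par) (u : Sy) (x : E4) : P.actC u x 1 =
    sin (4 * π * u.v 0 / P.K) * x 0 + cos (4 * π * u.v 0 / P.K) * (((u.e : ℤ) : ℝ) * x 1) := rfl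

theorem loc4_a1 {C S e : ℝ} (h : S ^ 2 + C ^ 2 = 1) (he : e ^ 2 = 1) (b x0 x1 v0 v1 v3 : ℝ) :
    (C * v0 - S * (e * v1) - b * (S * x0 + C * (e * x1)) * (e * v3)) ^ 2 +
      (S * v0 + C * (e * v1) + b * (C * x0 - S * (e * x1)) * (e * v3)) ^ 2 =
      (v0 - b * x1 * v3) ^ 2 + (v1 + b * x0 * v3) ^ 2 := by
  have h1 : C * v0 - S * (e * v1) - b * (S * x0 + C * (e * x1)) * (e * v3) =
      C * (v0 - b * x1 * v3) - S * (e * (v1 + b * x0 * v3)) := by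
    linear_combination (-b * C * x1 * v3) * he
  have h2 : S * v0 + C * (e * v1) + b * (C * x0 - S * (e * x1)) * (e * v3) =
      S * (v0 - b * x1 * v3) + C * (e * (v1 + b * x0 * v3)) := by
    linear_combination (-b * S * x1 * v3) * he
  rw [h1, h2, loc4_sq h, mul_pow, he, one_mul]

theorem loc4_a2 {C S : ℝ} (h : S ^ 2 + C ^ 2 = 1) (e x0 x1 v0 v1 : ℝ) :
    (C * x0 - S * (e * x1)) * (S * v0 + C * (e * v1)) -
      (S * x0 + C * (e * x1)) * (C * v0 - S * (e * v1)) = e * (x0 * v1 - x1 * v0) := by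
  linear_combination (e * (x0 * v1 - x1 * v0)) * h

theorem loc4_a3 {C S e : ℝ} (h : S ^ 2 + C ^ 2 = 1) (he : e ^ 2 = 1) (x0 x1 v0 v1 : ℝ) :
    (C * x0 - S * (e * x1)) * (C * v0 - S * (e * v1)) +
      (S * x0 + C * (e * x1)) * (S * v0 + C * (e * v1)) = x0 * v0 + x1 * v1 := by
  linear_combination (x0 * v0 + e ^ 2 * x1 * v1) * h + x1 * v1 * he

theorem pull_actC_GBH (P : Par) (u : Sy) (b : ℝ) (x : E4) :
    pull (P.actC u) (GBH b) x = GBH b x := by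
  refine pull_eq_of_qf (GBH_symm _ _) (GBH_symm _ _) fun v => ?_
  have hr : rB (P.actC u x) = rB x := by simp only [rB, u01_actC]
  have h := sin_sq_add_cos_sq (4 * π * u.v 0 / P.K)
  rw [jac_actC, qf_GBH, qf_GBH, hr, u01_actC, loc4_actC0, loc4_actC1]
  simp only [Matrix.cons_val_zero, Matrix.cons_val_one, Matrix.cons_val]
  rw [loc4_a1 h (sgn_sq _), loc4_a2 h]
  linear_combination (3 / 16 * u01 x * (rB x ^ 2 + 4 * rB x + 1) / (rB x * (rB x ^ 2 + rB x + 1)) *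
    (x 0 * v 1 - x 1 * v 0 + b * u01 x * v 3) ^ 2 + rB x ^ 2 * v 3 ^ 2) * sgn_sq u.e +
    rB x ^ 2 * v 2 ^ 2 * sgn_sq u.e'

theorem conj_actC_GSW (P : Par) (u : Sy) (ϱ b z R : ℝ) (x : E4) :
    (jac (P.actC u) x)ᵀ * GSW ϱ b (((u.e' : ℤ) : ℝ) * z) R (P.actC u x) * jac (P.actC u) x =
      GSW ϱ b z R x := by
  refine loc4_conj (GSW_symm _ _ _ _ _) (GSW_symm _ _ _ _ _) fun v => ?_
  have h := sin_sq_add_cos_sq (4 * π * u.v 0 / P.K)
  rw [jac_actC, qf_GSW, qf_GSW, loc4_actC0, loc4_actC1]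
  simp only [Matrix.cons_val_zero, Matrix.cons_val_one, Matrix.cons_val]
  have h2 : ((u.e' : ℤ) : ℝ) * z * (((u.e' : ℤ) : ℝ) * v 2) = z * v 2 := by
    linear_combination z * v 2 * sgn_sq u.e'
  rw [loc4_a1 h (sgn_sq _), loc4_a3 h (sgn_sq _), h2]
  linear_combination (1 - ϱ / R) * v 3 ^ 2 * sgn_sq u.e + v 2 ^ 2 * sgn_sq u.e'

theorem loc4_GC (h : P.Ok) (j : ℤ) {x : E4} (hx : |P.zj j x| ≤ P.l / 2) :
    GC P x = chiS (P.Rj j x / P.l) •
      GSW P.ϱ (P.B * chiT (P.Rj j x / P.ϱ)) (P.zj j x) (P.Rj j x) x +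
      (1 - chiS (P.Rj j x / P.l)) • GBH P.B x := by
  have hl := l_pos h
  have h1 : x = P.sh j (mk4 (x 0) (x 1) (P.zj j x) (x 3)) :=
    ext4 rfl rfl (by simp [Par.sh, Par.zj]) rfl
  have h2 : GC P x = P.GT (mk4 (x 0) (x 1) (P.zj j x) (x 3)) := by
    conv_lhs => rw [h1]
    exact GC_sh h j (by rw [mk4_2]; linarith)
  rw [h2]
  rfl

/-- With `j = jn x` and `y = sh (-j) x`: `GC x = GT y`, and `GC (actC u x)` is `GT` at
`sh (-(actJ u j)) (actC u x)` by `GC_sh` (`zj_actC`, `abs_zj_jn`); both have the same `R3`. -/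
theorem pull_actC (h : P.Ok) (u : Sy) (x : E4) : pull (P.actC u) (GC P) x = GC P x := by
  have h1 := abs_zj_jn h x
  have h2 : |P.zj (actJ u (P.jn x)) (P.actC u x)| ≤ P.l / 2 := by
    rw [zj_actC, abs_mul]
    rcases Int.units_eq_one_or u.e' with h' | h' <;> simpa [h'] using h1
  have h3 : (jac (P.actC u) x)ᵀ * GBH P.B (P.actC u x) * jac (P.actC u) x = GBH P.B x :=
    pull_actC_GBH P u P.B x
  rw [pull, loc4_GC h _ h2, loc4_GC h _ h1, Rj_actC, zj_actC, Matrix.mul_add, Matrix.add_mul,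
    Matrix.mul_smul, Matrix.smul_mul, Matrix.mul_smul, Matrix.smul_mul, conj_actC_GSW, h3]

theorem loc4_jac_actN (P : Par) (u : Sy) (x v : E4) : jac (actN P u) x *ᵥ v.ofLp =
    ![cos (4 * π * (u.v 1 - 2 * P.n * u.v 0) / P.K) * v 0 -
        sin (4 * π * (u.v 1 - 2 * P.n * u.v 0) / P.K) * (((u.e : ℤ) : ℝ) * v 1),
      sin (4 * π * (u.v 1 - 2 * P.n * u.v 0) / P.K) * v 0 +
        cos (4 * π * (u.v 1 - 2 * P.n * u.v 0) / P.K) * (((u.e : ℤ) : ℝ) * v 1),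
      cos (4 * π * u.v 0 / P.K) * v 2 - sin (4 * π * u.v 0 / P.K) * (((u.e : ℤ) : ℝ) * v 3),
      sin (4 * π * u.v 0 / P.K) * v 2 + cos (4 * π * u.v 0 / P.K) * (((u.e : ℤ) : ℝ) * v 3)] :=
  jac_mk4_mulVec
    (((hfdCoord 0 x).const_mul _).sub (((hfdCoord 1 x).const_mul _).const_mul _))
    (((hfdCoord 0 x).const_mul _).add (((hfdCoord 1 x).const_mul _).const_mul _))
    (((hfdCoord 2 x).const_mul _).sub (((hfdCoord 3 x).const_mul _).const_mul _))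
    (((hfdCoord 2 x).const_mul _).add (((hfdCoord 3 x).const_mul _).const_mul _)) v

theorem loc4_a4 {C S e : ℝ} (h : S ^ 2 + C ^ 2 = 1) (he : e ^ 2 = 1) (k L z2 z3 v2 v3 : ℝ) :
    (C * v2 - S * (e * v3) - k * (e * L) * (S * z2 + C * (e * z3))) ^ 2 +
      (S * v2 + C * (e * v3) + k * (e * L) * (C * z2 - S * (e * z3))) ^ 2 =
      (v2 - k * L * z3) ^ 2 + (v3 + k * L * z2) ^ 2 := by
  have := loc4_a1 h he k z2 z3 v2 v3 L
  linear_combination this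

theorem pull_actN (P : Par) (u : Sy) (b : ℝ) (z : E4) : pull (actN P u) (GN b) z = GN b z := by
  refine pull_eq_of_qf (GN_symm _ _) (GN_symm _ _) fun v => ?_
  have h := sin_sq_add_cos_sq (4 * π * u.v 0 / P.K)
  have h' := sin_sq_add_cos_sq (4 * π * (u.v 1 - 2 * P.n * u.v 0) / P.K)
  rw [loc4_jac_actN, qf_GN, qf_GN, u01_actN, u23_actN]
  simp only [Matrix.cons_val_zero, Matrix.cons_val_one, Matrix.cons_val, actN, mk4_0, mk4_1, mk4_2,
    mk4_3]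
  rw [loc4_a2 h', loc4_a4 h (sgn_sq _), loc4_sq h', mul_pow, mul_pow, sgn_sq, one_mul, one_mul]

theorem jac_twi (c : ℝ) (x v : E4) : jac (twi c) x *ᵥ v.ofLp =
    ![cos (c * x 3) * (v 0 - c * x 1 * v 3) - sin (c * x 3) * (v 1 + c * x 0 * v 3),
      sin (c * x 3) * (v 0 - c * x 1 * v 3) + cos (c * x 3) * (v 1 + c * x 0 * v 3),
      v 2, v 3] := by
  have h3 := (hfdCoord 3 x).const_mul c
  have := jac_mk4_mulVec
    ((h3.cos.mul (hfdCoord 0 x)).sub (h3.sin.mul (hfdCoord 1 x)))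
    ((h3.sin.mul (hfdCoord 0 x)).add (h3.cos.mul (hfdCoord 1 x)))
    (hfdCoord 2 x) (hfdCoord 3 x) v
  refine Eq.trans this ?_
  funext i
  fin_cases i <;> simp <;> ring

theorem loc4_twi0 (c : ℝ) (x : E4) :
    twi c x 0 = cos (c * x 3) * x 0 - sin (c * x 3) * x 1 := rfl

theorem loc4_twi1 (c : ℝ) (x : E4) :
    twi c x 1 = sin (c * x 3) * x 0 + cos (c * x 3) * x 1 := rfl

theorem loc4_u01_twi (c : ℝ) (x : E4) : u01 (twi c x) = u01 x := by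
  rw [u01, loc4_twi0, loc4_twi1, loc4_sq (sin_sq_add_cos_sq _), u01]

theorem loc4_t1 {C S : ℝ} (h : S ^ 2 + C ^ 2 = 1) (b c x0 x1 v0 v1 v3 : ℝ) :
    (C * (v0 - c * x1 * v3) - S * (v1 + c * x0 * v3) - b * (S * x0 + C * x1) * v3) ^ 2 +
      (S * (v0 - c * x1 * v3) + C * (v1 + c * x0 * v3) + b * (C * x0 - S * x1) * v3) ^ 2 =
      (v0 - (b + c) * x1 * v3) ^ 2 + (v1 + (b + c) * x0 * v3) ^ 2 := by
  have := loc4_sq h (v0 - (b + c) * x1 * v3) (v1 + (b + c) * x0 * v3)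
  linear_combination this

theorem pull_twi_GBH (b c : ℝ) (x : E4) : pull (twi c) (GBH b) x = GBH (b + c) x := by
  refine pull_eq_of_qf (GBH_symm _ _) (GBH_symm _ _) fun v => ?_
  have hr : rB (twi c x) = rB x := by simp only [rB, loc4_u01_twi]
  have h := sin_sq_add_cos_sq (c * x 3)
  rw [jac_twi, qf_GBH, qf_GBH, hr, loc4_u01_twi, loc4_twi0, loc4_twi1]
  simp only [Matrix.cons_val_zero, Matrix.cons_val_one, Matrix.cons_val]
  have h2 : (cos (c * x 3) * x 0 - sin (c * x 3) * x 1) *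
      (sin (c * x 3) * (v 0 - c * x 1 * v 3) + cos (c * x 3) * (v 1 + c * x 0 * v 3)) -
      (sin (c * x 3) * x 0 + cos (c * x 3) * x 1) *
      (cos (c * x 3) * (v 0 - c * x 1 * v 3) - sin (c * x 3) * (v 1 + c * x 0 * v 3)) +
      b * u01 x * v 3 = x 0 * v 1 - x 1 * v 0 + (b + c) * u01 x * v 3 := by
    rw [u01]
    linear_combination (x 0 * (v 1 + c * x 0 * v 3) - x 1 * (v 0 - c * x 1 * v 3)) * h
  rw [loc4_t1 h, h2]

theorem conj_twi_GSW (ϱ b c z R : ℝ) (x : E4) :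
    (jac (twi c) x)ᵀ * GSW ϱ b z R (twi c x) * jac (twi c) x = GSW ϱ (b + c) z R x := by
  refine loc4_conj (GSW_symm _ _ _ _ _) (GSW_symm _ _ _ _ _) fun v => ?_
  have h := sin_sq_add_cos_sq (c * x 3)
  rw [jac_twi, qf_GSW, qf_GSW, loc4_twi0, loc4_twi1]
  simp only [Matrix.cons_val_zero, Matrix.cons_val_one, Matrix.cons_val]
  have h2 : (cos (c * x 3) * x 0 - sin (c * x 3) * x 1) *
      (cos (c * x 3) * (v 0 - c * x 1 * v 3) - sin (c * x 3) * (v 1 + c * x 0 * v 3)) +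
      (sin (c * x 3) * x 0 + cos (c * x 3) * x 1) *
      (sin (c * x 3) * (v 0 - c * x 1 * v 3) + cos (c * x 3) * (v 1 + c * x 0 * v 3)) =
      x 0 * v 0 + x 1 * v 1 := by
    linear_combination (x 0 * (v 0 - c * x 1 * v 3) + x 1 * (v 1 + c * x 0 * v 3)) * h
  rw [loc4_t1 h, h2]

end Pool.Agent.Lib.MP_94aef8_gt.Hb
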