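import Pool.Agent.Lib.MP_94aef8_gt.H.Pt

/-!
Tensor fields and isometries given in patches.
-/

open scoped Manifold ContDiff Topology
open Matrix Set Filter

namespace Pool.Agent.Lib.MP_94aef8_gt.Hb

variable {M : Type} [TopologicalSpace M] [ChartedSpace E4 M]

/-- The tensor at `π z` whose components in the patch `π` are `G z`. -/
noncomputable def tens (π : E4 → M) (G : Tn) (z : E4) : Mat :=
  ((jm π z)⁻¹)ᵀ * G z * (jm π z)⁻¹

theorem pt2_cancel {J : Mat} (hu : IsUnit J.det) (X : Mat) :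
    (J⁻¹)ᵀ * (Jᵀ * X * J) * J⁻¹ = X := by
  have hT : IsUnit Jᵀ.det := by rwa [det_transpose]
  rw [transpose_nonsing_inv]
  simp only [Matrix.mul_assoc]
  rw [mul_nonsing_inv _ hu, Matrix.mul_one, ← Matrix.mul_assoc, nonsing_inv_mul _ hT,
    Matrix.one_mul]

theorem gpull_of_tens {π : E4 → M} {U : Set E4} (h : Pt π U) {z : E4} (hz : z ∈ U) {g : M → Mat}
    {G : Tn} (e : g (π z) = tens π G z) : gpull π g z = G z := by
  have hu : IsUnit (jm π z).det := isUnit_iff_ne_zero.2 (h.unit z hz)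
  have hT : IsUnit (jm π z)ᵀ.det := by rwa [det_transpose]
  rw [gpull, e, tens, transpose_nonsing_inv]
  simp only [Matrix.mul_assoc]
  rw [nonsing_inv_mul _ hu, Matrix.mul_one, ← Matrix.mul_assoc, mul_nonsing_inv _ hT,
    Matrix.one_mul]

/-- `jm π z = jm π' (φ z) * jac φ z`, all three invertible. -/
theorem tens_eq {π π' : E4 → M} {U U' : Set E4} (h : Pt π U) (h' : Pt π' U') {φ : E4 → E4} {z : E4}
    (hz : z ∈ U) (hz' : φ z ∈ U') (hφ : DifferentiableAt ℝ φ z) (he : π' ∘ φ =ᶠ[𝓝 z] π)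
    {G G' : Tn} (hG : pull φ G' z = G z) : tens π' G' (φ z) = tens π G z := by
  have e : jm π z = jm π' (φ z) * jac φ z := by
    rw [← jm_congr he, jm_comp (pt_mdiff h' hz') hφ.mdifferentiableAt, jm_flat hφ]
  have hd := h.unit z hz
  rw [e, det_mul] at hd
  have hu : IsUnit (jac φ z).det := isUnit_iff_ne_zero.2 (right_ne_zero_of_mul hd)
  have hT : IsUnit (jac φ z)ᵀ.det := by rwa [det_transpose]
  rw [tens, tens, ← hG, e, pull, Matrix.mul_inv_rev, transpose_mul,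
    transpose_nonsing_inv (jac φ z)]
  simp only [Matrix.mul_assoc]
  rw [← Matrix.mul_assoc (jac φ z), mul_nonsing_inv _ hu, Matrix.one_mul,
    ← Matrix.mul_assoc (jac φ z)ᵀ⁻¹, nonsing_inv_mul _ hT, Matrix.one_mul]

/-- The entries of the pull back of a smooth field by a smooth map are smooth. -/
theorem pull_smoothAt {φ : E4 → E4} {G : Tn} {p : E4} (hφ : ∀ᶠ x in 𝓝 p, ContDiffAt ℝ ∞ φ x)
    (hG : ∀ i j, ContDiffAt ℝ ∞ (fun x => G x i j) (φ p)) (i j : Fin 4) :
    ContDiffAt ℝ ∞ (fun x => pull φ G x i j) p := by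
  have h0 := hφ.self_of_nhds
  have hj : ∀ a b, ContDiffAt ℝ ∞ (fun x => jac φ x a b) p := fun a b => by
    have h1 : ContDiffAt ℝ ∞ (fun y => φ y a) p := (cdCoord a).contDiffAt.comp p h0
    exact (h1.fderiv_right (m := ∞) (by simp)).clm_apply contDiffAt_const
  simp only [pull, Matrix.mul_apply, transpose_apply]
  refine ContDiffAt.sum fun b _ => ContDiffAt.mul (ContDiffAt.sum fun a _ => ?_) (hj b j)
  exact (hj a i).mul ((hG a b).comp p h0)

variable [IsManifold (𝓡 4) ∞ M]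

/-- A patch has a local section which is smooth near the point (apply `locD_of_pt` at the nearby
points and use local injectivity, or redo the inverse function theorem: on the target of
`ContDiffAt.toOpenPartialHomeomorph` use `OpenPartialHomeomorph.contDiffAt_symm`). -/
theorem pt_section {π : E4 → M} {U : Set E4} (h : Pt π U) {z : E4} (hz : z ∈ U) :
    ∃ ψ : M → E4, ψ (π z) = z ∧
      ∀ᶠ m in 𝓝 (π z), ContMDiffAt (𝓡 4) (𝓡 4) ∞ ψ m ∧ ψ m ∈ U ∧ π (ψ m) = m := by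
  obtain ⟨-, g, hg, hgz, hgr⟩ := locD_of_pt h hz
  have hgd : MDifferentiableAt (𝓡 4) (𝓡 4) g (π z) := hg.mdifferentiableAt (by simp)
  have h1 : jm π z * jm g (π z) = 1 := by
    have h2 : jm (π ∘ g) (π z) = jm π (g (π z)) * jm g (π z) :=
      jm_comp (by rw [hgz]; exact pt_mdiff h hz) hgd
    rw [hgz] at h2
    rw [← h2, ← jm_id (π z)]
    exact jm_congr hgr
  have hs : ContDiffAt ℝ ∞ (g ∘ π) z := contMDiffAt_iff_contDiffAt.1 (hg.comp z (pt_at h hz))
  have hsd : DifferentiableAt ℝ (g ∘ π) z := hs.differentiableAt (by simp)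
  have h3 : jac (g ∘ π) z = 1 := by
    rw [← jm_flat hsd, jm_comp hgd (pt_mdiff h hz)]
    exact mul_eq_one_comm.1 h1
  have h4 : fderiv ℝ (g ∘ π) z = (ContinuousLinearEquiv.refl ℝ E4 : E4 →L[ℝ] E4) := by
    ext v i
    have := jac_mulVec hsd.hasFDerivAt v
    rw [h3, one_mulVec] at this
    simpa using (congrFun this i).symm
  have h5 : HasStrictFDerivAt (g ∘ π) (ContinuousLinearEquiv.refl ℝ E4 : E4 →L[ℝ] E4) z :=
    h4 ▸ hs.hasStrictFDerivAt (by simp)
  obtain ⟨V, hV, hVo, hVz⟩ := eventually_nhds_iff.1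
    (h5.eventually_left_inverse.and (h.isOpen.mem_nhds hz))
  have inj : ∀ x ∈ V, ∀ y ∈ V, π x = π y → x = y := fun x hx y hy e => by
    rw [← (hV x hx).1, ← (hV y hy).1, Function.comp_apply, Function.comp_apply, e]
  have h6 : ∀ᶠ m in 𝓝 (π z), g m ∈ V :=
    hg.continuousAt.eventually_mem (by rw [hgz]; exact hVo.mem_nhds hVz)
  refine ⟨g, hgz, ?_⟩
  filter_upwards [(h6.and hgr).eventually_nhds] with m hm
  obtain ⟨hmV, hmr⟩ := hm.self_of_nhds
  refine ⟨?_, (hV _ hmV).2, hmr⟩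
  obtain ⟨-, g', hg', hgz', hgr'⟩ := locD_of_pt h (hV _ hmV).2
  rw [hmr] at hg' hgz' hgr'
  have h7 : ∀ᶠ x in 𝓝 m, g' x ∈ V :=
    hg'.continuousAt.eventually_mem (by rw [hgz']; exact hVo.mem_nhds hmV)
  refine hg'.congr_of_eventuallyEq ?_
  filter_upwards [hm, h7, hgr'] with x h8 h9 h10
  exact inj _ h8.1 _ h9 (h8.2.trans h10.symm)

/-- Positivity: `g (π z)` is congruent to `G z` (`Matrix.PosDef.conjTranspose_mul_mul_same` or
`posDef_of_qf`). Smoothness at `p` in the target of the chart at `x`: with `m = ch x p = π z` and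
`ψ` from `pt_section`, `ch x = π ∘ (ψ ∘ ch x)` near `p`, so `gpull (ch x) g = pull (ψ ∘ ch x) G`
near `p` (`gpull_congr`, `gpull_comp`, `gpull_flat`); `pull_smoothAt`. -/
theorem goodT_of_pt {g : M → Mat} (h : ∀ m, ∃ (π : E4 → M) (U : Set E4) (G : Tn) (z : E4),
    Pt π U ∧ Good G U ∧ z ∈ U ∧ π z = m ∧ ∀ x ∈ U, gpull π g x = G x) : GoodT g := by
  refine ⟨fun x i j p hp => ?_, fun m => ?_⟩
  · obtain ⟨π, U, G, z, hπ, hG, hz, hm, he⟩ := h (ch x p)
    obtain ⟨ψ, hψz, hψ⟩ := pt_section hπ hz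
    rw [hm] at hψ hψz
    have hT : (chartAt E4 x).target ∈ 𝓝 p := (chartAt E4 x).open_target.mem_nhds hp
    have hc : ∀ q ∈ (chartAt E4 x).target, ContMDiffAt (𝓡 4) (𝓡 4) ∞ (ch x) q := fun q hq =>
      (contMDiffOn_chart_symm (x := x)).contMDiffAt ((chartAt E4 x).open_target.mem_nhds hq)
    have h1 := (hc p hp).continuousAt.eventually hψ
    have h2 : ∀ᶠ q in 𝓝 p, ContDiffAt ℝ ∞ (ψ ∘ ch x) q := by
      filter_upwards [h1, hT] with q h3 h4
      exact contMDiffAt_iff_contDiffAt.1 (h3.1.comp q (hc q h4))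
    have h3 : ∀ a b, ContDiffAt ℝ ∞ (fun y => G y a b) ((ψ ∘ ch x) p) := fun a b => by
      rw [Function.comp_apply, hψz]
      exact (hG.smooth a b).contDiffAt (hG.isOpen.mem_nhds hz)
    refine ((pull_smoothAt h2 h3 i j).congr_of_eventuallyEq ?_).contDiffWithinAt
    filter_upwards [h1.eventually_nhds, h2] with q h4 h5
    have h6 : ch x =ᶠ[𝓝 q] π ∘ (ψ ∘ ch x) := h4.mono fun y hy => hy.2.2.symm
    have h7 : (ψ ∘ ch x) q ∈ U := h4.self_of_nhds.2.1
    have h8 : DifferentiableAt ℝ (ψ ∘ ch x) q := h5.differentiableAt (by simp)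
    rw [gpull_congr h6, gpull_comp (pt_mdiff hπ h7) h8.mdifferentiableAt, gpull_flat h8, pull,
      pull, he _ h7]
  · obtain ⟨π, U, G, z, hπ, hG, hz, rfl, he⟩ := h m
    have hu : IsUnit (jm π z).det := isUnit_iff_ne_zero.2 (hπ.unit z hz)
    rw [← pt2_cancel hu (g (π z))]
    have h1 := (hG.pos z hz).conjTranspose_mul_mul_same (B := (jm π z)⁻¹)
      (mulVec_injective_of_isUnit
        ((isUnit_iff_isUnit_det _).2 (isUnit_nonsing_inv_det _ hu)))
    rwa [conjTranspose_eq_transpose_of_trivial, ← he z hz, gpull] at h1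

/-- `F` is smooth at `π z` by `smoothAt_of_locD`. With `J = jm π z`,
`Jᵀ (gpull F g m) J = gpull (F ∘ π) g z = gpull (π' ∘ f) g z = pull f (gpull π' g) z = Jᵀ (g m) J`;
cancel `J`. The determinant of `jm F m` does not vanish since `det (g m) > 0`. -/
theorem isoM_of_pt {g : M → Mat} (hg : GoodT g) {F : M → M}
    (h : ∀ m, ∃ (π π' : E4 → M) (U U' : Set E4) (f : E4 → E4) (z : E4), Pt π U ∧ Pt π' U' ∧
      z ∈ U ∧ π z = m ∧ ContDiffAt ℝ ∞ f z ∧ f z ∈ U' ∧ F ∘ π =ᶠ[𝓝 z] π' ∘ f ∧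
      pull f (gpull π' g) z = gpull π g z) : IsoM g F := by
  have hs : ∀ m, ContMDiffAt (𝓡 4) (𝓡 4) ∞ F m := fun m => by
    obtain ⟨π, π', U, U', f, z, hπ, hπ', hz, rfl, hf, hz', he, -⟩ := h m
    refine smoothAt_of_locD (locD_of_pt hπ hz) ?_
    exact ((pt_at hπ' hz').comp z hf.contMDiffAt).congr_of_eventuallyEq he
  have heq : ∀ m, gpull F g m = g m := fun m => by
    obtain ⟨π, π', U, U', f, z, hπ, hπ', hz, rfl, hf, hz', he, hp⟩ := h m
    have hu : IsUnit (jm π z).det := isUnit_iff_ne_zero.2 (hπ.unit z hz)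
    have hd : DifferentiableAt ℝ f z := hf.differentiableAt (by simp)
    have h1 : gpull π (gpull F g) z = gpull π g z := by
      rw [← gpull_comp ((hs _).mdifferentiableAt (by simp)) (pt_mdiff hπ hz), gpull_congr he,
        gpull_comp (pt_mdiff hπ' hz') hd.mdifferentiableAt, gpull_flat hd, hp]
    rw [← pt2_cancel hu (gpull F g (π z)), ← pt2_cancel hu (g (π z))]
    exact congrArg (fun X => ((jm π z)⁻¹)ᵀ * X * (jm π z)⁻¹) h1
  refine ⟨⟨isOpen_univ, fun m _ => (hs m).contMDiffWithinAt, fun m _ h0 => ?_⟩, heq⟩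
  have h1 := (hg.pos m).det_pos
  rw [← heq m, gpull, det_mul, h0, mul_zero] at h1
  exact lt_irrefl _ h1

end Pool.Agent.Lib.MP_94aef8_gt.Hb
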