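import Pool.Agent.Lib.MP_94aef8_gt.H.Lift
import Pool.Agent.Lib.MP_94aef8_gt.H.Pt2
import Pool.Agent.Lib.MP_94aef8_gt.H.Loc1
import Pool.Agent.Lib.MP_94aef8_gt.H.Loc3
import Pool.Agent.Lib.MP_94aef8_gt.H.Loc4

/-!
The approximate solution.
-/

open scoped Manifold ContDiff Topology
open Matrix Set Filter Real

namespace Pool.Agent.Lib.MP_94aef8_gt.Hb

variable {P : Par} {A : Arith P.K}

/-- If the product of the heights exceeds one, `τ` is a translation on `UH` (`A.high`, `jac_congr`,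
`pull_trl`); otherwise both heights are below 3 (`GO_low`, `A.iso`). -/
theorem pull_Tr {c c' : A.C} {τ : E4 → E4} (hτ : τ ∈ A.Tr c c') {p : E4} (hp : p ∈ P.UO)
    (hp' : τ p ∈ P.UO) : pull τ P.GO p = P.GO p := by
  have hU : p ∈ UH := lt_trans (by norm_num) hp.1
  by_cases h1 : 1 < p 3 * τ p 3
  · obtain ⟨-, v, hv⟩ := A.high hτ p hU h1
    have he : τ =ᶠ[𝓝 p] trl P.K v :=
      Filter.mem_of_superset (isOpen_UH.mem_nhds hU) fun q hq => hv q hq
    have := pull_trl P P.K v p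
    simp only [pull] at this ⊢
    rw [jac_congr he, hv p hU, this]
  · have a1 := hp.1
    have a2 := hp'.1
    have b1 : p 3 ≤ 3 := by nlinarith
    have b2 : τ p 3 ≤ 3 := by nlinarith
    have := A.iso hτ p hU
    simp only [pull] at this ⊢
    rw [GO_low P b1, GO_low P b2, this]

/-- Each field is `tens_eq`: the identification holds near the point because the conditions are
open (`D.eqO`, `D.eqC`, `D.eqN`, `D.trOC`, `D.trCN`). -/
theorem cmp_metric (h : P.Geom) (D : MD P A) :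
    Cmp P A (fun c => tens (D.pO c) P.GO) (fun c => tens (D.pC c) (GC P))
      fun c j e => tens (D.pN c j e) fun z => P.ϱ ^ 2 • GN (P.B * P.ϱ) z := by
  have h0 := h.toOk
  have hδ := h0.δ0
  refine ⟨fun c c' τ hτ p hp hp' => ?_, fun c a b x hx => ?_, fun c j j' a e hj z hz => ?_,
    fun c j e e' he z hz hu => ?_, fun c p hp h1 => ?_, fun c j e x hx h1 h2 => ?_⟩
  · have hU : p ∈ UH := lt_trans (by norm_num) hp.1
    have hs : ContDiffAt ℝ ∞ τ p := (A.ld hτ).smooth.contDiffAt (isOpen_UH.mem_nhds hU)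
    refine tens_eq (D.ptO c) (D.ptO c') hp hp' (hs.differentiableAt (by simp)) ?_
      (pull_Tr hτ hp hp')
    filter_upwards [(isOpen_UO P).mem_nhds hp,
      hs.continuousAt.eventually_mem ((isOpen_UO P).mem_nhds hp')] with q a b
    exact ((D.eqO c c' q a _ b).2 ⟨τ, hτ, rfl⟩).symm
  · refine tens_eq (D.ptC c) (D.ptC c) hx (dk_mem_UC h0 a b hx) (by rw [dk_eq_add]; fun_prop) ?_
      (pull_dk h0 a b x)
    filter_upwards [(isOpen_UC h0).mem_nhds hx] with q hq
    exact ((D.eqC c c q hq _ (dk_mem_UC h0 a b hq)).2 ⟨rfl, a, b, rfl⟩).symm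
  · refine tens_eq (φ := id) (D.ptN c j e) (D.ptN c j' e) hz hz differentiableAt_id ?_
      (by simp [pull, jac_id])
    filter_upwards [isOpen_UN.mem_nhds hz] with q hq
    exact ((D.eqN c c j j' e e q hq q hq).2 ⟨rfl, ⟨a, hj⟩, .inl ⟨rfl, rfl⟩⟩).symm
  · refine tens_eq (D.ptN c j e) (D.ptN c j e') hz (hz : P3 z ∈ UN)
      ((P3_smooth hu).differentiableAt (by simp)) ?_ (by rw [pull_smul, pull_P3 _ hu])
    have hc : Continuous u23 := by unfold u23; fun_prop
    filter_upwards [isOpen_UN.mem_nhds hz, hc.continuousAt.eventually_ne hu] with q hq hq'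
    exact ((D.eqN c c j j e e' q hq (P3 q) hq).2
      ⟨rfl, ⟨0, by simp⟩, .inr ⟨he, hq', rfl⟩⟩).symm
  · have h4 : 4 ≤ p 3 := by
      refine le_trans ?_ h1.le
      rw [le_div_iff₀ (by positivity)]
      linarith [h0.δ1]
    refine tens_eq (D.ptO c) (D.ptC c) hp (P1_mem_UC h0 hp h1)
      ((P1_smooth h0 (UO_lt h0 hp).1 (UO_lt h0 hp).2).differentiableAt (by simp)) ?_
      (pull_P1_GC h hp h4)
    filter_upwards [(isOpen_UO P).mem_nhds hp,
      continuousAt_const.eventually_lt (cdCoord 3).continuous.continuousAt h1] with q a b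
    exact D.trOC c q a b
  · obtain ⟨u1, -, u3, u4⟩ := usc_data h0 hx h1 h2
    refine tens_eq (φ := P2u e ∘ P.usc j) (D.ptC c) (D.ptN c j e) hx u4
      (((P2u_smooth e u1 u3).comp x (usc_smooth P j).contDiffAt).differentiableAt (by simp)) ?_
      (pull_CN h0 hx h1 h2)
    have hz : Continuous (P.zj j) := by unfold Par.zj; fun_prop
    filter_upwards [(isOpen_UC h0).mem_nhds hx,
      (continuous_Rj P j).continuousAt.eventually_lt continuousAt_const h1,
      continuousAt_const.eventually_lt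
        ((continuous_Rj P j).add (continuous_const.mul hz)).continuousAt h2] with q a b d
    exact D.trCN c j e q a b d

/-- `lift`, `gpull_of_tens`, `goodT_of_pt`. -/
theorem exists_metric (h : P.Geom) (D : MD P A) : ∃ g : D.M → Mat, GoodT g ∧
    (∀ c, ∀ p ∈ P.UO, gpull (D.pO c) g p = P.GO p) ∧
    (∀ c, ∀ x ∈ P.UC, gpull (D.pC c) g x = GC P x) ∧
    ∀ c j e, ∀ z ∈ UN, gpull (D.pN c j e) g z = P.ϱ ^ 2 • GN (P.B * P.ϱ) z := by
  have h0 := h.toOk
  obtain ⟨g, g1, g2, g3⟩ := lift h0 D (cmp_metric h D)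
  have a1 : ∀ c, ∀ p ∈ P.UO, gpull (D.pO c) g p = P.GO p := fun c p hp =>
    gpull_of_tens (D.ptO c) hp (g1 c p hp)
  have a2 : ∀ c, ∀ x ∈ P.UC, gpull (D.pC c) g x = GC P x := fun c x hx =>
    gpull_of_tens (D.ptC c) hx (g2 c x hx)
  have a3 : ∀ c j e, ∀ z ∈ UN, gpull (D.pN c j e) g z = P.ϱ ^ 2 • GN (P.B * P.ϱ) z :=
    fun c j e z hz => gpull_of_tens (G := fun z => P.ϱ ^ 2 • GN (P.B * P.ϱ) z) (D.ptN c j e) hz
      (g3 c j e z hz)
  refine ⟨g, goodT_of_pt fun m => ?_, a1, a2, a3⟩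
  rcases D.cover m with ⟨c, p, hp, e⟩ | ⟨c, x, hx, e⟩ | ⟨c, j, s, z, hz, e⟩
  · exact ⟨_, _, _, p, D.ptO c, good_GO h0, hp, e, a1 c⟩
  · exact ⟨_, _, _, x, D.ptC c, good_GC h0, hx, e, a2 c⟩
  · exact ⟨_, _, _, z, D.ptN c j s, good_GN (P.B * P.ϱ) h0.ϱ0.ne', hz, e, a3 c j s⟩

/-- `exists_symMap`, `isoM_of_pt`, `pull_act`, `pull_actC`, `pull_actN` (`pull` only sees the value
of the field at the image point). -/
theorem exists_iso (h : P.Ok) (D : MD P A) {g : D.M → Mat} (hg : GoodT g)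
    (hO : ∀ c, ∀ p ∈ P.UO, gpull (D.pO c) g p = P.GO p)
    (hC : ∀ c, ∀ x ∈ P.UC, gpull (D.pC c) g x = GC P x)
    (hN : ∀ c j e, ∀ z ∈ UN, gpull (D.pN c j e) g z = P.ϱ ^ 2 • GN (P.B * P.ϱ) z) (c : A.C)
    (u : Sy) : ∃ F, IsoM g F ∧ ∀ x ∈ P.UC, F (D.pC c x) = D.pC c (P.actC u x) := by
  obtain ⟨F, φ, U, e1, e2, f1, f2, f3⟩ := exists_symMap h D c u
  refine ⟨F, isoM_of_pt hg fun m => ?_, fun x hx => by rw [f2 c x hx, e1, e2]⟩
  rcases D.cover m with ⟨a, p, hp, e⟩ | ⟨a, x, hx, e⟩ | ⟨a, j, s, z, hz, e⟩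
  · refine ⟨_, _, _, _, (U a).act, p, D.ptO a, D.ptO (φ a), hp, e, (act_smooth _).contDiffAt,
      act_mem_UO _ hp, ?_, ?_⟩
    · filter_upwards [(isOpen_UO P).mem_nhds hp] with q hq
      exact f1 a q hq
    · have := pull_act P (U a) p
      simp only [pull] at this ⊢
      rw [hO _ _ (act_mem_UO _ hp), hO _ _ hp, this]
  · refine ⟨_, _, _, _, P.actC (U a), x, D.ptC a, D.ptC (φ a), hx, e,
      (actC_smooth P _).contDiffAt, actC_mem_UC _ hx, ?_, ?_⟩
    · filter_upwards [(isOpen_UC h).mem_nhds hx] with q hq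
      exact f2 a q hq
    · have := pull_actC h (U a) x
      simp only [pull] at this ⊢
      rw [hC _ _ (actC_mem_UC _ hx), hC _ _ hx, this]
  · refine ⟨_, _, _, _, actN P (U a), z, D.ptN a j s,
      D.ptN (φ a) (actJ (U a) j) ((U a).e' * s), hz, e, (actN_smooth P _).contDiffAt,
      actN_mem_UN P _ hz, ?_, ?_⟩
    · filter_upwards [isOpen_UN.mem_nhds hz] with q hq
      exact f3 a j s q hq
    · have := pull_smul (actN P (U a)) (P.ϱ ^ 2) (GN (P.B * P.ϱ)) z
      rw [pull_actN] at this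
      simp only [pull] at this ⊢
      rw [hN _ _ _ _ (actN_mem_UN P _ hz), hN _ _ _ _ hz, this]

theorem gpull_patch {D : MD P A} {g : D.M → Mat} {c : A.C}
    (hC : ∀ x ∈ P.UC, gpull (D.pC c) g x = GC P x) {τ : E4 → E4} {x : E4}
    (hτ : DifferentiableAt ℝ τ x) (hx : τ x ∈ P.UC) :
    gpull (D.pC c ∘ τ) g x = pull τ (GC P) x := by
  have hm : MDifferentiableAt (𝓡 4) (𝓡 4) τ x := hτ.mdifferentiableAt
  rw [gpull_comp (pt_mdiff (D.ptC c) hx) hm, gpull_flat hτ]
  simp only [pull]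
  rw [hC _ hx]

theorem exists_AP (h : P.Geom) (D : MD P A) : Nonempty (AP D) := by
  obtain ⟨g, hg, hO, hC, hN⟩ := exists_metric h D
  obtain ⟨s, s1, s2, s3, s4⟩ := exists_scale h.toOk D
  exact ⟨{
    g := g
    s := s
    S := {F | IsoM g F}
    good := hg
    gO := hO
    gT := fun c j x hx => by
      rw [gpull_patch (hC c) (by rw [sh_eq_add]; fun_prop) (sh_mem_UC h.toOk j hx),
        pull_sh h.toOk j hx.2.1.le]
    gB := fun c j x h1 h2 => by
      rw [gpull_patch (hC c) ((sc_smooth P j).differentiable (by simp) x)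
        (sc_mem_UC h.toOk j h1 h2), pull_sc h.toOk j h1 h2.le]
    gN := hN
    scont := s1
    sO := s2
    sC := s3
    sN := s4
    iso := fun _ hF => hF
    sym := exists_iso h.toOk D hg hO hC hN }⟩

end Pool.Agent.Lib.MP_94aef8_gt.Hb
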