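import Pool.Agent.Lib.MP_94aef8_gt.H.MapB

/-!
The slab and the core region in the ambient space.
-/

open scoped Manifold ContDiff Topology
open Matrix Set Filter Real

namespace Pool.Agent.Lib.MP_94aef8_gt.Hb

open Cap (Amb YY Yo hyp cis cx EOm EMid EBub capU capE CP rad hgt ytop rOf sOf alV LocD Capped)

variable {P : Par}

theorem ambc_nsq (P : Par) (x : E4) :
    Complex.normSq (cx (x 0) (x 1) / P.δ) = u01 x / P.δ ^ 2 := by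
  rw [map_div₀, Cap.normSq_cx, Complex.normSq_ofReal, u01, sq P.δ]

theorem ambc_eps (h : P.Ok) : 0 < P.ϱ / P.δ ∧ P.ϱ / P.δ ≤ 1 / 100 := by
  refine ⟨div_pos h.ϱ0 h.δ0, ?_⟩
  rw [div_le_iff₀ h.δ0]
  linarith [h.ϱ1]

theorem ambc_u01 (x : E4) : 0 ≤ u01 x := by
  unfold u01
  positivity

theorem ambc_cis (t : ℝ) : cis t = cx (cos t) (sin t) := by
  rw [cis, cx, Complex.exp_mul_I, Complex.ofReal_cos, Complex.ofReal_sin]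

theorem mem_UO_iff (h : P.Ok) {p : E4} : p ∈ P.UO ↔ 1 / 3 < p 3 ∧ p 3 < ytop P.δ := by
  have hδ := h.δ0
  have h1 : 0 < P.δ * (1 + 3 / 100 * P.δ ^ 2) := by positivity
  have h2 : P.δ * p 3 * (1 + 3 / 4 * (2 * P.δ / 10) ^ 2) =
      p 3 * (P.δ * (1 + 3 / 100 * P.δ ^ 2)) := by ring
  change (1 / 3 < p 3 ∧ P.δ * p 3 * (1 + 3 / 4 * (2 * P.δ / 10) ^ 2) < 1) ↔
    1 / 3 < p 3 ∧ p 3 < 1 / (P.δ * (1 + 3 / 100 * P.δ ^ 2))
  rw [lt_div_iff₀ h1, h2]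

theorem mem_UT_iff (h : P.Ok) (j : ℤ) {x : E4} : x ∈ P.UT ↔ x ∈ capU (cpar P) (.mid j) := by
  have e1 : P.ϱ / P.δ * P.δ = P.ϱ := div_mul_cancel₀ _ h.δ0.ne'
  have e2 : 9 / 10 * (2 * P.δ) = 9 / 5 * P.δ := by ring
  change (u01 x < 8 / 3 ∧ |x 2| < 9 / 10 * (2 * P.δ) ∧ P.ϱ < √(u01 x + x 2 ^ 2)) ↔
    (u01 x < 8 / 3 ∧ |x 2| < 9 / 5 * P.δ ∧ (P.ϱ / P.δ * P.δ) ^ 2 < u01 x + x 2 ^ 2)
  rw [e1, e2, Real.lt_sqrt h.ϱ0.le]

theorem rad_EC (h : P.Ok) (j : ℤ) (x : E4) :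
    rad j (EC P x).1 (EC P x).2.2 = P.Rj j x / P.δ := by
  have hδ := h.δ0
  have e : u01 x / P.δ ^ 2 + (x 2 / P.δ - 2 * j) ^ 2 =
      (u01 x + (x 2 - j * (2 * P.δ)) ^ 2) / P.δ ^ 2 := by
    field_simp
  change √(Complex.normSq (cx (x 0) (x 1) / P.δ) + (x 2 / P.δ - 2 * j) ^ 2) =
    √(u01 x + (x 2 - j * (2 * P.δ)) ^ 2) / P.δ
  rw [ambc_nsq, e, Real.sqrt_div' _ (sq_nonneg _), Real.sqrt_sq hδ.le]

/-- `Cap.hyp_eq'` with `|z - 2 j| ≤ 9 / 5`. -/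
theorem EC_sh (h : P.Ok) (j : ℤ) {x : E4} (hx : x ∈ P.UT) :
    EC P (P.sh j x) = capE (cpar P) (.mid j) x := by
  have hδ := h.δ0
  have hϱ := h.ϱ0
  obtain ⟨e0, e1⟩ := ambc_eps h
  have e2 : P.ϱ / P.δ * P.δ = P.ϱ := div_mul_cancel₀ _ hδ.ne'
  have e3 : (x 2 + j * (2 * P.δ)) / P.δ = 2 * j + x 2 / P.δ := by
    field_simp
    ring
  have e4 : |(x 2 + j * (2 * P.δ)) / P.δ - 2 * j| ≤ 9 / 5 := by
    have h2 : |x 2| < 9 / 10 * (2 * P.δ) := hx.2.1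
    rw [e3, add_sub_cancel_left, abs_div, abs_of_pos hδ, div_le_iff₀ hδ]
    linarith
  have e5 : rad j (cx (x 0) (x 1) / P.δ) ((x 2 + j * (2 * P.δ)) / P.δ) = R3 x / P.δ := by
    rw [← Rj_sh P j x, ← rad_EC h j]
    rfl
  have e6 : R3 x / P.δ / (P.ϱ / P.δ) = √(x 0 ^ 2 + x 1 ^ 2 + x 2 ^ 2) / P.ϱ := by
    change √(x 0 ^ 2 + x 1 ^ 2 + x 2 ^ 2) / P.δ / (P.ϱ / P.δ) = _
    field_simp
  change ((cx (x 0) (x 1) / P.δ, √(hyp (P.ϱ / P.δ) (cx (x 0) (x 1) / P.δ)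
      ((x 2 + j * (2 * P.δ)) / P.δ)) * cis (x 3 / (2 * P.ϱ)), (x 2 + j * (2 * P.δ)) / P.δ) : Amb) =
    (cx (x 0) (x 1) / P.δ, √(alV (√(x 0 ^ 2 + x 1 ^ 2 + x 2 ^ 2) / (P.ϱ / P.δ * P.δ) - 1)) *
      cis (x 3 / (2 * (P.ϱ / P.δ * P.δ))), 2 * j + x 2 / P.δ)
  rw [Cap.hyp_eq' e0 (e1.trans (by norm_num)) _ e4, e5, e6, e2, e3]

theorem ambc_pos (h : P.Ok) {x : E4} (hx : x ∈ P.UC) :
    0 < hyp (P.ϱ / P.δ) (cx (x 0) (x 1) / P.δ) (x 2 / P.δ) := by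
  refine (Cap.hyp_pos_iff (ambc_eps h).1).2 fun j => ?_
  have e := rad_EC h j x
  change rad j (cx (x 0) (x 1) / P.δ) (x 2 / P.δ) = _ at e
  rw [e]
  exact div_lt_div_of_pos_right (hx.2 j) h.δ0

theorem ambc_rOf (h : P.Ok) {x : E4} (hx : x ∈ P.UC) : rOf P.δ (EC P x).1 < 3 := by
  have hδ := h.δ0
  have h1 : u01 x < 8 / 3 := hx.1
  have e : 3 / 4 * P.δ ^ 2 * (u01 x / P.δ ^ 2) = 3 / 4 * u01 x := by field_simp
  change 1 + 3 / 4 * P.δ ^ 2 * Complex.normSq (cx (x 0) (x 1) / P.δ) < 3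
  rw [ambc_nsq, e]
  linarith

theorem EC_mem (h : P.Ok) {x : E4} (hx : x ∈ P.UC) : EC P x ∈ YP P := by
  have h1 := ambc_pos h hx
  refine ⟨?_, ?_⟩
  · change Complex.normSq (√(hyp (P.ϱ / P.δ) (cx (x 0) (x 1) / P.δ) (x 2 / P.δ)) *
      cis (x 3 / (2 * P.ϱ))) = hyp (P.ϱ / P.δ) (cx (x 0) (x 1) / P.δ) (x 2 / P.δ)
    rw [map_mul, Cap.normSq_cis, Complex.normSq_ofReal, mul_one, Real.mul_self_sqrt h1.le]
  · have h2 := ambc_rOf h hx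
    have h3 := h.δ1
    have h4 := mul_lt_mul_of_pos_left h2 h.δ0
    linarith

theorem hgt_EC (h : P.Ok) {x : E4} (hx : x ∈ P.UC) : 1 / (3 * P.δ) < hgt P.δ (EC P x) := by
  have h2 := ambc_rOf h hx
  have h3 := Cap.one_le_rOf P.δ (EC P x).1
  have hδ := h.δ0
  have h4 := mul_lt_mul_of_pos_left h2 hδ
  refine one_div_lt_one_div_of_lt (mul_pos hδ (by linarith)) ?_
  linarith

/-- The profile is positive on `UC` (`Cap.hyp_pos_iff`) and invariant under the shift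
(`Cap.hyp_sh`); `Complex.exp_eq_exp_iff_exists_int`. -/
theorem EC_eq_iff (h : P.Ok) {x x' : E4} (hx : x ∈ P.UC) (m : ℤ) :
    EC P x' = Cap.sh (P.K * m) (EC P x) ↔ ∃ b, x' = P.dk m b x := by
  have hδ := h.δ0
  have hϱ := h.ϱ0
  have hδ' : (P.δ : ℂ) ≠ 0 := Complex.ofReal_ne_zero.2 hδ.ne'
  obtain ⟨k, hk⟩ := h.K4
  have hs : ∀ (X : ℂ) (z : ℝ), hyp (P.ϱ / P.δ) X (z + P.K * m) = hyp (P.ϱ / P.δ) X z := by
    intro X z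
    rw [← Cap.hyp_sh (P.ϱ / P.δ) X z (2 * k * m), hk]
    congr 1
    push_cast
    ring
  constructor
  · intro e
    have e1 : cx (x' 0) (x' 1) / P.δ = cx (x 0) (x 1) / P.δ := congrArg Prod.fst e
    have e3 : x' 2 / P.δ = x 2 / P.δ + P.K * m := congrArg (fun q : Amb => q.2.2) e
    have e2 : (√(hyp (P.ϱ / P.δ) (cx (x' 0) (x' 1) / P.δ) (x' 2 / P.δ)) : ℂ) *
        cis (x' 3 / (2 * P.ϱ)) = √(hyp (P.ϱ / P.δ) (cx (x 0) (x 1) / P.δ) (x 2 / P.δ)) *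
        cis (x 3 / (2 * P.ϱ)) := congrArg (fun q : Amb => q.2.1) e
    rw [e1, e3, hs] at e2
    have e4 := mul_left_cancel₀ (Complex.ofReal_ne_zero.2 (Real.sqrt_pos.2 (ambc_pos h hx)).ne') e2
    obtain ⟨b, hb⟩ := Complex.exp_eq_exp_iff_exists_int.1 e4
    have e5 : x' 3 / (2 * P.ϱ) = x 3 / (2 * P.ϱ) + b * (2 * π) := by
      generalize x' 3 / (2 * P.ϱ) = a at hb
      generalize x 3 / (2 * P.ϱ) = c at hb
      have := congrArg Complex.im hb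
      simpa using this
    have e6 := (div_left_inj' hδ').1 e1
    have e7 : x' 0 = x 0 := by rw [← Cap.cx_re (x' 0) (x' 1), e6, Cap.cx_re]
    have e8 : x' 1 = x 1 := by rw [← Cap.cx_im (x' 0) (x' 1), e6, Cap.cx_im]
    refine ⟨b, ext4 e7 e8 ?_ ?_⟩
    · change x' 2 = x 2 + m * (P.K * P.δ)
      rw [div_eq_iff hδ.ne'] at e3
      rw [e3]
      field_simp
    · change x' 3 = x 3 + b * (4 * π * P.ϱ)
      rw [div_eq_iff (by positivity)] at e5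
      rw [e5]
      field_simp
      ring
  · rintro ⟨b, rfl⟩
    have e3 : (x 2 + m * (P.K * P.δ)) / P.δ = x 2 / P.δ + P.K * m := by field_simp
    have e4 : (x 3 + b * (4 * π * P.ϱ)) / (2 * P.ϱ) = x 3 / (2 * P.ϱ) + b * (2 * π) := by
      field_simp
      ring
    have e5 : cis (x 3 / (2 * P.ϱ) + b * (2 * π)) = cis (x 3 / (2 * P.ϱ)) := by
      rw [ambc_cis, ambc_cis, Real.cos_add_int_mul_two_pi, Real.sin_add_int_mul_two_pi]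
    change ((cx (x 0) (x 1) / P.δ, √(hyp (P.ϱ / P.δ) (cx (x 0) (x 1) / P.δ)
        ((x 2 + m * (P.K * P.δ)) / P.δ)) * cis ((x 3 + b * (4 * π * P.ϱ)) / (2 * P.ϱ)),
        (x 2 + m * (P.K * P.δ)) / P.δ) : Amb) =
      (cx (x 0) (x 1) / P.δ, √(hyp (P.ϱ / P.δ) (cx (x 0) (x 1) / P.δ) (x 2 / P.δ)) *
        cis (x 3 / (2 * P.ϱ)), x 2 / P.δ + P.K * m)
    rw [e3, e4, e5, hs]

/-- The profile is one here (`Cap.hyp_one'`, `P1_far`). -/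
theorem EC_P1 (h : P.Ok) {p : E4} (hp : p ∈ P.UO) : EC P (P.P1 p) = EO P p := by
  have hδ := h.δ0
  have hϱ := h.ϱ0
  have hK : (0 : ℝ) < P.K := by exact_mod_cast h.K0
  have hδ' : (P.δ : ℂ) ≠ 0 := Complex.ofReal_ne_zero.2 hδ.ne'
  obtain ⟨e0, e1⟩ := ambc_eps h
  have h1 : hyp (P.ϱ / P.δ) (cx (P.P1 p 0) (P.P1 p 1) / P.δ) (P.P1 p 2 / P.δ) = 1 := by
    refine Cap.hyp_one' e0 _ ?_
    have h2 : (2 * P.δ / 10) ^ 2 < u01 (P.P1 p) := P1_far h hp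
    have h3 : (P.ϱ / P.δ) ^ 2 ≤ (1 / 100) ^ 2 := pow_le_pow_left₀ e0.le e1 2
    have h4 : 1 / 25 ≤ u01 (P.P1 p) / P.δ ^ 2 := by
      rw [le_div_iff₀ (by positivity)]
      nlinarith
    rw [ambc_nsq]
    linarith
  have h2 : √(sOf P.δ (p 3)) = √(4 / 3 * (1 / (P.δ * p 3) - 1)) / P.δ := by
    rw [sOf, Real.sqrt_div' _ (sq_nonneg _), Real.sqrt_sq hδ.le]
  refine Prod.ext ?_ (Prod.ext ?_ ?_)
  · change cx (√(4 / 3 * (1 / (P.δ * p 3) - 1)) * cos (2 * π * p 0 / P.K))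
      (√(4 / 3 * (1 / (P.δ * p 3) - 1)) * sin (2 * π * p 0 / P.K)) / P.δ =
      √(sOf P.δ (p 3)) * cis (2 * π * p 0 / P.K)
    rw [h2, ambc_cis, cx, cx, Complex.ofReal_mul, Complex.ofReal_mul, Complex.ofReal_div]
    ring
  · change (√(hyp (P.ϱ / P.δ) (cx (P.P1 p 0) (P.P1 p 1) / P.δ) (P.P1 p 2 / P.δ)) : ℂ) *
      cis (4 * π * P.ϱ * (p 1 - 2 * P.n * p 0) / P.K / (2 * P.ϱ)) =
      cis (2 * π * (p 1 - 2 * P.n * p 0) / P.K)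
    rw [h1, Real.sqrt_one, Complex.ofReal_one, one_mul]
    congr 1
    field_simp
    ring
  · change P.δ * p 2 / P.δ = p 2
    field_simp

theorem EO_large (h : P.Ok) {p : E4} (hp : p ∈ P.UO) : 1 / 25 < Complex.normSq (EO P p).1 := by
  have h1 := Cap.lt_sOf_top h.δ0 (UO_lt h hp).1 ((mem_UO_iff h).1 hp).2
  rw [EO, Cap.normSq_EOm (by linarith)]
  exact h1

theorem hgt_EO (h : P.Ok) {p : E4} (hp : p ∈ P.UO) : hgt P.δ (EO P p) = p 3 := by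
  exact Cap.hgt_EOm h.δ0 (UO_lt h hp).1 ((mem_UO_iff h).1 hp).2

end Pool.Agent.Lib.MP_94aef8_gt.Hb
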