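import Pool.Agent.Lib.MP_94aef8_gt.H.AmbC

/-!
The bolt regions in the ambient space.
-/

open scoped Manifold ContDiff Topology
open Matrix Set Filter Real

namespace Pool.Agent.Lib.MP_94aef8_gt.Hb

open Cap (Amb YY Yo hyp cis cx EOm EMid EBub capU capE CP rad hgt ytop rOf sOf alV LocD Capped)

variable {P : Par}

theorem sgn_decide (e : ℤˣ) : Cap.sgn (decide (e = 1)) = ((e : ℤ) : ℝ) := by
  rcases Int.units_eq_one_or e with rfl | rfl
  · simp [Cap.sgn]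
  · rw [decide_eq_false (by decide)]
    simp [Cap.sgn]

theorem ambn_cx {a b c d : ℝ} : cx a b = cx c d ↔ a = c ∧ b = d :=
  ⟨fun h => ⟨by simpa only [Cap.cx_re] using congrArg Complex.re h,
    by simpa only [Cap.cx_im] using congrArg Complex.im h⟩, fun h => by rw [h.1, h.2]⟩

theorem ambn_EN (P : Par) (j : ℤ) (e : ℤˣ) (z : E4) : EN P j e z =
    (cx (P.ϱ / P.δ * (1 + u01 z) * (2 / (1 + u23 z) * z 2))
      (P.ϱ / P.δ * (1 + u01 z) * (2 / (1 + u23 z) * z 3)), cx (z 0) (z 1),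
      2 * j + ((e : ℤ) : ℝ) * (P.ϱ / P.δ * (1 + u01 z) * ((1 - u23 z) / (1 + u23 z)))) := by
  simp only [EN, EBub, sgn_decide, u01, u23, cx]
  congr 1
  push_cast
  ring

theorem ambn_A (h : P.Ok) {z : E4} (hz : z ∈ UN) : 0 < P.ϱ / P.δ * (1 + u01 z) ∧
    P.ϱ / P.δ * (1 + u01 z) < 4 * (P.ϱ / P.δ) ∧ P.ϱ / P.δ ≤ 1 / 100 := by
  have h0 := div_pos h.ϱ0 h.δ0
  have h1 : u01 z < 3 := hz
  have h2 : 0 ≤ u01 z := by unfold u01; positivity
  refine ⟨by positivity, by nlinarith, ?_⟩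
  rw [div_le_iff₀ h.δ0]
  linarith [h.ϱ1]

theorem ambn_q (z : E4) : 0 < 1 + u23 z := by unfold u23; positivity

theorem ambn_t (e : ℤˣ) (z : E4) {A : ℝ} (hA : 0 < A) :
    |((e : ℤ) : ℝ) * (A * ((1 - u23 z) / (1 + u23 z)))| ≤ A := by
  have h0 : 0 ≤ u23 z := by unfold u23; positivity
  have h1 : |((e : ℤ) : ℝ)| = 1 := by rcases Int.units_eq_one_or e with rfl | rfl <;> simp
  rw [abs_mul, h1, one_mul, abs_mul, abs_of_pos hA, abs_div, abs_of_pos (ambn_q z)]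
  refine mul_le_of_le_one_right hA.le ((div_le_one (ambn_q z)).2 (abs_le.2 ⟨?_, ?_⟩)) <;> linarith

theorem ambn_neg {e e' : ℤˣ} (h : e ≠ e') : ((e' : ℤ) : ℝ) = -((e : ℤ) : ℝ) := by
  rcases Int.units_eq_one_or e with rfl | rfl <;> rcases Int.units_eq_one_or e' with rfl | rfl <;>
    simp at h ⊢

theorem EN_mem (h : P.Ok) (j : ℤ) (e : ℤˣ) {z : E4} (hz : z ∈ UN) : EN P j e z ∈ YP P :=
  Cap.EBub_mem (P := cpar P) (cpar_ok h) (b := decide (e = 1)) (j := j) hz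

/-- `Cap.rad_EBub`, `Cap.rad_sq`: `|X| ≤ rad < 4 ε ≤ 1 / 25`. -/
theorem EN_small (h : P.Ok) (j : ℤ) (e : ℤˣ) {z : E4} (hz : z ∈ UN) :
    Complex.normSq (EN P j e z).1 < 1 / 25 := by
  obtain ⟨h1, h2, h3⟩ := ambn_A h hz
  have h4 := Cap.rad_sq j (EN P j e z).1 (EN P j e z).2.2
  rw [show rad j (EN P j e z).1 (EN P j e z).2.2 = P.ϱ / P.δ * (1 + u01 z) from
    Cap.rad_EBub (div_pos h.ϱ0 h.δ0) _ j z] at h4
  nlinarith [sq_nonneg ((EN P j e z).2.2 - 2 * j)]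

/-- With `y = usc j x`, `R = R3 y`, `p = (y0, y1) / (R + e y2)`: `1 + |w|² = R`,
`1 + |p|² = 2 R / (R + e y2)`, `1 - |p|² = 2 e y2 / (R + e y2)`; the profile is `R - 1`
(`Cap.hyp_eq`, `Cap.alV_low`, `rad_EC`). -/
theorem EN_P2u (h : P.Ok) {j : ℤ} {e : ℤˣ} {x : E4} (hx : x ∈ P.UC) (h1 : P.Rj j x < 4 * P.ϱ)
    (h2 : 0 < P.Rj j x + ((e : ℤ) : ℝ) * P.zj j x) : EN P j e (P2u e (P.usc j x)) = EC P x := by
  obtain ⟨d1, d2, d3, -⟩ := usc_data h hx h1 h2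
  have hδ := h.δ0.ne'
  have hϱ := h.ϱ0.ne'
  have hε := div_pos h.ϱ0 h.δ0
  have e1 : P.ϱ / P.δ ≤ 1 / 100 := by
    rw [div_le_iff₀ h.δ0]
    linarith [h.ϱ1]
  have e2 : rad j (EC P x).1 (EC P x).2.2 = R3 (P.usc j x) * (P.ϱ / P.δ) := by
    rw [rad_EC h, R3_usc h]
    field_simp
  have e3 : hyp (P.ϱ / P.δ) (cx (x 0) (x 1) / P.δ) (x 2 / P.δ) = R3 (P.usc j x) - 1 := by
    refine (Cap.hyp_eq hε (by linarith) (j := j) (EC P x).1 (z := (EC P x).2.2)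
      ((Cap.abs_le_rad j (EC P x).1 _).trans (by rw [e2]; nlinarith))).trans ?_
    rw [e2, mul_div_cancel_right₀ _ hε.ne', Cap.alV_low (by linarith)]
  have e4 : R3 (P.usc j x) ^ 2 = P.usc j x 0 ^ 2 + P.usc j x 1 ^ 2 + P.usc j x 2 ^ 2 :=
    sq_sqrt (by unfold u01; positivity)
  have e5 := sgn_sq e
  have e6 : u23 (P2u e (P.usc j x)) = (R3 (P.usc j x) - ((e : ℤ) : ℝ) * P.usc j x 2) /
      (R3 (P.usc j x) + ((e : ℤ) : ℝ) * P.usc j x 2) := by
    simp only [u23, P2u, mk4_2, mk4_3]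
    field_simp
    linear_combination -e4 + P.usc j x 2 ^ 2 * e5
  rw [ambn_EN, EC, e3, u01_P2u e d1.le, e6]
  simp only [P2u, mk4_0, mk4_1, mk4_2, mk4_3]
  generalize R3 (P.usc j x) = R at *
  have e7 : R ≠ 0 := by linarith
  have e8 : ∀ a : ℝ, P.ϱ / P.δ * (1 + (R - 1)) * (2 / (1 + (R - ((e : ℤ) : ℝ) * P.usc j x 2) /
      (R + ((e : ℤ) : ℝ) * P.usc j x 2)) * (a / P.ϱ / (R + ((e : ℤ) : ℝ) * P.usc j x 2))) =
      a / P.δ := fun a => by
    rw [one_add_div d3.ne', add_add_sub_cancel]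
    field_simp
    ring
  refine Prod.ext ?_ (Prod.ext ?_ ?_)
  · refine (congrArg₂ cx (e8 (x 0)) (e8 (x 1))).trans ?_
    simp only [cx]
    push_cast
    ring
  · simp only [cx, cis, Par.usc, mk4_3, div_div, mul_comm P.ϱ 2, Complex.exp_mul_I]
    push_cast
    ring
  · rw [one_add_div d3.ne', one_sub_div d3.ne', add_add_sub_cancel, div_div_div_cancel_right₀ d3.ne']
    simp only [Par.usc, mk4_2, Par.zj, Par.l]
    field_simp
    linear_combination 2 * R * (x 2 - j * (2 * P.δ)) * e5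

/-- The second components give `w' = w`. The last components differ from `2 j'` and `2 j + K m` by
less than `4 ε`, so the even integers `2 j'` and `2 j + K m` are equal. Then `(2 p, e (1 - |p|²)) /
(1 + |p|²)` is the same point of the unit sphere for both. -/
theorem EN_eq_iff (h : P.Ok) {j j' : ℤ} {e e' : ℤˣ} {z z' : E4} (hz : z ∈ UN) (hz' : z' ∈ UN) :
    (∃ m : ℤ, EN P j' e' z' = Cap.sh (P.K * m) (EN P j e z)) ↔
      (∃ a : ℤ, 2 * (j' - j) = a * P.K) ∧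
        (e = e' ∧ z' = z ∨ e ≠ e' ∧ u23 z ≠ 0 ∧ z' = P3 z) := by
  obtain ⟨h1, h2, h3⟩ := ambn_A h hz
  have q := (ambn_q z).ne'
  have q' := (ambn_q z').ne'
  have hs : ((e : ℤ) : ℝ) ≠ 0 := by simp
  simp only [ambn_EN, Cap.sh, Prod.mk.injEq, ambn_cx]
  constructor
  · rintro ⟨m, ⟨a2, a3⟩, ⟨a0, a1⟩, a4⟩
    rw [show u01 z' = u01 z by rw [u01, u01, a0, a1]] at a2 a3 a4
    have b1 := abs_le.1 (ambn_t e z h1)
    have b2 := abs_le.1 (ambn_t e' z' h1)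
    have b3 : 2 * (j' - j) = m * P.K := by
      have g1 : ((2 * (j' - j) - m * P.K : ℤ) : ℝ) < (1 : ℤ) := by push_cast; linarith
      have g2 : ((-1 : ℤ) : ℝ) < (2 * (j' - j) - m * P.K : ℤ) := by push_cast; linarith
      rw [Int.cast_lt] at g1 g2
      omega
    have b4 : (2 * (j' - j) : ℝ) = m * P.K := by exact_mod_cast b3
    have b5 : ((e' : ℤ) : ℝ) * ((1 - u23 z') / (1 + u23 z')) =
        ((e : ℤ) : ℝ) * ((1 - u23 z) / (1 + u23 z)) :=
      mul_left_cancel₀ h1.ne' (by linarith)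
    replace a2 := mul_left_cancel₀ h1.ne' a2
    replace a3 := mul_left_cancel₀ h1.ne' a3
    refine ⟨⟨m, b3⟩, ?_⟩
    by_cases he : e = e'
    · subst he
      have c1 := mul_left_cancel₀ hs b5
      rw [div_eq_div_iff q' q] at c1
      rw [show u23 z' = u23 z by linarith] at a2 a3
      have c2 : 2 / (1 + u23 z) ≠ 0 := div_ne_zero two_ne_zero q
      exact Or.inl ⟨rfl, ext4 a0 a1 (mul_left_cancel₀ c2 a2) (mul_left_cancel₀ c2 a3)⟩
    · rw [ambn_neg he, neg_mul, ← mul_neg, ← neg_div] at b5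
      have c1 := mul_left_cancel₀ hs b5
      rw [div_eq_div_iff q' q] at c1
      have c2 : u23 z * u23 z' = 1 := by linarith
      have c3 := left_ne_zero_of_mul_eq_one c2
      have c4 : ∀ a a' : ℝ, 2 / (1 + u23 z') * a' = 2 / (1 + u23 z) * a → a' = a / u23 z :=
        fun a a' g => by
          rw [div_mul_eq_mul_div, div_mul_eq_mul_div, div_eq_div_iff q' q] at g
          rw [eq_div_iff c3]
          refine mul_right_cancel₀ q ?_
          linear_combination u23 z / 2 * g + a * c2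
      exact Or.inr ⟨he, c3, ext4 a0 a1 (c4 _ _ a2) (c4 _ _ a3)⟩
  · rintro ⟨⟨m, b3⟩, hb⟩
    have b4 : (2 * (j' - j) : ℝ) = m * P.K := by exact_mod_cast b3
    rcases hb with ⟨rfl, rfl⟩ | ⟨he, c3, rfl⟩
    · exact ⟨m, ⟨rfl, rfl⟩, ⟨rfl, rfl⟩, by linarith⟩
    have c1 : u23 (P3 z) = 1 / u23 z := by
      rw [u23, P3, mk4_2, mk4_3, div_pow, div_pow, ← add_div, ← u23]
      field_simp
    have c4 : ∀ a : ℝ, 2 / (1 + 1 / u23 z) * (a / u23 z) = 2 / (1 + u23 z) * a := fun a => by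
      rw [one_add_div c3, add_comm (u23 z)]
      field_simp
    have c5 : (1 - 1 / u23 z) / (1 + 1 / u23 z) = -((1 - u23 z) / (1 + u23 z)) := by
      rw [one_add_div c3, one_sub_div c3, div_div_div_cancel_right₀ c3, add_comm (u23 z)]
      ring
    rw [c1, c5, ambn_neg he, show u01 (P3 z) = u01 z from rfl]
    simp only [P3, mk4_0, mk4_1, mk4_2, mk4_3, c4, true_and]
    exact ⟨m, by linarith⟩

/-- Take `j' = j - m K / 2`, `a = - m`; `Rj j' x / δ = rad = ε (1 + |w|²)` and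
`zj j' x / δ = e ε (1 + |w|²) (1 - |p|²) / (1 + |p|²)`. -/
theorem EN_EC (h : P.Ok) {j : ℤ} {e : ℤˣ} {x z : E4} (hz : z ∈ UN) {m : ℤ}
    (he : EN P j e z = Cap.sh (P.K * m) (EC P x)) :
    ∃ j' a : ℤ, 2 * (j' - j) = a * P.K ∧ P.Rj j' x < 4 * P.ϱ ∧
      0 < P.Rj j' x + ((e : ℤ) : ℝ) * P.zj j' x := by
  obtain ⟨h1, h2, -⟩ := ambn_A h hz
  obtain ⟨k, hk⟩ := h.K4
  have hδ := h.δ0
  have e1 : (EC P x).2.2 - 2 * (j - 2 * k * m : ℤ) = (EN P j e z).2.2 - 2 * j := by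
    rw [he, hk]
    simp only [Cap.sh]
    push_cast
    ring
  have e2 : P.Rj (j - 2 * k * m) x = P.ϱ / P.δ * (1 + u01 z) * P.δ := by
    rw [← div_eq_iff hδ.ne', ← rad_EC h, rad, e1, show (EC P x).1 = (EN P j e z).1 by rw [he]; rfl]
    exact Cap.rad_EBub (div_pos h.ϱ0 h.δ0) _ j z
  have e3 : P.zj (j - 2 * k * m) x =
      ((e : ℤ) : ℝ) * (P.ϱ / P.δ * (1 + u01 z) * ((1 - u23 z) / (1 + u23 z))) * P.δ := by
    rw [ambn_EN, add_sub_cancel_left] at e1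
    rw [← e1]
    simp only [EC, Par.zj, Par.l]
    field_simp
  refine ⟨j - 2 * k * m, -m, by rw [hk]; push_cast; ring, ?_, ?_⟩
  · rw [e2, ← lt_div_iff₀ hδ, mul_div_assoc]
    exact h2
  · have e4 : 0 < 1 + (1 - u23 z) / (1 + u23 z) := by
      rw [one_add_div (ambn_q z).ne', add_add_sub_cancel]
      exact div_pos (by norm_num) (ambn_q z)
    rw [e2, e3, ← mul_assoc, ← mul_assoc, sgn_mul_self, one_mul, ← add_mul, ← mul_one_add]
    positivity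

end Pool.Agent.Lib.MP_94aef8_gt.Hb
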