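import Pool.Agent.Lib.MP_94aef8_gt.H.HDefs

/-!
Consequences of the hyperbolic data.
-/

open scoped Manifold ContDiff Topology
open Matrix Set Filter Real

namespace Pool.Agent.Lib.MP_94aef8_gt.Hb

variable {K : ℕ} {A : Arith K}

theorem rl_refl (c : A.C) (p : E4) : rl A c p c p := ⟨id, A.refl c, rfl⟩

theorem rl_up {c c' : A.C} {p p' : E4} (h : rl A c p c' p') (hp : p ∈ UH) : p' ∈ UH := by
  obtain ⟨τ, hτ, rfl⟩ := h
  exact (A.ld hτ).maps hp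

theorem rl_symm {c c' : A.C} {p p' : E4} (h : rl A c p c' p') (hp : p ∈ UH) : rl A c' p' c p := by
  obtain ⟨τ, hτ, rfl⟩ := h
  obtain ⟨τ', hτ', e⟩ := A.inv hτ
  exact ⟨τ', hτ', e p hp⟩

theorem rl_trans {c c' c'' : A.C} {p p' p'' : E4} (h : rl A c p c' p') (h' : rl A c' p' c'' p'') :
    rl A c p c'' p'' := by
  obtain ⟨τ, hτ, rfl⟩ := h
  obtain ⟨τ', hτ', rfl⟩ := h'
  exact ⟨τ' ∘ τ, A.comp hτ hτ', rfl⟩

theorem rl_trl (c : A.C) (v : Fin 3 → ℤ) {p : E4} (hp : p ∈ UH) : rl A c p c (trl K v p) := by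
  obtain ⟨τ, hτ, e⟩ := A.lat c v
  exact ⟨τ, hτ, e p hp⟩

theorem rl_high {c c' : A.C} {p p' : E4} (h : rl A c p c' p') (hp : p ∈ UH)
    (hh : 1 < p 3 * p' 3) : c = c' ∧ ∃ v, p' = trl K v p := by
  obtain ⟨τ, hτ, rfl⟩ := h
  obtain ⟨e, v, hv⟩ := A.high hτ p hp hh
  exact ⟨e, v, hv p hp⟩

theorem rl_height_le {c c' : A.C} {p p' : E4} (h : rl A c p c' p') (hp : p ∈ UH) :
    p' 3 ≤ max (p 3) (1 / p 3) := by
  by_cases hh : 1 < p 3 * p' 3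
  · obtain ⟨-, v, rfl⟩ := rl_high h hp hh
    exact le_max_left _ _
  · refine le_max_of_le_right ?_
    rw [le_div_iff₀ hp, mul_comm]
    exact not_lt.1 hh

theorem ara_key (c c' : A.C) {p p' : E4} (hp : p ∈ UH) (hp' : p' ∈ UH) :
    ∃ V ∈ 𝓝 p, ∃ V' ∈ 𝓝 p', ∀ x ∈ V, ∀ x' ∈ V', ∀ τ ∈ A.Tr c c', τ x = x' → τ p = p' := by
  obtain ⟨S, hS, hpS, hSU⟩ := exists_compact_subset isOpen_UH hp
  obtain ⟨S', hS', hpS', hSU'⟩ := exists_compact_subset isOpen_UH hp'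
  have hT := A.proper c c' S S' hS hS' hSU hSU'
  have h1 : ∀ᶠ z in 𝓝 (p, p'), ∀ τ ∈ {τ | τ ∈ A.Tr c c' ∧ ∃ q ∈ S, τ q ∈ S'},
      τ z.1 = z.2 → τ p = p' := by
    refine (eventually_all_finite hT).2 fun τ hτ => ?_
    by_cases h : τ p = p'
    · exact Eventually.of_forall fun _ _ => h
    · have h2 : ContinuousAt τ p :=
        (A.ld hτ.1).smooth.continuousOn.continuousAt (isOpen_UH.mem_nhds hp)
      have h3 : ContinuousAt (fun z : E4 × E4 => τ z.1 - z.2) (p, p') :=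
        (ContinuousAt.comp (f := Prod.fst) h2 continuousAt_fst).sub continuousAt_snd
      filter_upwards [h3.eventually_ne (sub_ne_zero.2 h)] with z hz e
      exact absurd (sub_eq_zero.2 e) hz
  rw [nhds_prod_eq] at h1
  obtain ⟨V, hV, V', hV', h2⟩ := mem_prod_iff.1 h1
  refine ⟨V ∩ S, inter_mem hV (mem_interior_iff_mem_nhds.1 hpS), V' ∩ S',
    inter_mem hV' (mem_interior_iff_mem_nhds.1 hpS'), fun x hx x' hx' τ hτ e => ?_⟩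
  exact h2 (mk_mem_prod hx.1 hx'.1) τ ⟨hτ, x, hx.2, e ▸ hx'.2⟩ e

/-- Let `S ⊆ UH` be a compact neighbourhood of `p`; finitely many `τ` move a point of `S` into `S`
(`A.proper`). If `τ p = p` then `τ` is the identity on `UH` (`A.free`); otherwise, by continuity,
`τ x ≠ x'` for `(x, x')` near `(p, p)`. -/
theorem rl_loc_inj (c : A.C) {p : E4} (hp : p ∈ UH) :
    ∃ V ∈ 𝓝 p, ∀ x ∈ V, ∀ x' ∈ V, rl A c x c x' → x' = x := by
  obtain ⟨V, hV, V', hV', h⟩ := ara_key c c hp hp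
  refine ⟨V ∩ V' ∩ UH, inter_mem (inter_mem hV hV') (isOpen_UH.mem_nhds hp), ?_⟩
  rintro x hx x' hx' ⟨τ, hτ, e⟩
  rw [← e]
  exact A.free hτ p hp (h x hx.1.1 x' hx'.1.2 τ hτ e) x hx.2

/-- The same argument with two compact neighbourhoods. -/
theorem rl_sep {c c' : A.C} {p p' : E4} (hp : p ∈ UH) (hp' : p' ∈ UH) (h : ¬ rl A c p c' p') :
    ∃ V ∈ 𝓝 p, ∃ V' ∈ 𝓝 p', ∀ x ∈ V, ∀ x' ∈ V', ¬ rl A c x c' x' := by
  obtain ⟨V, hV, V', hV', h1⟩ := ara_key c c' hp hp'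
  refine ⟨V, hV, V', hV', ?_⟩
  rintro x hx x' hx' ⟨τ, hτ, e⟩
  exact h ⟨τ, hτ, h1 x hx x' hx' τ hτ e⟩

/-- Translate by `v i = - ⌊p i / K⌋`. -/
theorem exists_trl_box (h0 : 0 < K) (p : E4) : ∃ v : Fin 3 → ℤ,
    trl K v p 0 ∈ Icc (0 : ℝ) K ∧ trl K v p 1 ∈ Icc (0 : ℝ) K ∧ trl K v p 2 ∈ Icc (0 : ℝ) K := by
  have hK : (0 : ℝ) < K := by exact_mod_cast h0
  have key : ∀ t : ℝ, t + K * ((-⌊t / K⌋ : ℤ) : ℝ) ∈ Icc (0 : ℝ) K := fun t => by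
    have h1 := Int.floor_le (t / K)
    have h2 := Int.lt_floor_add_one (t / K)
    rw [le_div_iff₀ hK] at h1
    rw [div_lt_iff₀ hK] at h2
    push_cast
    constructor <;> linarith
  exact ⟨![-⌊p 0 / K⌋, -⌊p 1 / K⌋, -⌊p 2 / K⌋], key _, key _, key _⟩

/-- `A.red`, `rl_height_le`, `exists_trl_box`. -/
theorem rl_box (h0 : 0 < K) (c : A.C) {p : E4} (hp : p ∈ U0) : ∃ c' p', rl A c p c' p' ∧
    p' 0 ∈ Icc (0 : ℝ) K ∧ p' 1 ∈ Icc (0 : ℝ) K ∧ p' 2 ∈ Icc (0 : ℝ) K ∧ 3 / 8 ≤ p' 3 ∧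
      p' 3 < 3 := by
  have hp0 : p ∈ UH := lt_trans (by norm_num) hp.1
  obtain ⟨c', τ, hτ, h1⟩ := A.red c p hp0
  have h2 : rl A c p c' (τ p) := ⟨τ, hτ, rfl⟩
  obtain ⟨v, h3, h4, h5⟩ := exists_trl_box h0 (τ p)
  refine ⟨c', trl K v (τ p), rl_trans h2 (rl_trl c' v (rl_up h2 hp0)), h3, h4, h5, h1, ?_⟩
  refine (rl_height_le h2 hp0).trans_lt (max_lt hp.2 ?_)
  rw [div_lt_iff₀ hp0]
  linarith [hp.1]

theorem isOpen_U0 : IsOpen U0 := by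
  have h : Continuous fun p : E4 => p 3 := by fun_prop
  exact (isOpen_lt continuous_const h).inter (isOpen_lt h continuous_const)

theorem U0_sub : U0 ⊆ UH := by
  exact fun p hp => lt_trans (by norm_num) hp.1

theorem convex_U0 : Convex ℝ U0 := by
  intro x hx y hy a b ha hb hab
  exact convex_Ioo (𝕜 := ℝ) (1 / 3 : ℝ) 3 hx hy ha hb hab

end Pool.Agent.Lib.MP_94aef8_gt.Hb
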