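import Pool.Agent.Lib.MP_94aef8_gt.H.Cpt

/-!
Capped manifolds are connected.
-/

open scoped Manifold ContDiff Topology
open Matrix Set Filter Real

namespace Pool.Agent.Lib.MP_94aef8_gt.Hb

open Cap (Amb YY Yo hyp cis cx EOm EMid EBub capU capE CP rad hgt ytop rOf sOf alV LocD Capped)

variable {P : Par} {A : Arith P.K} {M : Type} [TopologicalSpace M] [ChartedSpace E4 M]

/-- If `hgt e < 3` take `{e}`. Otherwise write `e = (X, W, z)`, `X = |X| u`, `W = |W| ω` with unit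
complex numbers `u`, `ω`, and take the image of the interval `[|X|, s₁]` under
`s ↦ (s u, √(hyp ε (s u) z) ω, z)`, where `δ (1 + 3/4 δ² s₁²) = 2/5`. The profile is nonnegative
along the path (`Cap.hyp_nonneg_iff`, `Cap.le_rad_of_mem`, `rad` increases) and continuous
(`Cap.continuous_hyp`). -/
theorem yo_path (h : P.Ok) {e : Amb} (he : e ∈ YP P) :
    ∃ T ⊆ YP P, IsPreconnected T ∧ e ∈ T ∧ ∃ e' ∈ T, hgt P.δ e' < 3 := by
  by_cases h3 : hgt P.δ e < 3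
  · exact ⟨{e}, singleton_subset_iff.2 he, isPreconnected_singleton, rfl, e, rfl, h3⟩
  have hδ := h.δ0
  have hδ1 := h.δ1
  have hε : 0 < P.ϱ / P.δ := div_pos h.ϱ0 hδ
  have hε1 : P.ϱ / P.δ ≤ 1 / 10 := by
    rw [div_le_iff₀ hδ]
    linarith [h.ϱ1]
  obtain ⟨X, W, z⟩ := e
  obtain ⟨hY, -⟩ := he
  have hs : 100 < sOf P.δ (5 / 2) := by
    refine Cap.lt_sOf hδ (by linarith) (by norm_num) ?_
    rw [lt_div_iff₀ (by positivity)]
    linarith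
  have hu : ∀ (s t : ℝ), Complex.normSq ((s : ℂ) * cis t) = s ^ 2 := fun s t => by
    rw [map_mul, Cap.normSq_cis, Complex.normSq_ofReal]
    ring
  have hend : P.δ * rOf P.δ ((√(sOf P.δ (5 / 2)) : ℝ) * cis X.arg) = 1 / (5 / 2) :=
    Cap.rOf_sOf hδ (by norm_num) (by rw [hu, Real.sq_sqrt (by linarith)])
  have hX : ((‖X‖ : ℝ) : ℂ) * cis X.arg = X := Complex.norm_mul_exp_arg_mul_I X
  have hW : ((‖W‖ : ℝ) : ℂ) * cis W.arg = W := Complex.norm_mul_exp_arg_mul_I W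
  have hle : ‖X‖ ≤ √(sOf P.δ (5 / 2)) := by
    have h1 : 0 < P.δ * rOf P.δ X := mul_pos hδ (one_pos.trans_le (Cap.one_le_rOf _ _))
    have h2 : 3 ≤ 1 / (P.δ * rOf P.δ X) := not_lt.1 h3
    rw [le_div_iff₀ h1] at h2
    refine Real.le_sqrt_of_sq_le ?_
    rw [rOf, hu, Real.sq_sqrt (by linarith)] at hend
    rw [rOf, Complex.normSq_eq_norm_sq] at h2
    by_contra hlt
    have h4 : P.δ * (3 / 4 * P.δ ^ 2) * sOf P.δ (5 / 2) ≤ P.δ * (3 / 4 * P.δ ^ 2) * ‖X‖ ^ 2 :=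
      mul_le_mul_of_nonneg_left (not_le.1 hlt).le (by positivity)
    nlinarith
  let γ : ℝ → Amb := fun s => ((s : ℂ) * cis X.arg,
    (√(hyp (P.ϱ / P.δ) ((s : ℂ) * cis X.arg) z) : ℝ) * cis W.arg, z)
  have hγ : Continuous γ := by
    have h1 : Continuous fun s : ℝ => (s : ℂ) * cis X.arg :=
      Complex.continuous_ofReal.mul continuous_const
    have h2 : Continuous fun s : ℝ => hyp (P.ϱ / P.δ) ((s : ℂ) * cis X.arg) z :=
      (Cap.continuous_hyp hε hε1).comp (h1.prodMk continuous_const)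
    exact h1.prodMk (((Complex.continuous_ofReal.comp h2.sqrt).mul continuous_const).prodMk
      continuous_const)
  refine ⟨γ '' Icc ‖X‖ √(sOf P.δ (5 / 2)), ?_, isPreconnected_Icc.image _ hγ.continuousOn,
    ⟨‖X‖, ⟨le_rfl, hle⟩, ?_⟩, γ _, ⟨_, ⟨hle, le_rfl⟩, rfl⟩, ?_⟩
  · rintro _ ⟨s, ⟨h1, h2⟩, rfl⟩
    have h0 : 0 ≤ s := (norm_nonneg X).trans h1
    refine ⟨?_, ?_⟩
    · have h4 : 0 ≤ hyp (P.ϱ / P.δ) ((s : ℂ) * cis X.arg) z := by
        refine (Cap.hyp_nonneg_iff hε).2 fun j => (Cap.le_rad_of_mem hε hY j).trans ?_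
        refine Real.sqrt_le_sqrt ?_
        have h5 : ‖X‖ ^ 2 ≤ s ^ 2 := pow_le_pow_left₀ (norm_nonneg X) h1 2
        rw [hu, Complex.normSq_eq_norm_sq]
        exact add_le_add_left h5 _
      change Complex.normSq ((√(hyp (P.ϱ / P.δ) ((s : ℂ) * cis X.arg) z) : ℝ) * cis W.arg) =
        hyp (P.ϱ / P.δ) ((s : ℂ) * cis X.arg) z
      rw [hu, Real.sq_sqrt h4]
    · change P.δ * rOf P.δ ((s : ℂ) * cis X.arg) < 1 / 2
      have h5 : s ^ 2 ≤ √(sOf P.δ (5 / 2)) ^ 2 := pow_le_pow_left₀ h0 h2 2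
      rw [rOf, hu] at hend ⊢
      have h4 : P.δ * (3 / 4 * P.δ ^ 2) * s ^ 2 ≤
          P.δ * (3 / 4 * P.δ ^ 2) * √(sOf P.δ (5 / 2)) ^ 2 :=
        mul_le_mul_of_nonneg_left h5 (by positivity)
      nlinarith
  · have h1 : Complex.normSq W = hyp (P.ϱ / P.δ) X z := hY
    simp only [γ]
    rw [hX, ← h1, Complex.normSq_eq_norm_sq, Real.sqrt_sq (norm_nonneg W), hW]
  · change 1 / (P.δ * rOf P.δ ((√(sOf P.δ (5 / 2)) : ℝ) * cis X.arg)) < 3
    rw [hend]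
    norm_num

/-- `IsPreconnected.iUnion_of_reflTransGen`, `A.conn`, `convex_U0`. -/
theorem core_preconnected (D : Cp P A M) : IsPreconnected (⋃ c, D.slab c '' U0) := by
  refine IsPreconnected.iUnion_of_reflTransGen
    (fun c => convex_U0.isPreconnected.image _ (slab_contOn D c)) fun c c' => ?_
  refine Relation.ReflTransGen.mono ?_ _ _ (A.conn c c')
  rintro a b ⟨τ, hτ, p, h1, h2, h3, h4⟩
  exact ⟨D.slab a p, ⟨p, ⟨h1, h2⟩, rfl⟩, τ p, ⟨h3, h4⟩,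
    ((D.slab_slab a b p ⟨h1, h2⟩ (τ p) ⟨h3, h4⟩).2 ⟨τ, hτ, rfl⟩).symm⟩

/-- Every point lies in a preconnected set that meets the core. -/
theorem cp_connected (h : P.Ok) (D : Cp P A M) : ConnectedSpace M := by
  obtain ⟨c₀⟩ := A.ne
  have hp₀ : mk4 0 0 0 1 ∈ U0 :=
    ⟨by rw [mk4_3]; norm_num, by rw [mk4_3]; norm_num⟩
  have hm₀ : D.slab c₀ (mk4 0 0 0 1) ∈ ⋃ c, D.slab c '' U0 := mem_iUnion.2 ⟨c₀, _, hp₀, rfl⟩
  rw [connectedSpace_iff_univ]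
  refine ⟨⟨D.slab c₀ (mk4 0 0 0 1), mem_univ _⟩,
    isPreconnected_of_forall (D.slab c₀ (mk4 0 0 0 1)) fun m _ => ?_⟩
  rcases D.onto m with ⟨c, p, hp, rfl⟩ | ⟨c, e, he, rfl⟩
  · exact ⟨_, subset_univ _, hm₀, mem_iUnion.2 ⟨c, p, hp, rfl⟩, core_preconnected D⟩
  · obtain ⟨T, hT, h1, h2, e', h3, h4⟩ := yo_path h he
    obtain ⟨p, h5, h6, h7⟩ := exists_EO h (hT h3)
      (by linarith [Cap.three_lt_ytop h.δ0 (h.δ1.trans (by norm_num))])
    have h8 : p 3 < 3 := h6 ▸ h4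
    refine ⟨(⋃ c, D.slab c '' U0) ∪ D.cap c '' T, subset_univ _, Or.inl hm₀, Or.inr ⟨e, h2, rfl⟩,
      (core_preconnected D).union (D.slab c p) (mem_iUnion.2 ⟨c, p, ⟨by linarith, h8⟩, rfl⟩)
        ⟨e', h3, ?_⟩ (h1.image _ ((cap_contOn h D c).mono hT))⟩
    rw [cp_slab_cap h D c h5 h8, h7]

end Pool.Agent.Lib.MP_94aef8_gt.Hb
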