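import Pool.Agent.Lib.MP_94aef8_gt.H.Sep

/-!
Capped manifolds are compact.
-/

open scoped Manifold ContDiff Topology
open Matrix Set Filter Real

namespace Pool.Agent.Lib.MP_94aef8_gt.Hb

open Cap (Amb YY Yo hyp cis cx EOm EMid EBub capU capE CP rad hgt ytop rOf sOf alV LocD Capped)

variable {P : Par} {A : Arith P.K} {M : Type} [TopologicalSpace M] [ChartedSpace E4 M]

theorem slab_contOn (D : Cp P A M) (c : A.C) : ContinuousOn (D.slab c) U0 := fun p hp =>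
  (D.slab_loc c p hp).1.continuousAt.continuousWithinAt

/-- At `e = capE a y` take `ψ` from `Cap.capE_inv`; on `YY` near `e`,
`cap c = (cap c ∘ capE a) ∘ ψ`, and `ψ e = y`. -/
theorem cap_contOn (h : P.Ok) (D : Cp P A M) (c : A.C) : ContinuousOn (D.cap c) (YP P) := by
  intro e he
  obtain ⟨a, y, hy, rfl⟩ := Cap.capE_cover (cpar_ok h) he
  obtain ⟨ψ, h1, h2, h3⟩ := Cap.capE_inv (cpar_ok h) hy
  have c1 : ContinuousAt (fun z => D.cap c (capE (cpar P) a z)) y :=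
    (D.cap_loc c a y hy).1.continuousAt
  have c2 := (c1.comp_of_eq h1.continuousAt h2.self_of_nhds).continuousWithinAt (s := YP P)
  refine c2.congr_of_eventuallyEq ?_ ?_
  · filter_upwards [self_mem_nhdsWithin, mem_nhdsWithin_of_mem_nhds h3] with e he1 he2
    simp only [Function.comp_apply, he2 he1.1]
  · simp only [Function.comp_apply, h2.self_of_nhds]

/-- Closed (`Cap.isClosed_YY`, `Cap.contDiff_hgt`) and bounded (`Cap.hyp_le`; `5/2 ≤ hgt` bounds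
`normSq e.1`). -/
theorem isCompact_Yc (h : P.Ok) :
    IsCompact {e : Amb | e ∈ YY (P.ϱ / P.δ) ∧ 5 / 2 ≤ hgt P.δ e ∧ e.2.2 ∈ Icc (0 : ℝ) P.K} := by
  have h0 := h.δ0
  obtain ⟨-, -, -, e0, e1⟩ := cpar_ok h
  refine ((isCompact_closedBall (0 : ℂ) (1 + 1 / P.δ ^ 3)).prod
    ((isCompact_closedBall (0 : ℂ) 5).prod
      (isCompact_Icc (a := (0 : ℝ)) (b := P.K)))).of_isClosed_subset ?_ ?_
  · exact (Cap.isClosed_YY e0 (le_trans e1 (by norm_num))).inter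
      ((isClosed_le continuous_const (Cap.contDiff_hgt h0).continuous).inter
        (isClosed_Icc.preimage (by fun_prop)))
  · rintro e ⟨h1, h2, h3⟩
    refine ⟨mem_closedBall_zero_iff.2 ?_, mem_closedBall_zero_iff.2 ?_, h3⟩
    · have h4 := Cap.one_le_rOf P.δ e.1
      rw [hgt, le_div_iff₀ (by positivity), rOf, Complex.normSq_eq_norm_sq] at h2
      have h5 : ‖e.1‖ ^ 2 ≤ 1 / P.δ ^ 3 := by
        rw [le_div_iff₀ (by positivity)]
        have : 0 ≤ ‖e.1‖ ^ 2 * P.δ ^ 3 := by positivity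
        nlinarith
      nlinarith [norm_nonneg e.1, sq_nonneg (‖e.1‖ - 1)]
    · have h4 := Cap.hyp_le (P.ϱ / P.δ) e.1 e.2.2
      have h5 : Complex.normSq e.2.1 = hyp (P.ϱ / P.δ) e.1 e.2.2 := h1
      rw [← h5, Complex.normSq_eq_norm_sq] at h4
      nlinarith [norm_nonneg e.2.1, sq_nonneg (‖e.2.1‖ - 1)]

theorem isCompact_box (a b c d : ℝ) :
    IsCompact {p : E4 | p 0 ∈ Icc a b ∧ p 1 ∈ Icc a b ∧ p 2 ∈ Icc a b ∧ p 3 ∈ Icc c d} := by
  have := (PiLp.homeomorph 2 fun _ : Fin 4 => ℝ).isCompact_preimage.2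
    (isCompact_univ_pi (s := ![Icc a b, Icc a b, Icc a b, Icc c d]) fun i => by
      fin_cases i <;> exact isCompact_Icc)
  refine (congrArg IsCompact ?_).mp this
  ext p
  simp only [mem_preimage, mem_univ_pi, Fin.forall_fin_succ]
  simp
  rfl

/-- The space is the finite union of the images of the box `[0,K]³ × [3/8, 5/2]` and of the set of
`isCompact_Yc`. A slab point is moved by `rl_box`; if the new height exceeds `5/2` use
`cp_slab_cap`. A cap point of height at least `5/2` is shifted; one of height below `5/2` is a slab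
point (`exists_EO`, `exists_trl_box`). -/
theorem cp_compact (h : P.Ok) (D : Cp P A M) : CompactSpace M := by
  have := A.fin
  have hK : (0 : ℝ) < P.K := by exact_mod_cast h.K0
  have ht := top_big h
  have hY : {e : Amb | e ∈ YY (P.ϱ / P.δ) ∧ 5 / 2 ≤ hgt P.δ e ∧ e.2.2 ∈ Icc (0 : ℝ) P.K} ⊆ YP P :=
    fun e he => ⟨he.1, (Cap.two_lt_hgt_iff h.δ0 e).1 (by linarith [he.2.1])⟩
  have hB : {p : E4 | p 0 ∈ Icc (0 : ℝ) P.K ∧ p 1 ∈ Icc (0 : ℝ) P.K ∧ p 2 ∈ Icc (0 : ℝ) P.K ∧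
      p 3 ∈ Icc (3 / 8 : ℝ) (5 / 2)} ⊆ U0 :=
    fun p hp => ⟨by linarith [hp.2.2.2.1], by linarith [hp.2.2.2.2]⟩
  have hc := isCompact_iUnion fun c : A.C =>
    ((isCompact_box 0 P.K (3 / 8) (5 / 2)).image_of_continuousOn ((slab_contOn D c).mono hB)).union
      ((isCompact_Yc h).image_of_continuousOn ((cap_contOn h D c).mono hY))
  refine isCompact_univ_iff.1 ((congrArg IsCompact (eq_univ_of_forall ?_)).mp hc)
  have h1 : ∀ c, ∀ p ∈ U0, ∃ c' : A.C, D.slab c p ∈ D.slab c' '' {p : E4 | p 0 ∈ Icc (0 : ℝ) P.K ∧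
      p 1 ∈ Icc (0 : ℝ) P.K ∧ p 2 ∈ Icc (0 : ℝ) P.K ∧ p 3 ∈ Icc (3 / 8 : ℝ) (5 / 2)} ∪ D.cap c' ''
      {e : Amb | e ∈ YY (P.ϱ / P.δ) ∧ 5 / 2 ≤ hgt P.δ e ∧ e.2.2 ∈ Icc (0 : ℝ) P.K} := by
    intro c p hp
    obtain ⟨c', p', hr, b0, b1, b2, b3, b4⟩ := rl_box (A := A) h.K0 c hp
    rw [(D.slab_slab c c' p hp p' ⟨by linarith, b4⟩).2 hr]
    refine ⟨c', ?_⟩
    rcases le_or_gt (p' 3) (5 / 2) with h5 | h5
    · exact Or.inl ⟨p', ⟨b0, b1, b2, b3, h5⟩, rfl⟩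
    · refine Or.inr ⟨EO P p', ⟨(EO_mem h (by linarith) (by linarith)).1, ?_, b2⟩,
        (cp_slab_cap h D c' (by linarith) b4).symm⟩
      rw [EO, Cap.hgt_EOm h.δ0 (by linarith) (by linarith)]
      exact h5.le
  intro m
  rw [mem_iUnion]
  rcases D.onto m with ⟨c, p, hp, rfl⟩ | ⟨c, e, he, rfl⟩
  · exact h1 c p hp
  rcases le_or_gt (5 / 2) (hgt P.δ e) with h5 | h5
  · have he' := sh_mem_YP h he (-⌊e.2.2 / P.K⌋)
    refine ⟨c, Or.inr ⟨_, ⟨he'.1, h5, ?_⟩, ((D.cap_cap c c e he _ he').2 ⟨rfl, _, rfl⟩).symm⟩⟩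
    have f1 := Int.floor_le (e.2.2 / P.K)
    have f2 := Int.lt_floor_add_one (e.2.2 / P.K)
    rw [le_div_iff₀ hK] at f1
    rw [div_lt_iff₀ hK] at f2
    simp only [Cap.sh, mem_Icc]
    push_cast
    constructor <;> linarith
  · obtain ⟨p, p1, p2, rfl⟩ := exists_EO h he (by linarith)
    rw [← cp_slab_cap h D c p1 (by linarith)]
    exact h1 c p ⟨by linarith, by linarith⟩

end Pool.Agent.Lib.MP_94aef8_gt.Hb
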