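import Pool.Agent.Lib.MP_94aef8_gt.H.Glue1
import Pool.Agent.Lib.MP_94aef8_gt.CapDefs

/-!
Gluing open sets of Euclidean space along labels: the manifold.
-/

open scoped Manifold ContDiff Topology
open Matrix Set Filter

namespace Pool.Agent.Lib.MP_94aef8_gt.Hb

namespace Glue

variable {ι Lab : Type} (G : Glue ι Lab)

theorem exists_chartAt (m : G.M) : ∃ e : OpenPartialHomeomorph E4 G.M,
    m ∈ e.target ∧ ∃ i, (e : E4 → G.M) = G.pi i ∧ e.source ⊆ G.U i := by
  obtain ⟨i, z, hz, rfl⟩ := G.cover m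
  obtain ⟨e, h1, h2, h3⟩ := G.exists_chart hz
  exact ⟨e, h1 ▸ e.map_source h2, i, h1, h3⟩

/-- The chosen parametrisation round a point. -/
noncomputable def ch (m : G.M) : OpenPartialHomeomorph E4 G.M := (G.exists_chartAt m).choose

noncomputable instance : ChartedSpace E4 G.M where
  atlas := range fun m => (G.ch m).symm
  chartAt m := (G.ch m).symm
  mem_chart_source m := (G.exists_chartAt m).choose_spec.1
  chart_mem_atlas m := ⟨m, rfl⟩

theorem chartAt_eq (m : G.M) : chartAt E4 m = (G.ch m).symm := rfl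

/-- `isManifold_of_contDiffOn` and `trans_smooth` (compare `ParData.exists_surface` in
`outputs/live/Pool/Agent/Lib/MP_5499e8_gt/Atlas`). -/
theorem isManifold : IsManifold (𝓡 4) ∞ G.M := by
  apply isManifold_of_contDiffOn
  rintro _ _ ⟨x, rfl⟩ ⟨x', rfl⟩ q hq
  obtain ⟨-, i, h1, h2⟩ := (G.exists_chartAt x).choose_spec
  obtain ⟨-, j, h3, h4⟩ := (G.exists_chartAt x').choose_spec
  simp only [mfld_simps] at hq ⊢
  exact (G.trans_smooth (G.ch x) (G.ch x') h1 h3 h2 h4 hq.1 hq.2).contDiffWithinAt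

instance : IsManifold (𝓡 4) ∞ G.M := G.isManifold

/-- Let `e` be given by `exists_chart`. In the chart at `pi i z`, `pi i` is
`(ch _).symm ∘ e` (`contMDiffAt_iff`, `trans_smooth`); the section is `e.symm`, which in the chart
reads `e.symm ∘ ch _`. -/
theorem locD {i : ι} {z : E4} (hz : z ∈ G.U i) : Cap.LocD (G.pi i) z := by
  obtain ⟨e, he, hz', hU⟩ := G.exists_chart hz
  obtain ⟨h0, j, h1, h2⟩ := (G.exists_chartAt (e z)).choose_spec
  have h3 := e.map_source hz'
  rw [← he]
  refine ⟨contMDiffAt_iff.2 ⟨e.continuousAt hz', ?_⟩, e.symm,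
    contMDiffAt_iff.2 ⟨e.continuousAt_symm h3, ?_⟩, e.left_inv hz', e.eventually_right_inverse h3⟩
  · simp only [mfld_simps, contDiffWithinAt_univ]
    exact G.trans_smooth e (G.ch (e z)) he h1 hU h2 hz' h0
  · simp only [mfld_simps, contDiffWithinAt_univ]
    exact G.trans_smooth (G.ch (e z)) e h1 he h2 hU ((G.ch _).map_target h0)
      (((G.ch _).right_inv h0).symm ▸ h3)

end Glue

end Pool.Agent.Lib.MP_94aef8_gt.Hb
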