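import Pool.Agent.Lib.MP_94aef8_gt.H.RelA
import Pool.Agent.Lib.MP_94aef8_gt.H.Glue2

/-!
The glued manifold is a capped manifold.
-/

open scoped Manifold ContDiff Topology
open Matrix Set Filter Real

namespace Pool.Agent.Lib.MP_94aef8_gt.Hb

open Cap (Amb YY Yo hyp cis cx EOm EMid EBub capU capE CP rad hgt ytop rOf sOf alV LocD Capped)

variable {P : Par} {A : Arith P.K}

theorem gl_K (h : P.Ok) (m : ℤ) : ∃ m' : ℤ, (P.K : ℝ) * m = 2 * m' := by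
  obtain ⟨k, hk⟩ := h.K4
  refine ⟨2 * k * m, ?_⟩
  rw [hk]
  push_cast
  ring

theorem gl_zero (e : Amb) : Cap.sh (2 * (0 : ℤ)) e = e := by
  rw [Int.cast_zero, mul_zero, Cap.sh_zero]

theorem gl_nhds {x : E4} (h1 : 2 < x 3) (h2 : x 3 < 3) : ∀ᶠ y : E4 in 𝓝 x, 2 < y 3 ∧ y 3 < 3 :=
  have h : ContinuousAt (fun y : E4 => y 3) x := by fun_prop
  (h.eventually (lt_mem_nhds h1)).and (h.eventually (gt_mem_nhds h2))

theorem gl_sm {c c' : A.C} {τ : E4 → E4} (hτ : τ ∈ A.Tr c c') {z : E4} (hz : z ∈ U0) :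
    ContDiffAt ℝ ∞ τ z := (A.ld hτ).smooth.contDiffAt ((A.ld hτ).isOpen.mem_nhds (U0_sub hz))

theorem isOpen_pU (h : P.Ok) (i : A.C × Option CP) : IsOpen (pU P i) := by
  rcases i with ⟨c, _ | a⟩
  exacts [isOpen_U0, Cap.isOpen_capU (cpar_ok h) a]

theorem val_adr (h : P.Ok) {i : A.C × Option CP} {z : E4} (hz : z ∈ pU P i) :
    Val P (adr P i z) := by
  rcases i with ⟨c, _ | a⟩
  exacts [hz, Cap.capE_mem (cpar_ok h) hz]

/-- `rl_loc_inj`, `Cap.cap_inj` (with `K m = 2 (k m)`); intersect with the domain. -/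
theorem adr_inj (h : P.Ok) (i : A.C × Option CP) {z : E4} (hz : z ∈ pU P i) :
    ∃ V ∈ 𝓝 z, InjOn (fun x => cls P A (adr P i x)) V := by
  have key : ∀ V ∈ 𝓝 z, (∀ x ∈ V, ∀ x' ∈ V, RA P A (adr P i x) (adr P i x') → x' = x) →
      ∃ V ∈ 𝓝 z, InjOn (fun x => cls P A (adr P i x)) V := fun V hV h1 =>
    ⟨V ∩ pU P i, inter_mem hV ((isOpen_pU h i).mem_nhds hz), fun x hx x' hx' e =>
      (h1 x hx.1 x' hx'.1 ((cls_eq_iff h (val_adr h hx.2) (val_adr h hx'.2)).1 e)).symm⟩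
  rcases i with ⟨c, _ | a⟩
  · obtain ⟨V, hV, h1⟩ := rl_loc_inj c (U0_sub hz)
    exact key V hV h1
  · obtain ⟨V, hV, h1⟩ := Cap.cap_inj (cpar_ok h) hz
    refine key V hV fun x hx x' hx' ⟨_, m, e⟩ => ?_
    obtain ⟨m', hm⟩ := gl_K h m
    exact h1 x hx x' hx' m' (hm ▸ e)

/-- Slab to slab: `τ`. Slab to cap patch `a`: `φ' ∘ τ` with `φ'` from `Cap.cap_trans` for the
patches `om`, `a` and `m = 0` (`Cap.sh_zero`). Cap patch to slab: `τ' ∘ φ'` with `τ'` the inverse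
(`A.inv`; near the point `φ' x` has height in `(2, 3)`, `τ' (φ' x) ∈ U0`, and `rl_symm` gives the
relation). Cap to cap: `Cap.cap_trans`. -/
theorem adr_trans (h : P.Ok) (i j : A.C × Option CP) {z z' : E4} (hz : z ∈ pU P i)
    (hz' : z' ∈ pU P j) (e : RA P A (adr P i z) (adr P j z')) :
    ∃ φ : E4 → E4, ContDiffAt ℝ ∞ φ z ∧ φ z = z' ∧
      ∀ᶠ x in 𝓝 z, φ x ∈ pU P j ∧ RA P A (adr P i x) (adr P j (φ x)) := by
  have h9 := top_big h
  rcases i with ⟨c, _ | a⟩ <;> rcases j with ⟨c', _ | a'⟩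
  · obtain ⟨τ, hτ, rfl⟩ : rl A c z c' z' := e
    exact ⟨τ, gl_sm hτ hz, rfl, ((gl_sm hτ hz).continuousAt.eventually
      (isOpen_U0.mem_nhds hz')).mono fun x hx => ⟨hx, τ, hτ, rfl⟩⟩
  · obtain ⟨_, h1, h2, ⟨τ, hτ, rfl⟩, e⟩ : att P A c z c' (capE (cpar P) a' z') := e
    obtain ⟨φ, h3, h4, h5⟩ := Cap.cap_trans (cpar_ok h) (a := .om) (y := τ z)
      ⟨h1, h2.trans (lt_trans (by norm_num) h9)⟩ hz' (e.trans (gl_zero _).symm)
    refine ⟨φ ∘ τ, h3.comp z (gl_sm hτ hz), h4,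
      ((gl_sm hτ hz).continuousAt.eventually (h5.and (gl_nhds h1 h2))).mono fun x hx => ?_⟩
    exact ⟨hx.1.1, τ x, hx.2.1, hx.2.2, ⟨τ, hτ, rfl⟩, hx.1.2.trans (gl_zero _)⟩
  · obtain ⟨_, h1, h2, ⟨τ, hτ, rfl⟩, e⟩ : att P A c' z' c (capE (cpar P) a z) := e
    obtain ⟨τ', hτ', h0⟩ := A.inv hτ
    obtain ⟨φ, h3, h4, h5⟩ := Cap.cap_trans (cpar_ok h) (a' := .om) (y' := τ z') hz
      ⟨h1, h2.trans (lt_trans (by norm_num) h9)⟩ (e.symm.trans (gl_zero _).symm)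
    have h6 : ContDiffAt ℝ ∞ (τ' ∘ φ) z :=
      (gl_sm hτ' (h4 ▸ ⟨lt_trans (by norm_num) h1, h2⟩)).comp z h3
    have h7 : (τ' ∘ φ) z = z' := (congrArg τ' h4).trans (h0 _ (U0_sub hz'))
    refine ⟨τ' ∘ φ, h6, h7, ?_⟩
    filter_upwards [h5, h6.continuousAt.eventually (isOpen_U0.mem_nhds (h7 ▸ hz')),
      h3.continuousAt.eventually (gl_nhds (h4 ▸ h1) (h4 ▸ h2))] with x h8 h10 h11
    exact ⟨h10, φ x, h11.1, h11.2, rl_symm ⟨τ', hτ', rfl⟩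
      (U0_sub ⟨lt_trans (by norm_num) h11.1, h11.2⟩), (h8.2.trans (gl_zero _)).symm⟩
  · obtain ⟨hc, m, e⟩ := e
    obtain ⟨m', hm⟩ := gl_K h m
    obtain ⟨φ, h3, h4, h5⟩ := Cap.cap_trans (cpar_ok h) hz hz' (m := m') (hm ▸ e)
    exact ⟨φ, h3, h4, h5.mono fun x hx => ⟨hx.1, hc, m, hm ▸ hx.2⟩⟩

/-- The gluing data. -/
noncomputable def glue (h : P.Ok) (A : Arith P.K) : Glue (A.C × Option CP) (Set (Ad A.C)) where
  U := pU P
  lab i z := cls P A (adr P i z)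
  op := isOpen_pU h
  ne := ⟨(A.ne.some, none), mk4 0 0 0 1, by norm_num [pU, U0]⟩
  inj i _ hz := adr_inj h i hz
  trans i j z hz z' hz' e := by
    obtain ⟨φ, h1, h2, h3⟩ :=
      adr_trans h i j hz hz' ((cls_eq_iff h (val_adr h hz) (val_adr h hz')).1 e)
    refine ⟨φ, h1, h2, ?_⟩
    filter_upwards [h3, (isOpen_pU h i).mem_nhds hz] with x hx hx'
    exact ((cls_eq_iff h (val_adr h hx') (val_adr h hx.1)).2 hx.2).symm

/-- `slab c p = toM (cls (inl (c, p)))`, `cap c e = toM (cls (inr (c, e)))`; every valid address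
occurs (`Cap.capE_cover`); `toM_eq_iff`, `cls_eq_iff`, `Glue.cover`, `Glue.locD`. -/
theorem exists_cp (h : P.Ok) (A : Arith P.K) : Nonempty (Cp P A (glue h A).M) := by
  have h1 : ∀ a : Ad A.C, Val P a →
      ∃ i, ∃ z ∈ (glue h A).U i, (glue h A).lab i z = cls P A a := by
    rintro (⟨c, p⟩ | ⟨c, e⟩) ha
    · exact ⟨(c, none), p, ha, rfl⟩
    · obtain ⟨a, y, hy, rfl⟩ := Cap.capE_cover (cpar_ok h) ha
      exact ⟨(c, some a), y, hy, rfl⟩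
  have h2 : ∀ a b : Ad A.C, Val P a → Val P b →
      ((glue h A).toM (cls P A a) = (glue h A).toM (cls P A b) ↔ RA P A a b) := fun a b ha hb =>
    ((glue h A).toM_eq_iff (h1 a ha) (h1 b hb)).trans (cls_eq_iff h ha hb)
  refine ⟨⟨fun c p => (glue h A).toM (cls P A (.inl (c, p))),
    fun c e => (glue h A).toM (cls P A (.inr (c, e))), fun m => ?_,
    fun c c' p hp p' hp' => h2 (.inl (c, p)) (.inl (c', p')) hp hp',
    fun c c' e he e' he' => h2 (.inr (c, e)) (.inr (c', e')) he he',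
    fun c c' p hp e he => h2 (.inl (c, p)) (.inr (c', e)) hp he,
    fun c p hp => (glue h A).locD (i := (c, none)) hp,
    fun c a y hy => (glue h A).locD (i := (c, some a)) hy⟩⟩
  obtain ⟨⟨c, _ | a⟩, z, hz, rfl⟩ := (glue h A).cover m
  · exact .inl ⟨c, z, hz, rfl⟩
  · exact .inr ⟨c, _, Cap.capE_mem (cpar_ok h) hz, rfl⟩

end Pool.Agent.Lib.MP_94aef8_gt.Hb
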