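import Pool.Agent.Lib.MP_94aef8_gt.G.Bas

/-!
Gluing open sets of Euclidean space along labels: the topology.
-/

open scoped Manifold ContDiff Topology
open Matrix Set Filter

namespace Pool.Agent.Lib.MP_94aef8_gt.Hb

/-- Gluing data: open sets of `E4` whose points carry labels; points with the same label are
identified. -/
structure Glue (ι Lab : Type) where
  /-- The domains. -/
  U : ι → Set E4
  /-- The labels. -/
  lab : ι → E4 → Lab
  op : ∀ i, IsOpen (U i)
  ne : ∃ i, (U i).Nonempty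
  inj : ∀ i, ∀ z ∈ U i, ∃ V ∈ 𝓝 z, InjOn (lab i) V
  trans : ∀ i j, ∀ z ∈ U i, ∀ z' ∈ U j, lab i z = lab j z' →
    ∃ φ : E4 → E4, ContDiffAt ℝ ∞ φ z ∧ φ z = z' ∧ ∀ᶠ x in 𝓝 z, lab j (φ x) = lab i x

namespace Glue

variable {ι Lab : Type} (G : Glue ι Lab)

/-- The glued space: the labels that occur. -/
def M : Type := {l : Lab // ∃ i, ∃ z ∈ G.U i, G.lab i z = l}

instance : Nonempty G.M := by
  obtain ⟨i, z, hz⟩ := G.ne
  exact ⟨⟨G.lab i z, i, z, hz, rfl⟩⟩

open Classical in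
/-- The point with a given label. -/
noncomputable def toM (l : Lab) : G.M :=
  if h : ∃ i, ∃ z ∈ G.U i, G.lab i z = l then ⟨l, h⟩ else Classical.arbitrary _

/-- The patches. -/
noncomputable def pi (i : ι) (z : E4) : G.M := G.toM (G.lab i z)

instance : TopologicalSpace G.M where
  IsOpen W := ∀ i, IsOpen (G.U i ∩ G.pi i ⁻¹' W)
  isOpen_univ i := by simpa using G.op i
  isOpen_inter s t hs ht i := by
    have := (hs i).inter (ht i)
    rwa [inter_inter_inter_comm, inter_self, ← preimage_inter] at this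
  isOpen_sUnion S hS i := by
    rw [preimage_sUnion, inter_iUnion₂]
    exact isOpen_biUnion fun t ht => hS t ht i

theorem isOpen_iff {W : Set G.M} : IsOpen W ↔ ∀ i, IsOpen (G.U i ∩ G.pi i ⁻¹' W) := Iff.rfl

theorem toM_val {l : Lab} (h : ∃ i, ∃ z ∈ G.U i, G.lab i z = l) : (G.toM l).1 = l := by
  rw [toM, dif_pos h]

theorem toM_eq_iff {l l' : Lab} (h : ∃ i, ∃ z ∈ G.U i, G.lab i z = l)
    (h' : ∃ i, ∃ z ∈ G.U i, G.lab i z = l') : G.toM l = G.toM l' ↔ l = l' :=
  ⟨fun e => by rw [← G.toM_val h, e, G.toM_val h'], fun e => by rw [e]⟩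

theorem pi_eq_iff {i j : ι} {z z' : E4} (hz : z ∈ G.U i) (hz' : z' ∈ G.U j) :
    G.pi i z = G.pi j z' ↔ G.lab i z = G.lab j z' :=
  G.toM_eq_iff ⟨i, z, hz, rfl⟩ ⟨j, z', hz', rfl⟩

theorem cover (m : G.M) : ∃ i, ∃ z ∈ G.U i, G.pi i z = m := by
  obtain ⟨l, i, z, hz, rfl⟩ := m
  exact ⟨i, z, hz, Subtype.ext (G.toM_val ⟨i, z, hz, rfl⟩)⟩

/-- `continuousOn_open_iff`. -/
theorem continuousOn_pi (i : ι) : ContinuousOn (G.pi i) (G.U i) := by
  exact (continuousOn_open_iff (G.op i)).2 fun W hW => hW i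

/-- For `z' ∈ U j` with `pi j z' = pi i z`, `z ∈ V`, take `φ` from `trans j i`; it is continuous at
`z'`, so `φ x ∈ V` and `pi j x = pi i (φ x)` for `x` near `z'`. -/
theorem isOpen_image {i : ι} {V : Set E4} (hV : IsOpen V) (hU : V ⊆ G.U i) :
    IsOpen (G.pi i '' V) := by
  refine fun j => isOpen_iff_mem_nhds.2 ?_
  rintro z' ⟨hz', z, hz, e⟩
  obtain ⟨φ, h1, rfl, h3⟩ := G.trans j i z' hz' z (hU hz) ((G.pi_eq_iff hz' (hU hz)).1 e.symm)
  filter_upwards [h3, (G.op j).mem_nhds hz', h1.continuousAt.preimage_mem_nhds (hV.mem_nhds hz)]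
    with x a b c
  exact ⟨b, φ x, c, congrArg G.toM a⟩

/-- Take an open `V ∋ z` inside `U i` on which `lab i` is injective and use
`OpenPartialHomeomorph.ofContinuousOpenRestrict` (or `ofContinuousOpen`) on
`Set.InjOn.toPartialEquiv`. -/
theorem exists_chart {i : ι} {z : E4} (hz : z ∈ G.U i) :
    ∃ e : OpenPartialHomeomorph E4 G.M, (e : E4 → G.M) = G.pi i ∧ z ∈ e.source ∧
      e.source ⊆ G.U i := by
  obtain ⟨V, hV, hi⟩ := G.inj i z hz
  obtain ⟨W, hW, ho, hzW⟩ := mem_nhds_iff.1 (inter_mem hV ((G.op i).mem_nhds hz))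
  have hU : W ⊆ G.U i := fun x hx => (hW hx).2
  have hj : InjOn (G.pi i) W := fun x hx y hy e =>
    hi (hW hx).1 (hW hy).1 ((G.pi_eq_iff (hU hx) (hU hy)).1 e)
  refine ⟨.ofContinuousOpenRestrict (hj.toPartialEquiv _ _) ((G.continuousOn_pi i).mono hU)
    (fun S hS => ?_) ho, rfl, hzW, hU⟩
  have h := G.isOpen_image (i := i) (ho.isOpenMap_subtype_val S hS)
    (by rintro _ ⟨x, -, rfl⟩; exact hU x.2)
  rwa [image_image] at h

/-- On the source of the transition, near `q`, it agrees with the `φ` given by `trans`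
(`e'` is injective on its source and `φ x ∈ e'.source` near `q`). -/
theorem trans_smooth {i j : ι} (e e' : OpenPartialHomeomorph E4 G.M) (he : (e : E4 → G.M) = G.pi i)
    (he' : (e' : E4 → G.M) = G.pi j) (hU : e.source ⊆ G.U i) (hU' : e'.source ⊆ G.U j) {q : E4}
    (hq : q ∈ e.source) (hq' : e q ∈ e'.target) : ContDiffAt ℝ ∞ (e'.symm ∘ e) q := by
  have h0 := e'.map_target hq'
  obtain ⟨φ, h1, h2, h3⟩ := G.trans i j q (hU hq) _ (hU' h0)
    ((G.pi_eq_iff (hU hq) (hU' h0)).1 (by rw [← he, ← he', e'.right_inv hq']))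
  refine h1.congr_of_eventuallyEq ?_
  filter_upwards [h3, h1.continuousAt.preimage_mem_nhds (e'.open_source.mem_nhds (h2 ▸ h0))]
    with x a b
  rw [Function.comp, he, ← e'.left_inv b, he']
  exact congrArg (fun l => e'.symm (G.toM l)) a.symm

end Glue

end Pool.Agent.Lib.MP_94aef8_gt.Hb
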