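import Pool.Agent.Lib.MP_94aef8_gt.H.MapB

/-!
The metrics of the slab and of the bolt.
-/

open scoped Manifold ContDiff Topology
open Matrix Set Filter Real

namespace Pool.Agent.Lib.MP_94aef8_gt.Hb

variable {P : Par}

theorem nu_sq (P : Par) : P.nu ^ 2 = 1 + 4 * (P.n : ℝ) ^ 2 := by
  exact Real.sq_sqrt (by positivity)

theorem nu_pos (P : Par) : 0 < P.nu := by
  exact Real.sqrt_pos.2 (by positivity)

theorem slabM_symm (P : Par) (v y : ℝ) : (slabM P v y)ᵀ = slabM P v y := by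
  simp only [slabM, transpose_smul, transpose_add, sq1_symm]

theorem qf_slabM (P : Par) (v y : ℝ) (w : Fin 4 → ℝ) : qf (slabM P v y) w =
    (y ^ 2)⁻¹ * (v⁻¹ * w 3 ^ 2 + v * ((w 0 + 2 * P.n * w 1) / P.nu) ^ 2 +
      ((-2 * P.n * w 0 + w 1) / P.nu) ^ 2 + w 2 ^ 2) := by
  simp only [slabM, qf_smul, qf_add, qf_ee]
  rw [qf_sq1, qf_sq1]
  simp only [cons_val_zero, cons_val_one, cons_val]
  ring

theorem slabM_pos (P : Par) {v y : ℝ} (hv : 0 < v) (hy : y ≠ 0) : (slabM P v y).PosDef := by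
  refine posDef_of_qf (slabM_symm P v y) fun w hw => ?_
  rw [qf_slabM]
  refine mul_pos (by positivity) (lt_of_not_ge fun hle => hw ?_)
  have hν := nu_pos P
  have a1 : 0 ≤ v⁻¹ * w 3 ^ 2 := by positivity
  have a2 : 0 ≤ v * ((w 0 + 2 * P.n * w 1) / P.nu) ^ 2 := by positivity
  have a3 : 0 ≤ ((-2 * P.n * w 0 + w 1) / P.nu) ^ 2 := by positivity
  have a4 : 0 ≤ w 2 ^ 2 := by positivity
  have b1 : v⁻¹ * w 3 ^ 2 = 0 := by linarith
  have b2 : v * ((w 0 + 2 * P.n * w 1) / P.nu) ^ 2 = 0 := by linarith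
  have b3 : ((-2 * P.n * w 0 + w 1) / P.nu) ^ 2 = 0 := by linarith
  have b4 : w 2 ^ 2 = 0 := by linarith
  have c1 : w 3 = 0 := by simpa [hv.ne'] using b1
  have c2 : w 0 + 2 * P.n * w 1 = 0 := by simpa [hv.ne', hν.ne'] using b2
  have c3 : -2 * P.n * w 0 + w 1 = 0 := by simpa [hν.ne'] using b3
  have c4 : w 2 = 0 := by simpa using b4
  have c5 : (1 + 4 * (P.n : ℝ) ^ 2) * w 0 = 0 := by linear_combination c2 - 2 * P.n * c3
  have c6 : w 0 = 0 := (mul_eq_zero.1 c5).resolve_left (by positivity)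
  have c7 : w 1 = 0 := by
    rw [c6] at c3
    linarith
  funext i
  fin_cases i
  exacts [c6, c7, c4, c1]

theorem vO_pos (h : P.Ok) {y : ℝ} (h0 : 0 < y) (h1 : P.δ * y < 1) : 0 < P.vO y := by
  have a1 := smoothTransition.le_one (y - 3)
  have a2 := smoothTransition.nonneg (y - 3)
  have a3 : 0 < P.δ * y := mul_pos h.δ0 h0
  have a4 : (P.δ * y) ^ 3 < 1 := pow_lt_one₀ a3.le h1 (by norm_num)
  have a5 : 0 < (P.δ * y) ^ 3 := by positivity
  unfold Par.vO
  nlinarith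

theorem vO_low (P : Par) {y : ℝ} (h : y ≤ 3) : P.vO y = 1 := by
  simp [Par.vO, smoothTransition.zero_of_nonpos (sub_nonpos.2 h)]

theorem vO_high (P : Par) {y : ℝ} (h : 4 ≤ y) : P.vO y = 1 - (P.δ * y) ^ 3 := by
  simp [Par.vO, smoothTransition.one_of_one_le (show 1 ≤ y - 3 by linarith)]

theorem GO_low (P : Par) {p : E4} (h : p 3 ≤ 3) : P.GO p = GH p := by
  refine eq_of_qf (slabM_symm P _ _) (by simp [GH]) fun w => ?_
  have hν := (nu_pos P).ne'
  rw [GO_eq, vO_low P h, qf_slabM, GH, qf_smul, qf_one]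
  congr 1
  rw [div_pow, div_pow, nu_sq]
  field_simp
  ring

theorem good_GO (h : P.Ok) : Good P.GO P.UO := by
  refine ⟨isOpen_UO P, fun i j p hp => ?_, fun p hp => ?_⟩
  · obtain ⟨h0, h1⟩ := UO_lt h hp
    have hy : ContDiffAt ℝ ∞ (fun q : E4 => q 3) p := (cdCoord 3).contDiffAt
    have hv : ContDiffAt ℝ ∞ (fun q : E4 => P.vO (q 3)) p :=
      contDiffAt_const.sub ((smoothTransition.contDiffAt.comp p
        (hy.sub contDiffAt_const)).mul ((contDiffAt_const.mul hy).pow 3))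
    simp only [Par.GO, Matrix.add_apply, Matrix.smul_apply, smul_eq_mul]
    exact (((hy.pow 2).inv (by positivity)).mul
      (((((hv.inv (vO_pos h h0 h1).ne').mul contDiffAt_const).add
        (hv.mul contDiffAt_const)).add contDiffAt_const).add contDiffAt_const)).contDiffWithinAt
  · obtain ⟨h0, h1⟩ := UO_lt h hp
    exact slabM_pos P (vO_pos h h0 h1) h0.ne'

theorem GN_symm (b : ℝ) (z : E4) : (GN b z)ᵀ = GN b z := by
  simp only [GN, transpose_smul, transpose_add, transpose_sub, sq1_symm, sym2_symm]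

theorem qf_GN (b : ℝ) (z : E4) (w : Fin 4 → ℝ) : qf (GN b z) w =
    4 * (1 + u01 z) * (w 0 ^ 2 + w 1 ^ 2) -
      4 * (2 + u01 z) / (1 + u01 z) * (z 0 * w 1 - z 1 * w 0) ^ 2 +
      4 * (1 + u01 z) ^ 2 / (1 + u23 z) ^ 2 *
        ((w 2 - 2 * b * chiT (1 + u01 z) / u01 z * (z 0 * w 1 - z 1 * w 0) * z 3) ^ 2 +
          (w 3 + 2 * b * chiT (1 + u01 z) / u01 z * (z 0 * w 1 - z 1 * w 0) * z 2) ^ 2) := by
  simp only [GN, qf_smul, qf_add, qf_sub, qf_ee]
  rw [qf_sq1, qf_sym2]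
  simp only [l01, l23, cons_val_zero, cons_val_one, cons_val]
  generalize 2 * b * chiT (1 + u01 z) / u01 z = k
  generalize 4 * (1 + u01 z) ^ 2 / (1 + u23 z) ^ 2 = c
  unfold u23
  ring

/-- `(z0 w1 - z1 w0)² ≤ u01 z (w0² + w1²)` and `4 (1 + s) - 4 (2 + s) s / (1 + s) = 4 / (1 + s)`. -/
theorem GN_pos (b : ℝ) (z : E4) : (GN b z).PosDef := by
  refine posDef_of_qf (GN_symm b z) fun w hw => ?_
  rw [qf_GN]
  generalize 2 * b * chiT (1 + u01 z) / u01 z = k
  have hs : 0 ≤ u01 z := by unfold u01; positivity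
  have ht : 0 ≤ u23 z := by unfold u23; positivity
  have hc : 0 < 4 * (1 + u01 z) ^ 2 / (1 + u23 z) ^ 2 := by positivity
  generalize 4 * (1 + u01 z) ^ 2 / (1 + u23 z) ^ 2 = c at hc
  have a1 : (z 0 * w 1 - z 1 * w 0) ^ 2 ≤ u01 z * (w 0 ^ 2 + w 1 ^ 2) := by
    unfold u01
    nlinarith [sq_nonneg (z 0 * w 0 + z 1 * w 1)]
  have a2 : 4 / (1 + u01 z) * (w 0 ^ 2 + w 1 ^ 2) ≤ 4 * (1 + u01 z) * (w 0 ^ 2 + w 1 ^ 2) -
      4 * (2 + u01 z) / (1 + u01 z) * (z 0 * w 1 - z 1 * w 0) ^ 2 := by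
    have e1 : 4 * (1 + u01 z) * (w 0 ^ 2 + w 1 ^ 2) = 4 / (1 + u01 z) * (w 0 ^ 2 + w 1 ^ 2) +
        4 * (2 + u01 z) / (1 + u01 z) * (u01 z * (w 0 ^ 2 + w 1 ^ 2)) := by
      field_simp
      ring
    have e2 := mul_le_mul_of_nonneg_left a1
      (show 0 ≤ 4 * (2 + u01 z) / (1 + u01 z) by positivity)
    linarith
  by_cases h01 : w 0 = 0 ∧ w 1 = 0
  · have h23 : 0 < w 2 ^ 2 + w 3 ^ 2 := by
      refine lt_of_not_ge fun hle => hw ?_
      have c2 : w 2 = 0 := by nlinarith [sq_nonneg (w 2), sq_nonneg (w 3)]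
      have c3 : w 3 = 0 := by nlinarith [sq_nonneg (w 2), sq_nonneg (w 3)]
      funext i
      fin_cases i
      exacts [h01.1, h01.2, c2, c3]
    rw [h01.1, h01.2]
    have := mul_pos hc h23
    simpa using this
  · have h1 : 0 < w 0 ^ 2 + w 1 ^ 2 := by
      rcases not_and_or.1 h01 with h0 | h0 <;> positivity
    have h2 : 0 < 4 / (1 + u01 z) * (w 0 ^ 2 + w 1 ^ 2) := by positivity
    exact add_pos_of_pos_of_nonneg (h2.trans_le a2) (by positivity)

theorem goodo_u01 : ContDiff ℝ ∞ u01 := ((cdCoord 0).pow 2).add ((cdCoord 1).pow 2)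

theorem goodo_u23 : ContDiff ℝ ∞ u23 := ((cdCoord 2).pow 2).add ((cdCoord 3).pow 2)

theorem goodo_l01 (i : Fin 4) : ContDiff ℝ ∞ fun z => l01 z i := by
  fin_cases i
  exacts [(cdCoord 1).neg, cdCoord 0, contDiff_const, contDiff_const]

theorem goodo_l23 (i : Fin 4) : ContDiff ℝ ∞ fun z => l23 z i := by
  fin_cases i
  exacts [contDiff_const, contDiff_const, (cdCoord 3).neg, cdCoord 2]

theorem goodo_chi (b : ℝ) : ContDiff ℝ ∞ fun s : ℝ => 2 * b * chiT (1 + s) / s := by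
  refine contDiff_iff_contDiffAt.2 fun s => ?_
  by_cases hs : s = 0
  · refine (contDiffAt_const (c := (0 : ℝ))).congr_of_eventuallyEq ?_
    filter_upwards [Iio_mem_nhds (show s < 1 / 2 by rw [hs]; norm_num)] with t ht
    have h1 : t < 1 / 2 := ht
    simp [chiT, smoothTransition.zero_of_nonpos (show 2 * (1 + t) - 3 ≤ 0 by linarith)]
  · refine (contDiffAt_const.mul ?_).div contDiffAt_id hs
    exact smoothTransition.contDiffAt.comp s
      ((contDiffAt_const.mul (contDiffAt_const.add contDiffAt_id)).sub contDiffAt_const)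

/-- `chiT (1 + s) / s` is smooth: it vanishes for `s < 1/2`. -/
theorem GN_smooth (b : ℝ) (i j : Fin 4) : ContDiff ℝ ∞ fun z => GN b z i j := by
  have hk : ContDiff ℝ ∞ fun z => 2 * b * chiT (1 + u01 z) / u01 z := (goodo_chi b).comp goodo_u01
  have h1 : ContDiff ℝ ∞ fun z => 1 + u01 z := contDiff_const.add goodo_u01
  have h2 : ContDiff ℝ ∞ fun z => 1 + u23 z := contDiff_const.add goodo_u23
  have n1 : ∀ z, 1 + u01 z ≠ 0 := fun z => by unfold u01; positivity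
  have n2 : ∀ z, (1 + u23 z) ^ 2 ≠ 0 := fun z => by unfold u23; positivity
  have h3 := (goodo_l01 i).mul (goodo_l01 j)
  simp only [GN, Matrix.add_apply, Matrix.sub_apply, Matrix.smul_apply, smul_eq_mul]
  exact (((contDiff_const.mul h1).mul contDiff_const).sub
    (((contDiff_const.mul (contDiff_const.add goodo_u01)).div h1 n1).mul h3)).add
    (((contDiff_const.mul (h1.pow 2)).div (h2.pow 2) n2).mul
      ((contDiff_const.add (hk.mul (((goodo_l23 i).mul (goodo_l01 j)).add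
        ((goodo_l01 i).mul (goodo_l23 j))))).add (((hk.pow 2).mul goodo_u23).mul h3)))

theorem good_GN (b : ℝ) {r : ℝ} (hr : r ≠ 0) : Good (fun z => r ^ 2 • GN b z) UN := by
  refine ⟨isOpen_UN, fun i j => ?_, fun z _ => (GN_pos b z).smul (by positivity)⟩
  exact (contDiff_const.mul (GN_smooth b i j)).contDiffOn

end Pool.Agent.Lib.MP_94aef8_gt.Hb
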