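import Pool.Agent.Lib.MP_94aef8_gt.G.Bas
import Pool.Agent.Lib.MP_94aef8_gt.CapAtlas

/-!
Definitions for the construction of the glued manifold.
-/

open scoped Manifold ContDiff Topology
open Matrix Set Filter Real

namespace Pool.Agent.Lib.MP_94aef8_gt.Hb

open Cap (Amb YY Yo hyp cis cx EOm EMid EBub capU capE CP rad hgt ytop rOf sOf alV LocD Capped)

/-- The parameters of the caps. -/
noncomputable def cpar (P : Par) : Cap.Par := ⟨P.K, P.δ, P.ϱ / P.δ, P.n⟩

theorem cpar_ok {P : Par} (h : P.Ok) : (cpar P).ok := by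
  obtain ⟨k, hk⟩ := h.K4
  have h0 := h.K0
  have h1 := h.δ0
  refine ⟨⟨2 * k, by omega, ?_⟩, h1, h.δ1.trans (by norm_num), div_pos h.ϱ0 h1, ?_⟩
  · change (P.K : ℝ) = _
    rw [hk]
    push_cast
    ring
  · change P.ϱ / P.δ ≤ _
    rw [div_le_iff₀ h1]
    linarith [h.ϱ1]

/-- The core slab. -/
def U0 : Set E4 := {p | 1 / 3 < p 3 ∧ p 3 < 3}

/-- The same point of the hyperbolic manifold in two frames. -/
def rl {K : ℕ} (A : Arith K) (c : A.C) (p : E4) (c' : A.C) (p' : E4) : Prop :=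
  ∃ τ ∈ A.Tr c c', τ p = p'

/-- The part `y > 2` of the cap. -/
abbrev YP (P : Par) : Set Amb := Yo P.δ (P.ϱ / P.δ)

/-- The slab in the ambient space. -/
noncomputable def EO (P : Par) : E4 → Amb := EOm P.K P.δ P.n

/-- The core region in the ambient space. -/
noncomputable def EC (P : Par) (x : E4) : Amb :=
  (cx (x 0) (x 1) / P.δ,
    √(hyp (P.ϱ / P.δ) (cx (x 0) (x 1) / P.δ) (x 2 / P.δ)) * cis (x 3 / (2 * P.ϱ)), x 2 / P.δ)

/-- The bolt regions in the ambient space. -/
noncomputable def EN (P : Par) (j : ℤ) (e : ℤˣ) : E4 → Amb :=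
  EBub (P.ϱ / P.δ) (decide (e = 1)) j

/-- Capped manifolds for the parameters `P` and the hyperbolic data `A`. -/
abbrev Cp (P : Par) (A : Arith P.K) (M : Type) [TopologicalSpace M] [ChartedSpace E4 M] :=
  Capped A.C U0 (rl A) (cpar P) M

/-- Addresses of points: in a core slab or in a cap. -/
abbrev Ad (C : Type) : Type := (C × E4) ⊕ (C × Amb)

/-- Valid addresses. -/
def Val (P : Par) {C : Type} : Ad C → Prop
  | .inl a => a.2 ∈ U0
  | .inr a => a.2 ∈ YP P

/-- The attaching relation. -/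
def att (P : Par) (A : Arith P.K) (c : A.C) (p : E4) (c' : A.C) (e : Amb) : Prop :=
  ∃ x : E4, 2 < x 3 ∧ x 3 < 3 ∧ rl A c p c' x ∧ e = EO P x

/-- Two addresses of the same point. -/
def RA (P : Par) (A : Arith P.K) : Ad A.C → Ad A.C → Prop
  | .inl a, .inl b => rl A a.1 a.2 b.1 b.2
  | .inl a, .inr b => att P A a.1 a.2 b.1 b.2
  | .inr a, .inl b => att P A b.1 b.2 a.1 a.2
  | .inr a, .inr b => a.1 = b.1 ∧ ∃ m : ℤ, b.2 = Cap.sh (P.K * m) a.2

/-- The set of all addresses of a point. -/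
def cls (P : Par) (A : Arith P.K) (a : Ad A.C) : Set (Ad A.C) := {b | Val P b ∧ RA P A a b}

/-- The domains of the patches. -/
def pU (P : Par) {C : Type} : C × Option CP → Set E4
  | (_, none) => U0
  | (_, some a) => capU (cpar P) a

/-- The address of a point of a patch. -/
noncomputable def adr (P : Par) {C : Type} : C × Option CP → E4 → Ad C
  | (c, none), z => .inl (c, z)
  | (c, some a), z => .inr (c, capE (cpar P) a z)

section

variable {P : Par} {A : Arith P.K} {M : Type} [TopologicalSpace M] [ChartedSpace E4 M]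

/-- The slab patch. -/
noncomputable def pO (D : Cp P A M) (c : A.C) (p : E4) : M :=
  if p 3 < 3 then D.slab c p else D.cap c (EO P p)

/-- The core patch. -/
noncomputable def pC (D : Cp P A M) (c : A.C) (x : E4) : M := D.cap c (EC P x)

/-- The bolt patches. -/
noncomputable def pN (D : Cp P A M) (c : A.C) (j : ℤ) (e : ℤˣ) (z : E4) : M :=
  D.cap c (EN P j e z)

end

/-- The slab metric for a given value `v` of the potential at height `y`. -/
noncomputable def slabM (P : Par) (v y : ℝ) : Mat :=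
  (y ^ 2)⁻¹ • (v⁻¹ • sq1 (ee 3) + v • sq1 ![1 / P.nu, 2 * P.n / P.nu, 0, 0] +
    sq1 ![-2 * P.n / P.nu, 1 / P.nu, 0, 0] + sq1 (ee 2))

theorem GO_eq (P : Par) (p : E4) : P.GO p = slabM P (P.vO (p 3)) (p 3) := rfl

/-- The metric of the core region, twisted coordinates. -/
noncomputable def GC (P : Par) (x : E4) : Mat := P.GT (mk4 (x 0) (x 1) (P.zj (P.jn x) x) (x 3))

/-- The action of a cusp symmetry on the bolt coordinates. -/
noncomputable def actN (P : Par) (u : Sy) (z : E4) : E4 :=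
  mk4 (cos (4 * π * (u.v 1 - 2 * P.n * u.v 0) / P.K) * z 0 -
      sin (4 * π * (u.v 1 - 2 * P.n * u.v 0) / P.K) * (((u.e : ℤ) : ℝ) * z 1))
    (sin (4 * π * (u.v 1 - 2 * P.n * u.v 0) / P.K) * z 0 +
      cos (4 * π * (u.v 1 - 2 * P.n * u.v 0) / P.K) * (((u.e : ℤ) : ℝ) * z 1))
    (cos (4 * π * u.v 0 / P.K) * z 2 - sin (4 * π * u.v 0 / P.K) * (((u.e : ℤ) : ℝ) * z 3))
    (sin (4 * π * u.v 0 / P.K) * z 2 + cos (4 * π * u.v 0 / P.K) * (((u.e : ℤ) : ℝ) * z 3))

/-- The action of a cusp symmetry on the numbers of the centres. -/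
def actJ (u : Sy) (j : ℤ) : ℤ := (u.e' : ℤ) * j + u.v 2

/-- The twist: rotation of the first two coordinates by the angle `c t`. -/
noncomputable def twi (c : ℝ) (x : E4) : E4 := rot (c * x 3) x

end Pool.Agent.Lib.MP_94aef8_gt.Hb
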