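import Pool.Agent.Lib.MP_94aef8_gt.G.Bas
import Pool.Agent.Lib.MP_94aef8_gt.CapDefs

/-!
Patches: chain rule and local sections.
-/

open scoped Manifold ContDiff Topology
open Matrix Set Filter

namespace Pool.Agent.Lib.MP_94aef8_gt.Hb

variable {L M N : Type} [TopologicalSpace L] [ChartedSpace E4 L] [TopologicalSpace M]
  [ChartedSpace E4 M] [TopologicalSpace N] [ChartedSpace E4 N]

/-- The matrix of a linear map of `E4`. -/
noncomputable def pt_mat (A : E4 →L[ℝ] E4) : Mat := Matrix.of fun i a => A (bas a) i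

theorem pt_mat_mulVec (A : E4 →L[ℝ] E4) (v : E4) : pt_mat A *ᵥ v.ofLp = (A v).ofLp := by
  have hv : v = ∑ a, v a • bas a := by
    ext i
    simp [bas, Pi.single_apply]
  funext i
  conv_rhs => rw [hv, map_sum]
  simp [pt_mat, Matrix.mulVec, dotProduct, mul_comm]

theorem pt_mat_comp (A B : E4 →L[ℝ] E4) : pt_mat (A.comp B) = pt_mat A * pt_mat B := by
  apply mat_ext_mulVec
  intro v
  rw [← Matrix.mulVec_mulVec, pt_mat_mulVec, pt_mat_mulVec, pt_mat_mulVec]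
  rfl

theorem pt_mat_id : pt_mat (ContinuousLinearMap.id ℝ E4) = 1 := by
  apply mat_ext_mulVec
  intro v
  rw [pt_mat_mulVec, Matrix.one_mulVec]
  rfl

theorem pt_jm (F : N → M) (x : N) :
    jm F x = pt_mat (show E4 →L[ℝ] E4 from mfderiv (𝓡 4) (𝓡 4) F x) := rfl

theorem pt_equiv {A : E4 →L[ℝ] E4} (h : (pt_mat A).det ≠ 0) :
    ∃ e : E4 ≃L[ℝ] E4, (e : E4 →L[ℝ] E4) = A := by
  have hi : Function.Injective A := by
    rw [injective_iff_map_eq_zero]
    intro v hv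
    have h1 : pt_mat A *ᵥ v.ofLp = 0 := by rw [pt_mat_mulVec, hv]; rfl
    have h2 := Matrix.eq_zero_of_mulVec_eq_zero h h1
    ext i
    exact congrFun h2 i
  have hs : Function.Surjective A :=
    (LinearMap.injective_iff_surjective (f := (A : E4 →ₗ[ℝ] E4))).1 hi
  exact ⟨(LinearEquiv.ofBijective (A : E4 →ₗ[ℝ] E4) ⟨hi, hs⟩).toContinuousLinearEquiv, rfl⟩

/-- `mfderiv_eq_fderiv`, `jac_mulVec`, `mat_ext_mulVec` (or entrywise). -/
theorem jm_flat {τ : E4 → E4} {p : E4} (h : DifferentiableAt ℝ τ p) : jm τ p = jac τ p := by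
  ext i a
  have h1 : (fun y => τ y i) = (EuclideanSpace.proj (𝕜 := ℝ) i) ∘ τ := rfl
  have h2 := ((EuclideanSpace.proj (𝕜 := ℝ) i : E4 →L[ℝ] ℝ).hasFDerivAt.comp p h.hasFDerivAt).fderiv
  simp only [jm, jac, pd, Matrix.of_apply, mfderiv_eq_fderiv]
  rw [h1, h2]
  rfl

theorem jm_comp {F : N → M} {G : L → N} {x : L} (hF : MDifferentiableAt (𝓡 4) (𝓡 4) F (G x))
    (hG : MDifferentiableAt (𝓡 4) (𝓡 4) G x) : jm (F ∘ G) x = jm F (G x) * jm G x := by
  rw [pt_jm, pt_jm, pt_jm, ← pt_mat_comp, mfderiv_comp x hF hG]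
  rfl

theorem jm_congr {F F' : N → M} {x : N} (h : F =ᶠ[𝓝 x] F') : jm F x = jm F' x := by
  rw [pt_jm, pt_jm, h.mfderiv_eq]

theorem jm_id (x : M) : jm (id : M → M) x = 1 := by
  rw [pt_jm, mfderiv_id, ← pt_mat_id]
  rfl

theorem gpull_congr {F F' : N → M} {x : N} (h : F =ᶠ[𝓝 x] F') (g : M → Mat) :
    gpull F g x = gpull F' g x := by
  rw [gpull, gpull, jm_congr h, h.eq_of_nhds]

theorem gpull_comp {F : N → M} {G : L → N} {x : L} (hF : MDifferentiableAt (𝓡 4) (𝓡 4) F (G x))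
    (hG : MDifferentiableAt (𝓡 4) (𝓡 4) G x) (g : M → Mat) :
    gpull (F ∘ G) g x = gpull G (gpull F g) x := by
  simp only [gpull, jm_comp hF hG, Matrix.transpose_mul, Matrix.mul_assoc, Function.comp]

theorem gpull_flat {τ : E4 → E4} {p : E4} (h : DifferentiableAt ℝ τ p) (G : Tn) :
    gpull τ G p = pull τ G p := by
  rw [gpull, pull, jm_flat h]

theorem pt_at {π : N → M} {U : Set N} (h : Pt π U) {z : N} (hz : z ∈ U) :
    ContMDiffAt (𝓡 4) (𝓡 4) ∞ π z :=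
  h.smooth.contMDiffAt (h.isOpen.mem_nhds hz)

theorem pt_mdiff {π : N → M} {U : Set N} (h : Pt π U) {z : N} (hz : z ∈ U) :
    MDifferentiableAt (𝓡 4) (𝓡 4) π z :=
  (pt_at h hz).mdifferentiableAt (by simp)

theorem locD_image {f : E4 → M} {y : E4} (h : Cap.LocD f y) {V : Set E4} (hV : V ∈ 𝓝 y) :
    f '' V ∈ 𝓝 (f y) := by
  obtain ⟨_, g, hg, h1, h2⟩ := h
  have h3 : g ⁻¹' V ∈ 𝓝 (f y) := hg.continuousAt.preimage_mem_nhds (by rw [h1]; exact hV)
  filter_upwards [h2, h3] with m a b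
  exact ⟨g m, b, a⟩

/-- `jm f y * jm g (f y) = jm (f ∘ g) (f y) = 1` for the local section `g`. -/
theorem pt_of_locD {f : E4 → M} {U : Set E4} (hU : IsOpen U) (h : ∀ y ∈ U, Cap.LocD f y) :
    Pt f U := by
  refine ⟨hU, fun y hy => (h y hy).1.contMDiffWithinAt, fun y hy => ?_⟩
  obtain ⟨hf, g, hg, h1, h2⟩ := h y hy
  have hf' : MDifferentiableAt (𝓡 4) (𝓡 4) f (g (f y)) := by
    rw [h1]; exact hf.mdifferentiableAt (by simp)
  have h3 := jm_comp hf' (hg.mdifferentiableAt (by simp))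
  have h4 : jm (f ∘ g) (f y) = jm (id : M → M) (f y) := jm_congr h2
  rw [h4, jm_id, h1] at h3
  intro h0
  have h5 := congrArg Matrix.det h3
  rw [Matrix.det_mul, h0, zero_mul, Matrix.det_one] at h5
  exact one_ne_zero h5

/-- Composition with a smooth map that has a smooth local section. -/
theorem locD_comp {f : E4 → M} {φ ψ : E4 → E4} {y : E4} (h : Cap.LocD f (φ y))
    (hφ : ContDiffAt ℝ ∞ φ y) (hψ : ContDiffAt ℝ ∞ ψ (φ y)) (h1 : ψ (φ y) = y)
    (h2 : ∀ᶠ x in 𝓝 (φ y), φ (ψ x) = x) : Cap.LocD (f ∘ φ) y := by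
  obtain ⟨hf, g, hg, e1, e2⟩ := h
  refine ⟨hf.comp y hφ.contMDiffAt, ψ ∘ g, ?_, ?_, ?_⟩
  · have : ContMDiffAt (𝓡 4) (𝓡 4) ∞ ψ (g (f (φ y))) := by rw [e1]; exact hψ.contMDiffAt
    exact this.comp _ hg
  · change ψ (g (f (φ y))) = y
    rw [e1, h1]
  · have h3 : Tendsto g (𝓝 (f (φ y))) (𝓝 (φ y)) := by
      have := hg.continuousAt.tendsto
      rwa [e1] at this
    filter_upwards [e2, h3.eventually h2] with m a b
    change f (φ (ψ (g m))) = m
    rw [b, a]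

/-- Inverse function theorem: `F = chartAt (π z) ∘ π` is smooth at `z`, its derivative is the
`mfderiv` of `π`, invertible because `det (jm π z) ≠ 0`; use `ContDiffAt.toOpenPartialHomeomorph`
or `ContDiffAt.localInverse`, `ContDiffAt.to_localInverse`, and take the local inverse composed with
the chart. -/
theorem locD_of_pt [IsManifold (𝓡 4) ∞ M] {π : E4 → M} {U : Set E4} (h : Pt π U) {z : E4}
    (hz : z ∈ U) : Cap.LocD π z := by
  have hπ := pt_at h hz
  have hc : ContMDiffAt (𝓡 4) (𝓡 4) ∞ (chartAt E4 (π z)) (π z) :=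
    contMDiffAt_of_mem_maximalAtlas (IsManifold.chart_mem_maximalAtlas _) (mem_chart_source _ _)
  have hF : ContDiffAt ℝ ∞ (chartAt E4 (π z) ∘ π) z := (hc.comp z hπ).contDiffAt
  obtain ⟨e, he⟩ := pt_equiv (A := mfderiv (𝓡 4) (𝓡 4) π z) (h.unit z hz)
  have hd : HasFDerivAt (chartAt E4 (π z) ∘ π) (e : E4 →L[ℝ] E4) z := by
    have h1 := (pt_mdiff h hz).hasMFDerivAt.2
    rw [he]
    simp only [writtenInExtChartAt, extChartAt, mfld_simps] at h1
    exact hasFDerivWithinAt_univ.1 h1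
  have hn : (∞ : WithTop ℕ∞) ≠ 0 := by simp
  have hs := hF.hasStrictFDerivAt' hd hn
  refine ⟨hπ, hF.localInverse hd hn ∘ chartAt E4 (π z), ?_, ?_, ?_⟩
  · have h1 : ContMDiffAt (𝓡 4) (𝓡 4) ∞ (hF.localInverse hd hn) (chartAt E4 (π z) (π z)) :=
      (hF.to_localInverse hd hn).contMDiffAt
    exact h1.comp (π z) hc
  · exact hF.localInverse_apply_image hd hn
  · have h1 : ∀ᶠ w in 𝓝 ((chartAt E4 (π z) ∘ π) z),
        (chartAt E4 (π z) ∘ π) (hF.localInverse hd hn w) = w := hs.eventually_right_inverse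
    have h2 : Tendsto (chartAt E4 (π z)) (𝓝 (π z)) (𝓝 ((chartAt E4 (π z) ∘ π) z)) :=
      hc.continuousAt.tendsto
    have h3 : Tendsto (hF.localInverse hd hn) (𝓝 ((chartAt E4 (π z) ∘ π) z)) (𝓝 z) := by
      have := (hF.to_localInverse hd hn).continuousAt.tendsto
      rwa [hF.localInverse_apply_image hd hn] at this
    have h4 : Tendsto (fun m => π (hF.localInverse hd hn (chartAt E4 (π z) m))) (𝓝 (π z))
        (𝓝 (π z)) := hπ.continuousAt.tendsto.comp (h3.comp h2)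
    have h5 := (chartAt E4 (π z)).open_source.mem_nhds (mem_chart_source E4 (π z))
    filter_upwards [h2.eventually h1, h4.eventually h5, h5] with m a b c
    exact (chartAt E4 (π z)).injOn b c a

theorem contAt_of_locD {X : Type} [TopologicalSpace X] {π : E4 → M} {z : E4} (h : Cap.LocD π z)
    {f : M → X} (hf : ContinuousAt (f ∘ π) z) : ContinuousAt f (π z) := by
  obtain ⟨_, g, hg, e1, e2⟩ := h
  have h1 : ContinuousAt (f ∘ π) (g (π z)) := by rw [e1]; exact hf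
  refine (h1.comp hg.continuousAt).congr ?_
  filter_upwards [e2] with m a
  change f (π (g m)) = f m
  rw [a]

theorem smoothAt_of_locD {π : E4 → M} {z : E4} (h : Cap.LocD π z) {f : M → N}
    (hf : ContMDiffAt (𝓡 4) (𝓡 4) ∞ (f ∘ π) z) : ContMDiffAt (𝓡 4) (𝓡 4) ∞ f (π z) := by
  obtain ⟨_, g, hg, e1, e2⟩ := h
  have h1 : ContMDiffAt (𝓡 4) (𝓡 4) ∞ (f ∘ π) (g (π z)) := by rw [e1]; exact hf
  refine (h1.comp _ hg).congr_of_eventuallyEq ?_
  filter_upwards [e2] with m a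
  change f m = f (π (g m))
  rw [a]

end Pool.Agent.Lib.MP_94aef8_gt.Hb
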