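import Pool.Agent.Lib.MP_94aef8_gt.H.MapB
import Pool.Agent.Lib.MP_94aef8_gt.H.MapC
import Pool.Agent.Lib.MP_94aef8_gt.H.Pt

/-!
Maps out of the glued manifold.
-/

open scoped Manifold ContDiff Topology
open Matrix Set Filter Real

namespace Pool.Agent.Lib.MP_94aef8_gt.Hb

variable {P : Par} {A : Arith P.K}

/-- Values on the three families of patches that are compatible with the identifications. -/
structure Cmp (P : Par) (A : Arith P.K) {Y : Type} (fO fC : A.C → E4 → Y)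
    (fN : A.C → ℤ → ℤˣ → E4 → Y) : Prop where
  hO : ∀ c c', ∀ τ ∈ A.Tr c c', ∀ p ∈ P.UO, τ p ∈ P.UO → fO c' (τ p) = fO c p
  hC : ∀ c a b, ∀ x ∈ P.UC, fC c (P.dk a b x) = fC c x
  hN : ∀ c (j j' a : ℤ) e, 2 * (j' - j) = a * P.K → ∀ z ∈ UN, fN c j' e z = fN c j e z
  hP : ∀ c j e e', e ≠ e' → ∀ z ∈ UN, u23 z ≠ 0 → fN c j e' (P3 z) = fN c j e z
  hOC : ∀ c, ∀ p ∈ P.UO, 1 / (3 * P.δ) < p 3 → fC c (P.P1 p) = fO c p
  hCN : ∀ c j (e : ℤˣ), ∀ x ∈ P.UC, P.Rj j x < 4 * P.ϱ →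
    0 < P.Rj j x + ((e : ℤ) : ℝ) * P.zj j x → fN c j e (P2u e (P.usc j x)) = fC c x

/-- Define `F m` by choice from the set of values at the patch points over `m`, and show that any
two such values agree. Slab and core: `djOC`, `trOC`, `P1_mem_UC`, `eqC`. Core and bolt: `djCN`,
`trCN`, `usc_data`, `eqN`. Slab and bolt: `djON`. -/
theorem lift (h : P.Ok) (D : MD P A) {Y : Type} {fO fC : A.C → E4 → Y}
    {fN : A.C → ℤ → ℤˣ → E4 → Y} (H : Cmp P A fO fC fN) :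
    ∃ F : D.M → Y, (∀ c, ∀ p ∈ P.UO, F (D.pO c p) = fO c p) ∧
      (∀ c, ∀ x ∈ P.UC, F (D.pC c x) = fC c x) ∧
      ∀ c j e, ∀ z ∈ UN, F (D.pN c j e z) = fN c j e z := by
  have OO : ∀ c c', ∀ p ∈ P.UO, ∀ p' ∈ P.UO, D.pO c p = D.pO c' p' → fO c p = fO c' p' := by
    intro c c' p hp p' hp' e
    obtain ⟨τ, hτ, rfl⟩ := (D.eqO c c' p hp p' hp').1 e
    exact (H.hO c c' τ hτ p hp hp').symm
  have CC : ∀ c c', ∀ x ∈ P.UC, ∀ x' ∈ P.UC, D.pC c x = D.pC c' x' → fC c x = fC c' x' := by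
    intro c c' x hx x' hx' e
    obtain ⟨rfl, a, b, rfl⟩ := (D.eqC c c' x hx x' hx').1 e
    exact (H.hC c a b x hx).symm
  have NN : ∀ c c' j j' e e', ∀ z ∈ UN, ∀ z' ∈ UN, D.pN c j e z = D.pN c' j' e' z' →
      fN c j e z = fN c' j' e' z' := by
    intro c c' j j' e e' z hz z' hz' q
    obtain ⟨rfl, ⟨a, ha⟩, ⟨rfl, rfl⟩ | ⟨h1, h2, rfl⟩⟩ := (D.eqN c c' j j' e e' z hz z' hz').1 q
    · exact (H.hN c j j' a e ha _ hz).symm
    · exact ((H.hP c j' e e' h1 z hz h2).trans (H.hN c j j' a e ha z hz)).symm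
  have OC : ∀ c c', ∀ p ∈ P.UO, ∀ x ∈ P.UC, D.pO c p = D.pC c' x → fO c p = fC c' x := by
    intro c c' p hp x hx e
    obtain ⟨rfl, h1⟩ := D.djOC c c' p hp x hx e
    exact (H.hOC c p hp h1).symm.trans
      (CC c c _ (P1_mem_UC h hp h1) x hx ((D.trOC c p hp h1).trans e))
  have CN : ∀ c c' j e, ∀ x ∈ P.UC, ∀ z ∈ UN, D.pC c x = D.pN c' j e z → fC c x = fN c' j e z := by
    intro c c' j e x hx z hz q
    obtain ⟨rfl, j', a, -, h1, h2⟩ := D.djCN c c' j e x hx z hz q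
    exact (H.hCN c j' e x hx h1 h2).symm.trans
      (NN c c j' j e e _ (usc_data h hx h1 h2).2.2.2 z hz ((D.trCN c j' e x hx h1 h2).trans q))
  have key : ∀ m : D.M, ∃ y : Y, (∀ c, ∀ p ∈ P.UO, D.pO c p = m → y = fO c p) ∧
      (∀ c, ∀ x ∈ P.UC, D.pC c x = m → y = fC c x) ∧
      ∀ c j e, ∀ z ∈ UN, D.pN c j e z = m → y = fN c j e z := by
    intro m
    rcases D.cover m with ⟨c, p, hp, rfl⟩ | ⟨c, x, hx, rfl⟩ | ⟨c, j, e, z, hz, rfl⟩
    · exact ⟨fO c p, fun c' p' hp' q => OO c c' p hp p' hp' q.symm,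
        fun c' x hx q => OC c c' p hp x hx q.symm,
        fun c' j e z hz q => (D.djON c c' j e p hp z hz q.symm).elim⟩
    · exact ⟨fC c x, fun c' p hp q => (OC c' c p hp x hx q).symm,
        fun c' x' hx' q => CC c c' x hx x' hx' q.symm,
        fun c' j e z hz q => CN c c' j e x hx z hz q.symm⟩
    · exact ⟨fN c j e z, fun c' p hp q => (D.djON c' c j e p hp z hz q).elim,
        fun c' x hx q => (CN c' c j e x hx z hz q).symm,
        fun c' j' e' z' hz' q => NN c c' j j' e e' z hz z' hz' q.symm⟩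
  choose F h1 h2 h3 using key
  exact ⟨F, fun c p hp => h1 _ c p hp rfl, fun c x hx => h2 _ c x hx rfl,
    fun c j e z hz => h3 _ c j e z hz rfl⟩

theorem lift_low (h : P.Ok) {p : E4} (hp : p ∈ P.UO) (h1 : p 3 ≤ 1 / (2 * P.δ)) :
    min 1 (P.Rn (P.P1 p)) = 1 := by
  obtain ⟨h2, h3⟩ := UO_lt h hp
  have hδ := h.δ0
  have h4 : 2 ≤ 1 / (P.δ * p 3) := by
    rw [le_div_iff₀ (by positivity)] at h1 ⊢
    linarith
  refine min_eq_left (Real.le_sqrt_of_sq_le ?_)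
  rw [u01_P1 h h2 h3]
  nlinarith [sq_nonneg (P.zj (P.jn (P.P1 p)) (P.P1 p))]

theorem lift_three (h : P.Ok) : 3 ≤ 1 / (2 * P.δ) := by
  have hδ := h.δ0
  rw [le_div_iff₀ (by positivity)]
  linarith [h.δ1]

theorem lift_cmp_scale (h : P.Ok) : Cmp P A (fun _ p => min 1 (P.Rn (P.P1 p)))
    (fun _ x => min 1 (P.Rn x)) fun _ _ _ z => P.ϱ * (1 + u01 z) where
  hO := by
    intro c c' τ hτ p hp hp'
    by_cases h1 : 1 < p 3 * τ p 3
    · obtain ⟨-, v, hv⟩ := A.high hτ p (UO_lt h hp).1 h1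
      rw [hv p (UO_lt h hp).1, P1_trl h, Rn_dk h]
    · have h2 := hp.1
      have h3 := hp'.1
      have h4 : p 3 ≤ 3 := by nlinarith
      have h5 : τ p 3 ≤ 3 := by nlinarith
      rw [lift_low h hp (h4.trans (lift_three h)), lift_low h hp' (h5.trans (lift_three h))]
  hC := fun _ a b x _ => by rw [Rn_dk h]
  hN := fun _ _ _ _ _ _ _ _ => rfl
  hP := fun _ _ _ _ _ _ _ _ => rfl
  hOC := fun _ _ _ _ => rfl
  hCN := by
    intro c j e x hx h1 h2
    have hϱ := h.ϱ0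
    have h3 := h.ϱ1
    have h4 := h.δ1
    have h5 : P.jn x = j := jn_eq h ((abs_zj_le P j x).trans_lt (by unfold Par.l; linarith))
    rw [u01_P2u e (usc_data h hx h1 h2).1.le, R3_usc h, Par.Rn, h5, min_eq_right (by linarith)]
    field_simp
    ring

/-- The scale function. Take `fO c p = min 1 (Rn (P1 p))`, `fC c x = min 1 (Rn x)`,
`fN c j e z = ϱ (1 + u01 z)`. For `hO`: if the product of the heights exceeds one use `A.high`,
`P1_trl`, `Rn_dk`; otherwise both heights are below 3 and both values are 1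
(`√(u01 x) ≤ Rn x`, `u01_P1`). Continuity: `contAt_of_locD`, `locD_of_pt`, `D.cover`. -/
theorem exists_scale (h : P.Ok) (D : MD P A) : ∃ s : D.M → ℝ, Continuous s ∧
    (∀ c, ∀ p ∈ P.UO, p 3 ≤ 1 / (2 * P.δ) → s (D.pO c p) = 1) ∧
    (∀ c, ∀ x ∈ P.UC, s (D.pC c x) = min 1 (P.Rn x)) ∧
    ∀ c j e, ∀ z ∈ UN, s (D.pN c j e z) = P.ϱ * (1 + u01 z) := by
  obtain ⟨s, h1, h2, h3⟩ := lift h D (lift_cmp_scale h)
  refine ⟨s, continuous_iff_continuousAt.2 fun m => ?_,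
    fun c p hp q => (h1 c p hp).trans (lift_low h hp q), h2, h3⟩
  rcases D.cover m with ⟨c, p, hp, rfl⟩ | ⟨c, x, hx, rfl⟩ | ⟨c, j, e, z, hz, rfl⟩
  · refine contAt_of_locD (locD_of_pt (D.ptO c) hp) ?_
    have h4 : ContinuousAt (fun p => min 1 (P.Rn (P.P1 p))) p :=
      continuousAt_const.min ((continuous_Rn h).continuousAt.comp
        (P1_smooth h (UO_lt h hp).1 (UO_lt h hp).2).continuousAt)
    exact h4.congr (eventually_of_mem ((D.ptO c).isOpen.mem_nhds hp) fun q hq => (h1 c q hq).symm)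
  · refine contAt_of_locD (locD_of_pt (D.ptC c) hx) ?_
    have h4 : ContinuousAt (fun x => min 1 (P.Rn x)) x :=
      continuousAt_const.min (continuous_Rn h).continuousAt
    exact h4.congr (eventually_of_mem ((D.ptC c).isOpen.mem_nhds hx) fun q hq => (h2 c q hq).symm)
  · refine contAt_of_locD (locD_of_pt (D.ptN c j e) hz) ?_
    have h4 : Continuous fun z : E4 => P.ϱ * (1 + u01 z) := by
      unfold u01
      fun_prop
    exact h4.continuousAt.congr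
      (eventually_of_mem ((D.ptN c j e).isOpen.mem_nhds hz) fun q hq => (h3 c j e q hq).symm)

/-- The symmetries as maps. Take `φ, U` from `A.sym` and apply `lift` to the right hand sides
(file `MapC` has all commutation rules). -/
theorem exists_symMap (h : P.Ok) (D : MD P A) (c : A.C) (u : Sy) :
    ∃ (F : D.M → D.M) (φ : A.C → A.C) (U : A.C → Sy), φ c = c ∧ U c = u ∧
      (∀ a, ∀ p ∈ P.UO, F (D.pO a p) = D.pO (φ a) ((U a).act p)) ∧
      (∀ a, ∀ x ∈ P.UC, F (D.pC a x) = D.pC (φ a) (P.actC (U a) x)) ∧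
      ∀ a j e, ∀ z ∈ UN,
        F (D.pN a j e z) = D.pN (φ a) (actJ (U a) j) ((U a).e' * e) (actN P (U a) z) := by
  obtain ⟨φ, U, h1, h2, h3⟩ := A.sym c u
  have H : Cmp P A (fun a p => D.pO (φ a) ((U a).act p)) (fun a x => D.pC (φ a) (P.actC (U a) x))
      fun a j e z => D.pN (φ a) (actJ (U a) j) ((U a).e' * e) (actN P (U a) z) := by
    refine ⟨fun a b τ hτ p hp hp' => ?_, fun a m n x hx => ?_, fun a j j' m e hm z hz => ?_,
      fun a j e e' he z hz q => ?_, fun a p hp q => ?_, fun a j e x hx q1 q2 => ?_⟩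
    · obtain ⟨τ', hτ', q⟩ := h3 a b τ hτ
      exact ((D.eqO _ _ _ (act_mem_UO _ hp) _ (act_mem_UO _ hp')).2
        ⟨τ', hτ', q p (UO_lt h hp).1⟩).symm
    · exact ((D.eqC _ _ _ (actC_mem_UC _ hx) _ (actC_mem_UC _ (dk_mem_UC h m n hx))).2
        ⟨rfl, _, _, actC_dk P _ m n x⟩).symm
    · exact ((D.eqN _ _ _ _ _ _ _ (actN_mem_UN P _ hz) _ (actN_mem_UN P _ hz)).2
        ⟨rfl, ⟨_, actJ_sub _ hm⟩, Or.inl ⟨rfl, rfl⟩⟩).symm
    · have hz' : P3 z ∈ UN := hz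
      refine ((D.eqN _ _ _ _ _ _ _ (actN_mem_UN P _ hz) _ (actN_mem_UN P _ hz')).2
        ⟨rfl, ⟨0, by simp⟩, Or.inr ⟨fun r => he (mul_left_cancel r), ?_, actN_P3 P _ z⟩⟩).symm
      rwa [u23_actN]
    · rw [← P1_act h]
      exact D.trOC _ _ (act_mem_UO _ hp) q
    · rw [← P2u_act h]
      refine D.trCN _ _ _ _ (actC_mem_UC _ hx) (by rwa [Rj_actC]) ?_
      rw [Rj_actC, zj_actC]
      rcases Int.units_eq_one_or (U a).e' with r | r <;> simpa [r] using q2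
  obtain ⟨F, q1, q2, q3⟩ := lift h D H
  exact ⟨F, φ, U, h1, h2, q1, q2, q3⟩

end Pool.Agent.Lib.MP_94aef8_gt.Hb
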