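import Pool.Agent.Lib.MP_94aef8_gt.H.GoodO
import Pool.Agent.Lib.MP_94aef8_gt.H.GoodC

/-!
The bolt metric is the Schwarzschild metric.
-/

open scoped Manifold ContDiff Topology
open Matrix Set Filter Real

namespace Pool.Agent.Lib.MP_94aef8_gt.Hb

/-- The bolt metric in polar form: at `w = s (cos a, sin a)`. -/
theorem qf_GN_polar (b a p q ds da dp dq : ℝ) {s : ℝ} (hs : s ≠ 0) :
    qf (GN b (mk4 (s * cos a) (s * sin a) p q))
        ![ds * cos a - s * da * sin a, ds * sin a + s * da * cos a, dp, dq] =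
      4 * (1 + s ^ 2) * ds ^ 2 + 4 * s ^ 2 / (1 + s ^ 2) * da ^ 2 +
        4 * (1 + s ^ 2) ^ 2 / (1 + (p ^ 2 + q ^ 2)) ^ 2 *
          ((dp - 2 * b * chiT (1 + s ^ 2) * da * q) ^ 2 +
            (dq + 2 * b * chiT (1 + s ^ 2) * da * p) ^ 2) := by
  have hu : u01 (mk4 (s * cos a) (s * sin a) p q) = s ^ 2 := by
    simp only [u01, mk4_0, mk4_1]
    linear_combination s ^ 2 * cos_sq_add_sin_sq a
  have hv : u23 (mk4 (s * cos a) (s * sin a) p q) = p ^ 2 + q ^ 2 := rfl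
  have h1 : (ds * cos a - s * da * sin a) ^ 2 + (ds * sin a + s * da * cos a) ^ 2 =
      ds ^ 2 + s ^ 2 * da ^ 2 := by
    linear_combination (ds ^ 2 + s ^ 2 * da ^ 2) * cos_sq_add_sin_sq a
  have h2 : s * cos a * (ds * sin a + s * da * cos a) - s * sin a * (ds * cos a - s * da * sin a) =
      s ^ 2 * da := by
    linear_combination s ^ 2 * da * cos_sq_add_sin_sq a
  rw [qf_GN, hu, hv]
  simp only [mk4_0, mk4_1, mk4_2, mk4_3, cons_val_zero, cons_val_one, cons_val]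
  rw [h1, h2]
  have h3 : 2 * b * chiT (1 + s ^ 2) / s ^ 2 * (s ^ 2 * da) = 2 * b * chiT (1 + s ^ 2) * da := by
    field_simp
  rw [h3]
  congr 1
  field_simp
  ring

theorem hasFDerivAt_R3 {x : E4} (h : 0 < R3 x) : ∃ L : E4 →L[ℝ] ℝ, HasFDerivAt R3 L x ∧
    ∀ v : E4, L v = (x 0 * v 0 + x 1 * v 1 + x 2 * v 2) / R3 x := by
  have h0 : u01 x + x 2 ^ 2 ≠ 0 := (Real.sqrt_pos.1 h).ne'
  have h1 := ((((hfdCoord 0 x).pow 2).add ((hfdCoord 1 x).pow 2)).add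
    ((hfdCoord 2 x).pow 2)).sqrt h0
  refine ⟨_, h1, fun v => ?_⟩
  have h2 : √(x 0 ^ 2 + x 1 ^ 2 + x 2 ^ 2) = R3 x := rfl
  simp [h2]
  field_simp

/-- `jac_mk4_mulVec`; `dR` is the derivative of `R3`. -/
theorem jac_P2u (e : ℤˣ) {x : E4} (h1 : 1 < R3 x) (h2 : 0 < R3 x + ((e : ℤ) : ℝ) * x 2) (v : E4)
    {dR D : ℝ} (hR : dR = (x 0 * v 0 + x 1 * v 1 + x 2 * v 2) / R3 x)
    (hD : D = R3 x + ((e : ℤ) : ℝ) * x 2) :
    jac (P2u e) x *ᵥ v.ofLp =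
      ![dR / (2 * √(R3 x - 1)) * cos (x 3 / 2) - √(R3 x - 1) * (v 3 / 2) * sin (x 3 / 2),
        dR / (2 * √(R3 x - 1)) * sin (x 3 / 2) + √(R3 x - 1) * (v 3 / 2) * cos (x 3 / 2),
        (v 0 * D - x 0 * (dR + ((e : ℤ) : ℝ) * v 2)) / D ^ 2,
        (v 1 * D - x 1 * (dR + ((e : ℤ) : ℝ) * v 2)) / D ^ 2] := by
  obtain ⟨L, hL, hLv⟩ := hasFDerivAt_R3 (by linarith : 0 < R3 x)
  have h3 : R3 x - 1 ≠ 0 := by linarith
  have hs := (hL.sub_const 1).sqrt h3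
  have ht := (hfdCoord 3 x).mul_const (2⁻¹ : ℝ)
  have hd := hL.add ((hfdCoord 2 x).const_mul ((e : ℤ) : ℝ))
  have hi := (hasDerivAt_inv h2.ne').comp_hasFDerivAt x hd
  have key := jac_mk4_mulVec (hs.mul ht.cos) (hs.mul ht.sin) ((hfdCoord 0 x).mul hi)
    ((hfdCoord 1 x).mul hi) v
  have e1 : P2u e = fun y : E4 => mk4 (√(R3 y - 1) * cos (y 3 * 2⁻¹))
      (√(R3 y - 1) * sin (y 3 * 2⁻¹)) (y 0 * (R3 y + ((e : ℤ) : ℝ) * y 2)⁻¹)
      (y 1 * (R3 y + ((e : ℤ) : ℝ) * y 2)⁻¹) := by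
    funext y
    simp only [P2u, div_eq_mul_inv]
  have hD0 : D ≠ 0 := hD ▸ h2.ne'
  rw [e1]
  refine key.trans ?_
  funext i
  fin_cases i <;> simp [hLv, ← hR, ← hD, div_eq_mul_inv] <;> field_simp <;> ring

/-- Stereographic projection is conformal. One has `1 + |p|² = 2 R / D`; after clearing
denominators the identity is
`a² D² + b² D² - 2 D T (x a + y b) + (x² + y²) T² = D² (a² + b² + c² - S²)` with `T = S + e c`,
which follows from `x a + y b = R S - z c`, `x² + y² = D (R - e z)`, `e² = 1`. -/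
theorem stereo_conf {x y z R e a b c S D : ℝ} (hR : R ^ 2 = x ^ 2 + y ^ 2 + z ^ 2) (h0 : 0 < R)
    (he : e * e = 1) (hD : D = R + e * z) (hD0 : 0 < D) (hS : S = (x * a + y * b + z * c) / R) :
    4 * R ^ 2 / (1 + ((x / D) ^ 2 + (y / D) ^ 2)) ^ 2 *
        (((a * D - x * (S + e * c)) / D ^ 2) ^ 2 + ((b * D - y * (S + e * c)) / D ^ 2) ^ 2) =
      a ^ 2 + b ^ 2 + c ^ 2 - S ^ 2 := by
  have h1 : x * a + y * b = R * S - z * c := by
    rw [hS]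
    field_simp
    ring
  have h2 : x ^ 2 + y ^ 2 = D * (R - e * z) := by
    rw [hD]
    linear_combination -hR + z ^ 2 * he
  have h3 : 1 + ((x / D) ^ 2 + (y / D) ^ 2) = 2 * R / D := by
    field_simp
    rw [h2, hD]
    ring
  have h4 : (a * D - x * (S + e * c)) ^ 2 + (b * D - y * (S + e * c)) ^ 2 =
      D ^ 2 * (a ^ 2 + b ^ 2 + c ^ 2 - S ^ 2) := by
    have h5 : (a * D - x * (S + e * c)) ^ 2 + (b * D - y * (S + e * c)) ^ 2 =
        D ^ 2 * (a ^ 2 + b ^ 2) - 2 * D * (S + e * c) * (x * a + y * b) +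
          (x ^ 2 + y ^ 2) * (S + e * c) ^ 2 := by ring
    rw [h5, h1, h2, hD]
    linear_combination (R + e * z) * (c ^ 2 * (R - e * z) - 2 * S * c * z) * he
  rw [h3, div_pow, div_pow, div_pow, ← add_div, h4]
  field_simp
  norm_num

/-- `pull_eq_of_qf`, `jac_P2u`, `qf_GN_polar` with `s² = R - 1`, `da = v3 / 2`, and `stereo_conf`
for `a = v0 - β x1 v3`, `b = v1 + β x0 v3`, `c = v2`, `β = b chiT R` (then `x a + y b` has no
twist term); `R / (R - 1) dR² - dR² = dR² / (R - 1)`; `qf_GSW`. -/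
theorem pull_P2u (e : ℤˣ) (b : ℝ) {x : E4} (h1 : 1 < R3 x)
    (h2 : 0 < R3 x + ((e : ℤ) : ℝ) * x 2) : pull (P2u e) (GN b) x = GB b x := by
  refine pull_eq_of_qf (GN_symm _ _) (GB_symm _ _) fun v => ?_
  obtain ⟨dR, hR⟩ : ∃ dR, dR = (x 0 * v 0 + x 1 * v 1 + x 2 * v 2) / R3 x := ⟨_, rfl⟩
  obtain ⟨D, hD⟩ : ∃ D, D = R3 x + ((e : ℤ) : ℝ) * x 2 := ⟨_, rfl⟩
  have h0 : 0 < R3 x := by linarith
  have h3 : 0 < R3 x - 1 := by linarith
  have hs : √(R3 x - 1) ≠ 0 := (Real.sqrt_pos.2 h3).ne'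
  have hs2 : √(R3 x - 1) ^ 2 = R3 x - 1 := Real.sq_sqrt h3.le
  have hR2 : R3 x ^ 2 = x 0 ^ 2 + x 1 ^ 2 + x 2 ^ 2 := Real.sq_sqrt (by unfold u01; positivity)
  have hD0 : 0 < D := hD ▸ h2
  obtain ⟨β, hβ⟩ : ∃ β, β = b * chiT (R3 x) := ⟨_, rfl⟩
  have st := stereo_conf (a := v 0 - β * x 1 * v 3) (b := v 1 + β * x 0 * v 3) (c := v 2) (S := dR)
    hR2 h0 (sgn_mul_self e) hD hD0 (by rw [hR]; ring)
  rw [jac_P2u e h1 h2 v hR hD, P2u, ← hD, qf_GN_polar _ _ _ _ _ _ _ _ hs, GB, qf_GSW, ← hβ,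
    div_pow, mul_pow, hs2, show 1 + (R3 x - 1) = R3 x by ring]
  have e1 : (v 0 * D - x 0 * (dR + ((e : ℤ) : ℝ) * v 2)) / D ^ 2 -
      2 * b * chiT (R3 x) * (v 3 / 2) * (x 1 / D) =
      ((v 0 - β * x 1 * v 3) * D - x 0 * (dR + ((e : ℤ) : ℝ) * v 2)) / D ^ 2 := by
    rw [hβ]
    field_simp
    ring
  have e2 : (v 1 * D - x 1 * (dR + ((e : ℤ) : ℝ) * v 2)) / D ^ 2 +
      2 * b * chiT (R3 x) * (v 3 / 2) * (x 0 / D) =
      ((v 1 + β * x 0 * v 3) * D - x 1 * (dR + ((e : ℤ) : ℝ) * v 2)) / D ^ 2 := by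
    rw [hβ]
    field_simp
    ring
  have e3 : x 0 * v 0 + x 1 * v 1 + x 2 * v 2 = R3 x * dR := by
    rw [hR]
    field_simp
  rw [e1, e2, st, e3]
  field_simp
  ring

end Pool.Agent.Lib.MP_94aef8_gt.Hb
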