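import Pool.Agent.Lib.MP_94aef8_gt.H.Loc1
import Pool.Agent.Lib.MP_94aef8_gt.H.Loc3
import Pool.Agent.Lib.MP_94aef8_gt.H.Loc4

/-!
The transition maps are local diffeomorphisms.
-/

open scoped Manifold ContDiff Topology
open Matrix Set Filter Real

namespace Pool.Agent.Lib.MP_94aef8_gt.Hb

variable {P : Par}

theorem det_ne_of_pull {τ : E4 → E4} {G : Tn} {H : Mat} {p : E4} (e : pull τ G p = H)
    (hH : H.PosDef) : (jac τ p).det ≠ 0 := by
  intro h0
  have h1 := hH.det_pos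
  rw [← e, pull, det_mul, h0, mul_zero] at h1
  exact lt_irrefl _ h1

theorem continuous_R3 : Continuous R3 := by
  unfold R3 u01
  fun_prop

theorem GB_pos (b : ℝ) {x : E4} (h : 1 < R3 x) : (GB b x).PosDef := GSW_pos zero_le_one h _ _ _

theorem pull_P1_GO (h : P.Geom) {p : E4} (h0 : 4 ≤ p 3) (h1 : P.δ * p 3 < 1) :
    pull P.P1 (GBH P.B) p = P.GO p := by
  rw [pull_P1 h (by linarith) h1, GO_eq, vO_high P h0]

theorem ldif_P1' (h : P.Geom) : LDif P.P1 {p | 0 < p 3 ∧ P.δ * p 3 < 1} univ where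
  isOpen := IsOpen.and (isOpen_lt continuous_const (by fun_prop))
    (isOpen_lt (by fun_prop) continuous_const)
  smooth _ hp := (P1_smooth h.toOk hp.1 hp.2).contDiffWithinAt
  maps := mapsTo_univ _ _
  det p hp := by
    refine det_ne_of_pull (pull_P1 h hp.1 hp.2) (slabM_pos P ?_ hp.1.ne')
    have h2 : 0 ≤ P.δ * p 3 := (mul_pos h.δ0 hp.1).le
    have h3 : (P.δ * p 3) ^ 3 < 1 := pow_lt_one₀ h2 hp.2 (by norm_num)
    linarith

theorem ldif_P1 (h : P.Geom) : LDif P.P1 {p | 4 < p 3 ∧ P.δ * p 3 < 1} univ where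
  isOpen := IsOpen.and (isOpen_lt continuous_const (by fun_prop))
    (isOpen_lt (by fun_prop) continuous_const)
  smooth := (ldif_P1' h).smooth.mono fun _ hp => ⟨by linarith [hp.1], hp.2⟩
  maps := mapsTo_univ _ _
  det p hp := (ldif_P1' h).det p ⟨by linarith [hp.1], hp.2⟩

theorem ldif_P2u (e : ℤˣ) :
    LDif (P2u e) {x | 1 < R3 x ∧ 0 < R3 x + ((e : ℤ) : ℝ) * x 2} univ where
  isOpen := (isOpen_lt continuous_const continuous_R3).inter
    (isOpen_lt continuous_const (continuous_R3.add (by fun_prop)))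
  smooth _ hx := (P2u_smooth e hx.1 hx.2).contDiffWithinAt
  maps := mapsTo_univ _ _
  det _ hx := det_ne_of_pull (pull_P2u e 0 hx.1 hx.2) (GB_pos 0 hx.1)

theorem twi_smooth (c : ℝ) : ContDiff ℝ ∞ (twi c) := by
  refine contDiff_iff_contDiffAt.2 fun x => ?_
  unfold twi rot
  refine cdAt_mk4 ?_ ?_ ?_ ?_ <;> fun_prop

theorem ldif_twi (c : ℝ) : LDif (twi c) univ univ where
  isOpen := isOpen_univ
  smooth := (twi_smooth c).contDiffOn
  maps := mapsTo_univ _ _
  det x _ := det_ne_of_pull (pull_twi_GBH 0 c x) (GBH_pos _ x)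

end Pool.Agent.Lib.MP_94aef8_gt.Hb
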