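import Pool.Agent.Lib.MP_94aef8_gt.H.AmbN
import Pool.Agent.Lib.MP_94aef8_gt.H.Cnn
import Pool.Agent.Lib.MP_94aef8_gt.CapTransfer

/-!
A capped manifold is described by the three families of patches.
-/

open scoped Manifold ContDiff Topology
open Matrix Set Filter Real

namespace Pool.Agent.Lib.MP_94aef8_gt.Hb

open Cap (Amb YY Yo hyp cis cx EOm EMid EBub capU capE CP rad hgt ytop rOf sOf alV LocD Capped)

variable {P : Par} {A : Arith P.K} {M : Type} [TopologicalSpace M] [ChartedSpace E4 M]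

theorem pO_low (D : Cp P A M) (c : A.C) {p : E4} (hp : p 3 < 3) : pO D c p = D.slab c p :=
  if_pos hp

theorem pO_cap (h : P.Ok) (D : Cp P A M) (c : A.C) {p : E4} (hp : 2 < p 3) :
    pO D c p = D.cap c (EO P p) := by
  by_cases h3 : p 3 < 3
  · rw [pO_low D c h3, cp_slab_cap h D c hp h3]
  · exact if_neg h3

theorem mda_cc (D : Cp P A M) (c c' : A.C) {e e' : Amb} (he : e ∈ YP P) (he' : e' ∈ YP P) :
    D.cap c e = D.cap c' e' ↔ c = c' ∧ ∃ m : ℤ, e' = Cap.sh (P.K * m) e :=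
  D.cap_cap c c' e he e' he'

theorem mda_sc (D : Cp P A M) (c c' : A.C) {p : E4} {e : Amb} (hp : p ∈ U0) (he : e ∈ YP P) :
    D.slab c p = D.cap c' e ↔ ∃ x : E4, 2 < x 3 ∧ x 3 < 3 ∧ rl A c p c' x ∧ e = EO P x :=
  D.slab_cap c c' p hp e he

theorem mda_UO (h : P.Ok) {x : E4} (h1 : 1 / 3 < x 3) (h2 : x 3 < 3) : x ∈ P.UO :=
  (mem_UO_iff h).2 ⟨h1, by linarith [top_big h]⟩

/-- A slab point that equals a cap point has a preimage in the outer patch with the same first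
component; either the cap point is low, or the cusps and the heights agree. -/
theorem mda_meet (h : P.Ok) (D : Cp P A M) {c c' : A.C} {p : E4} (hp : p ∈ P.UO) {e : Amb}
    (he : e ∈ YP P) (hh : pO D c p = D.cap c' e) :
    ∃ x ∈ P.UO, e.1 = (EO P x).1 ∧ (x 3 < 3 ∨ c = c' ∧ x = p) := by
  obtain ⟨h1, h2⟩ := (mem_UO_iff h).1 hp
  by_cases h3 : p 3 < 3
  · rw [pO_low D c h3, mda_sc D c c' ⟨h1, h3⟩ he] at hh
    obtain ⟨x, x2, x3, -, rfl⟩ := hh
    exact ⟨x, mda_UO h (by linarith) x3, rfl, Or.inl x3⟩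
  · have h4 : 2 < p 3 := by linarith [not_lt.1 h3]
    rw [pO_cap h D c h4, mda_cc D c c' (EO_mem h h4 h2) he] at hh
    obtain ⟨hc, m, rfl⟩ := hh
    exact ⟨p, hp, rfl, Or.inr ⟨hc, rfl⟩⟩

theorem mda_mixed (h : P.Ok) (D : Cp P A M) (c c' : A.C) {p p' : E4} (hp : p ∈ P.UO)
    (hp' : p' ∈ P.UO) (h3 : p 3 < 3) (h3' : 3 ≤ p' 3) :
    pO D c p ≠ pO D c' p' ∧ ¬ rl A c p c' p' := by
  obtain ⟨h1, h2⟩ := (mem_UO_iff h).1 hp
  obtain ⟨h1', h2'⟩ := (mem_UO_iff h).1 hp'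
  have h0 : 0 < p 3 := by linarith
  refine ⟨fun hh => ?_, fun hh => ?_⟩
  · have h4 : 2 < p' 3 := by linarith
    rw [pO_low D c h3, pO_cap h D c' h4, mda_sc D c c' ⟨h1, h3⟩ (EO_mem h h4 h2')] at hh
    obtain ⟨x, x2, x3, -, hx⟩ := hh
    have e1 := hgt_EO h hp'
    rw [hx, hgt_EO h (mda_UO h (by linarith) x3)] at e1
    linarith
  · have e1 := rl_height_le hh (show p ∈ UH from h0)
    have e2 : 1 / p 3 < 3 := by
      rw [div_lt_iff₀ h0]
      linarith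
    linarith [max_lt h3 e2]

theorem mda_sh_smooth (P : Par) (j : ℤ) : ContDiff ℝ ∞ (P.sh j) := by
  rw [sh_eq_add]
  exact contDiff_id.add contDiff_const

theorem mda_sh_neg (P : Par) (j : ℤ) (x : E4) : P.sh (-j) (P.sh j x) = x := by
  refine ext4 rfl rfl ?_ rfl
  simp [Par.sh]

theorem mda_sh_neg' (P : Par) (j : ℤ) (x : E4) : P.sh j (P.sh (-j) x) = x := by
  refine ext4 rfl rfl ?_ rfl
  simp [Par.sh]

/-- `pt_of_locD`, `Cap.LocD.congr`: near a point with `p 3 < 3` the map is `slab c`, near a point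
with `2 < p 3` it is `cap c ∘ capE om`. -/
theorem pt_pO (h : P.Ok) (D : Cp P A M) (c : A.C) : Pt (pO D c) P.UO := by
  refine pt_of_locD (isOpen_UO P) fun p hp => ?_
  obtain ⟨h1, h2⟩ := (mem_UO_iff h).1 hp
  have hc : ContinuousAt (fun x : E4 => x 3) p := (cdCoord 3).continuous.continuousAt
  by_cases h3 : p 3 < 3
  · refine (D.slab_loc c p ⟨h1, h3⟩).congr ?_
    filter_upwards [hc.eventually_lt continuousAt_const h3] with x hx
    exact pO_low D c hx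
  · have h4 : 2 < p 3 := by linarith [not_lt.1 h3]
    refine (D.cap_loc c .om p ⟨h4, h2⟩).congr ?_
    filter_upwards [continuousAt_const.eventually_lt hc h4] with x hx
    exact pO_cap h D c hx

/-- Near `x`, `pC = (cap c ∘ capE (mid j)) ∘ sh (-j)`, `j = jn x` (`exists_UT`, `EC_sh`, `UT` is
open); `locD_comp`. -/
theorem pt_pC (h : P.Ok) (D : Cp P A M) (c : A.C) : Pt (pC D c) P.UC := by
  refine pt_of_locD (isOpen_UC h) fun x hx => ?_
  obtain ⟨h1, -⟩ := exists_UT h hx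
  set j := P.jn x
  have h2 := D.cap_loc c (.mid j) _ ((mem_UT_iff h j).1 h1)
  have h3 := locD_comp (φ := P.sh (-j)) (ψ := P.sh j) (y := x) h2
    (mda_sh_smooth P _).contDiffAt (mda_sh_smooth P _).contDiffAt (mda_sh_neg' P j x)
    (Eventually.of_forall (mda_sh_neg P j))
  refine h3.congr ?_
  have h4 : ∀ᶠ y in 𝓝 x, P.sh (-j) y ∈ P.UT :=
    (mda_sh_smooth P (-j)).continuous.continuousAt.eventually_mem ((isOpen_UT P).mem_nhds h1)
  filter_upwards [h4] with y hy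
  have h5 := EC_sh h j hy
  rw [mda_sh_neg'] at h5
  exact congrArg (D.cap c) h5

theorem pt_pN (D : Cp P A M) (c : A.C) (j : ℤ) (e : ℤˣ) : Pt (pN D c j e) UN := by
  exact pt_of_locD isOpen_UN fun z hz => D.cap_loc c (.bub (decide (e = 1)) j) z hz

/-- `D.onto`, `Cap.capE_cover`. -/
theorem cp_cover (h : P.Ok) (D : Cp P A M) (m : M) :
    (∃ c, ∃ p ∈ P.UO, pO D c p = m) ∨ (∃ c, ∃ x ∈ P.UC, pC D c x = m) ∨
      ∃ c j e, ∃ z ∈ UN, pN D c j e z = m := by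
  rcases D.onto m with ⟨c, p, hp, rfl⟩ | ⟨c, e, he, rfl⟩
  · exact Or.inl ⟨c, p, mda_UO h hp.1 hp.2, pO_low D c hp.2⟩
  obtain ⟨a, y, hy, rfl⟩ := Cap.capE_cover (cpar_ok h) he
  rcases a with _ | j | ⟨b, j⟩
  · have h1 : 2 < y 3 := hy.1
    exact Or.inl ⟨c, y, (mem_UO_iff h).2 ⟨by linarith, hy.2⟩, pO_cap h D c h1⟩
  · have h1 := (mem_UT_iff h j).2 hy
    exact Or.inr (Or.inl ⟨c, P.sh j y, sh_mem_UC h j h1, congrArg (D.cap c) (EC_sh h j h1)⟩)
  · refine Or.inr (Or.inr ?_)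
    cases b
    · exact ⟨c, j, -1, y, hy, rfl⟩
    · exact ⟨c, j, 1, y, hy, rfl⟩

/-- Both heights below 3: `slab_slab`. Both above 2: `cap_cap`, `trl_of_EO`, `EO_trl`, `rl_high`.
Otherwise one height is at most 2 and the other at least 3, and both sides are false
(`slab_cap`, `hgt_EO`, `rl_height_le`). -/
theorem cp_eqO (h : P.Ok) (D : Cp P A M) (c c' : A.C) {p p' : E4} (hp : p ∈ P.UO)
    (hp' : p' ∈ P.UO) : pO D c p = pO D c' p' ↔ ∃ τ ∈ A.Tr c c', τ p = p' := by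
  change _ ↔ rl A c p c' p'
  obtain ⟨h1, h2⟩ := (mem_UO_iff h).1 hp
  obtain ⟨h1', h2'⟩ := (mem_UO_iff h).1 hp'
  have h0 : 0 < p 3 := by linarith
  have h0' : 0 < p' 3 := by linarith
  rcases lt_or_ge (p 3) 3 with h3 | h3 <;> rcases lt_or_ge (p' 3) 3 with h3' | h3'
  · rw [pO_low D c h3, pO_low D c' h3']
    exact D.slab_slab c c' p ⟨h1, h3⟩ p' ⟨h1', h3'⟩
  · obtain ⟨e1, e2⟩ := mda_mixed h D c c' hp hp' h3 h3'
    exact iff_of_false e1 e2
  · obtain ⟨e1, e2⟩ := mda_mixed h D c' c hp' hp h3' h3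
    exact iff_of_false e1.symm fun hh => e2 (rl_symm hh h0)
  · have h4 : 2 < p 3 := by linarith
    have h4' : 2 < p' 3 := by linarith
    rw [pO_cap h D c h4, pO_cap h D c' h4', mda_cc D c c' (EO_mem h h4 h2) (EO_mem h h4' h2')]
    constructor
    · rintro ⟨rfl, m, hm⟩
      obtain ⟨v, rfl⟩ := trl_of_EO h h0 h2 h0' h2' hm
      exact rl_trl c v h0
    · intro hh
      obtain ⟨hc, v, hv⟩ := rl_high hh h0 (by nlinarith)
      exact ⟨hc, v 2, by rw [hv, EO_trl h]⟩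

theorem cp_eqC (h : P.Ok) (D : Cp P A M) (c c' : A.C) {x x' : E4} (hx : x ∈ P.UC)
    (hx' : x' ∈ P.UC) : pC D c x = pC D c' x' ↔ c = c' ∧ ∃ a b, x' = P.dk a b x := by
  unfold pC
  rw [mda_cc D c c' (EC_mem h hx) (EC_mem h hx')]
  exact and_congr_right fun _ => exists_congr fun m => EC_eq_iff h hx m

theorem cp_eqN (h : P.Ok) (D : Cp P A M) (c c' : A.C) (j j' : ℤ) (e e' : ℤˣ) {z z' : E4}
    (hz : z ∈ UN) (hz' : z' ∈ UN) : pN D c j e z = pN D c' j' e' z' ↔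
      c = c' ∧ (∃ a : ℤ, 2 * (j' - j) = a * P.K) ∧
        (e = e' ∧ z' = z ∨ e ≠ e' ∧ u23 z ≠ 0 ∧ z' = P3 z) := by
  unfold pN
  rw [mda_cc D c c' (EN_mem h j e hz) (EN_mem h j' e' hz'), EN_eq_iff h hz hz']

theorem cp_trOC (h : P.Ok) (D : Cp P A M) (c : A.C) {p : E4} (hp : p ∈ P.UO)
    (h1 : 1 / (3 * P.δ) < p 3) : pC D c (P.P1 p) = pO D c p := by
  have d0 := h.δ0
  have h2 : 2 < p 3 := by
    refine lt_trans ?_ h1
    rw [lt_div_iff₀ (by positivity)]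
    linarith [h.δ1]
  rw [pO_cap h D c h2, ← EC_P1 h hp]
  rfl

theorem cp_djOC (h : P.Ok) (D : Cp P A M) (c c' : A.C) {p x : E4} (hp : p ∈ P.UO) (hx : x ∈ P.UC)
    (e : pO D c p = pC D c' x) : c = c' ∧ 1 / (3 * P.δ) < p 3 := by
  obtain ⟨y, hy, e1, e2⟩ := mda_meet h D hp (EC_mem h hx) e
  have e3 : hgt P.δ (EC P x) = y 3 := by
    rw [← hgt_EO h hy]
    unfold hgt
    rw [e1]
  have e4 := hgt_EC h hx
  rw [e3] at e4
  rcases e2 with e2 | ⟨hc, rfl⟩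
  · have d0 := h.δ0
    have h2 : 3 < 1 / (3 * P.δ) := by
      rw [lt_div_iff₀ (by positivity)]
      linarith [h.δ1]
    linarith
  · exact ⟨hc, e4⟩

theorem cp_djCN (h : P.Ok) (D : Cp P A M) (c c' : A.C) (j : ℤ) (e : ℤˣ) {x z : E4}
    (hx : x ∈ P.UC) (hz : z ∈ UN) (he : pC D c x = pN D c' j e z) : c = c' ∧
      ∃ j' a : ℤ, 2 * (j' - j) = a * P.K ∧ P.Rj j' x < 4 * P.ϱ ∧
        0 < P.Rj j' x + ((e : ℤ) : ℝ) * P.zj j' x := by
  obtain ⟨hc, m, hm⟩ := (mda_cc D c c' (EC_mem h hx) (EN_mem h j e hz)).1 he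
  exact ⟨hc, EN_EC h hz hm⟩

/-- `EN_small` against `EO_large` (for `p 3 < 3` apply it to the point `x` of `slab_cap`). -/
theorem cp_djON (h : P.Ok) (D : Cp P A M) (c c' : A.C) (j : ℤ) (e : ℤˣ) {p z : E4}
    (hp : p ∈ P.UO) (hz : z ∈ UN) : pO D c p ≠ pN D c' j e z := by
  intro hh
  obtain ⟨y, hy, e1, -⟩ := mda_meet h D hp (EN_mem h j e hz) hh
  have e2 := EN_small h j e hz
  rw [e1] at e2
  linarith [EO_large h hy]

/-- The description by patches of a capped manifold. -/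
noncomputable def toMD [IsManifold (𝓡 4) ∞ M] (h : P.Ok) (D : Cp P A M) : MD P A where
  M := M
  top := inferInstance
  t2 := cp_t2 h D
  cpt := cp_compact h D
  conn := cp_connected h D
  chart := inferInstance
  mfd := inferInstance
  meas := borel M
  borel := @BorelSpace.mk M _ (borel M) rfl
  pO := pO D
  pC := pC D
  pN := pN D
  ptO := pt_pO h D
  ptC := pt_pC h D
  ptN := pt_pN D
  cover := cp_cover h D
  eqO c c' _ hp _ hp' := cp_eqO h D c c' hp hp'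
  eqC c c' _ hx _ hx' := cp_eqC h D c c' hx hx'
  eqN c c' j j' e e' _ hz _ hz' := cp_eqN h D c c' j j' e e' hz hz'
  trOC c _ hp h1 := cp_trOC h D c hp h1
  trCN c _ _ _ hx h1 h2 := congrArg (D.cap c) (EN_P2u h hx h1 h2)
  djOC c c' _ hp _ hx e := cp_djOC h D c c' hp hx e
  djCN c c' j e _ hx _ hz he := cp_djCN h D c c' j e hx hz he
  djON c c' j e _ hp _ hz := cp_djON h D c c' j e hp hz

end Pool.Agent.Lib.MP_94aef8_gt.Hb
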