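import Pool.Agent.Lib.MP_94aef8_gt.H.APm
import Pool.Agent.Lib.MP_94aef8_gt.H.MDa
import Pool.Agent.Lib.MP_94aef8_gt.H.Gl
import Pool.Agent.Lib.MP_94aef8_gt.G.Main
import Pool.Agent.Lib.MP_94aef8_gt.CapMain
import Pool.Agent.Lib.MP_94aef8_gt.ParLim

/-!
The manifolds, the approximate solutions and the diffeomorphisms.
-/

open scoped Manifold ContDiff Topology
open Filter

namespace Pool.Agent.Lib.MP_94aef8_gt

open Hb

theorem thmGHI {K : ℕ} (h0 : 0 < K) (h4 : 4 ∣ K) : ∃ (A : Arith K) (Z : CM), ∀ᶠ n : ℕ in atTop,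
    ∃ D : MD (par K n) A, Nonempty (AP D) ∧
      Nonempty (Diffeomorph (𝓡 4) (𝓡 4) D.M Z.M ∞) := by
  obtain ⟨A⟩ := Lor.exists_arith h0 h4
  obtain ⟨n₀, hn₀⟩ := (par_geom h0 h4).exists
  obtain ⟨D₀⟩ := exists_cp (P := par K n₀) hn₀.toOk A
  let Z := toMD hn₀.toOk D₀
  refine ⟨A, ⟨Z.M, Z.top, Z.t2, Z.cpt, Z.conn, Z.chart, Z.mfd, Z.meas, Z.borel⟩, ?_⟩
  filter_upwards [par_geom h0 h4] with n hn
  obtain ⟨D⟩ := exists_cp (P := par K n) hn.toOk A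
  refine ⟨toMD hn.toOk D, exists_AP hn _, ?_⟩
  exact Cap.capped_diffeo (N := (n₀ : ℤ) - n) isOpen_U0 (cpar_ok hn.toOk) (cpar_ok hn₀.toOk) rfl
    (by simp [cpar, par]) D D₀

end Pool.Agent.Lib.MP_94aef8_gt
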