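import Pool.Agent.Lib.MP_94aef8_gt.H.HDefs

/-!
Distances to the centres, deck transformations and translations.
-/

open scoped Manifold ContDiff Topology
open Matrix Set Filter Real

namespace Pool.Agent.Lib.MP_94aef8_gt.Hb

variable {P : Par}

theorem l_pos (h : P.Ok) : 0 < P.l := by
  have := h.δ0
  unfold Par.l
  positivity

theorem mapa_zj (h : P.Ok) (j : ℤ) (x : E4) : |P.zj j x| = P.l * |x 2 / P.l - j| := by
  have := l_pos h
  rw [← abs_of_pos this, ← abs_mul, abs_of_pos this, Par.zj]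
  congr 1
  field_simp

theorem Rj_sq (P : Par) (j : ℤ) (x : E4) : P.Rj j x ^ 2 = u01 x + P.zj j x ^ 2 := by
  exact Real.sq_sqrt (by unfold u01; positivity)

theorem abs_zj_le (P : Par) (j : ℤ) (x : E4) : |P.zj j x| ≤ P.Rj j x := by
  exact Real.abs_le_sqrt (le_add_of_nonneg_left (by unfold u01; positivity))

theorem continuous_Rj (P : Par) (j : ℤ) : Continuous (P.Rj j) := by
  unfold Par.Rj Par.zj u01
  fun_prop

/-- `abs_sub_round`. -/
theorem abs_zj_jn (h : P.Ok) (x : E4) : |P.zj (P.jn x) x| ≤ P.l / 2 := by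
  have := abs_sub_round (x 2 / P.l)
  rw [mapa_zj h, Par.jn]
  nlinarith [l_pos h]

/-- `round_le`. -/
theorem Rn_le (h : P.Ok) (j : ℤ) (x : E4) : P.Rn x ≤ P.Rj j x := by
  refine Real.sqrt_le_sqrt (add_le_add_right (sq_le_sq.2 ?_) _)
  rw [mapa_zj h, mapa_zj h]
  exact mul_le_mul_of_nonneg_left (round_le _ j) (l_pos h).le

theorem jn_eq (h : P.Ok) {j : ℤ} {x : E4} (hx : |P.zj j x| < P.l / 2) : P.jn x = j := by
  rw [mapa_zj h] at hx
  have h1 : |x 2 / P.l - j| < 1 / 2 := by nlinarith [l_pos h]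
  rw [abs_lt] at h1
  rw [Par.jn, round_eq, Int.floor_eq_iff]
  constructor <;> linarith [h1.1, h1.2]

/-- Near `x`, `Rn` is the minimum of `Rj (j - 1)`, `Rj j`, `Rj (j + 1)`, `j = jn x`; or:
`Rn x = √(u01 x + (l * |t - round t|)²)`, and `|t - round t|` is 1-Lipschitz by `round_le`. -/
theorem continuous_Rn (h : P.Ok) : Continuous P.Rn := by
  have h1 : P.Rn = fun x => √(u01 x + (P.l * ‖((x 2 / P.l : ℝ) : UnitAddCircle)‖) ^ 2) := by
    funext x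
    rw [UnitAddCircle.norm_eq, Par.Rn, Par.Rj, ← sq_abs (P.zj _ _), mapa_zj h, Par.jn]
  have h2 : Continuous fun x : E4 => ((x 2 / P.l : ℝ) : UnitAddCircle) :=
    (AddCircle.continuous_mk' 1).comp (by fun_prop)
  rw [h1]
  unfold u01
  fun_prop

theorem mem_UC_iff (h : P.Ok) {x : E4} : x ∈ P.UC ↔ u01 x < 8 / 3 ∧ P.ϱ < P.Rn x := by
  exact ⟨fun hx => ⟨hx.1, hx.2 _⟩, fun hx => ⟨hx.1, fun j => hx.2.trans_le (Rn_le h j x)⟩⟩

theorem isOpen_UC (h : P.Ok) : IsOpen P.UC := by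
  rw [show P.UC = {x | u01 x < 8 / 3} ∩ {x | P.ϱ < P.Rn x} from Set.ext fun _ => mem_UC_iff h]
  exact (isOpen_lt (by unfold u01; fun_prop) continuous_const).inter
    (isOpen_lt continuous_const (continuous_Rn h))

theorem isOpen_UO (P : Par) : IsOpen P.UO := by
  simp only [Par.UO, ofPred_and]
  exact (isOpen_lt continuous_const (by fun_prop)).inter (isOpen_lt (by fun_prop) continuous_const)

theorem isOpen_UT (P : Par) : IsOpen P.UT := by
  simp only [Par.UT, ofPred_and]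
  exact (isOpen_lt (by unfold u01; fun_prop) continuous_const).inter
    ((isOpen_lt (by fun_prop) continuous_const).inter
      (isOpen_lt continuous_const (by unfold R3 u01; fun_prop)))

theorem zj_dk {j j' a : ℤ} (e : 2 * (j' - j) = a * P.K) (b : ℤ) (x : E4) :
    P.zj j' (P.dk a b x) = P.zj j x := by
  have h1 : (2 * (j' - j) : ℝ) = a * P.K := by exact_mod_cast e
  simp only [Par.zj, Par.dk, Par.l, mk4_2]
  linear_combination -P.δ * h1

theorem Rj_dk {j j' a : ℤ} (e : 2 * (j' - j) = a * P.K) (b : ℤ) (x : E4) :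
    P.Rj j' (P.dk a b x) = P.Rj j x := by
  rw [Par.Rj, zj_dk e]
  rfl

/-- `K = 4 k`, `round_add_intCast`. -/
theorem jn_dk (h : P.Ok) (a b : ℤ) (x : E4) :
    2 * (P.jn (P.dk a b x) - P.jn x) = a * P.K := by
  obtain ⟨k, hk⟩ := h.K4
  have h0 := h.δ0
  have h1 : P.dk a b x 2 / P.l = x 2 / P.l + (2 * a * k : ℤ) := by
    simp only [Par.dk, Par.l, mk4_2, hk]
    push_cast
    field_simp
    ring
  rw [Par.jn, h1, round_add_intCast, Par.jn, hk]
  push_cast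
  ring

theorem Rn_dk (h : P.Ok) (a b : ℤ) (x : E4) : P.Rn (P.dk a b x) = P.Rn x := by
  exact Rj_dk (jn_dk h a b x) b x

theorem dk_mem_UC (h : P.Ok) (a b : ℤ) {x : E4} (hx : x ∈ P.UC) : P.dk a b x ∈ P.UC := by
  rw [mem_UC_iff h] at hx ⊢
  rw [Rn_dk h]
  exact hx

theorem zj_sh (P : Par) (j : ℤ) (x : E4) : P.zj j (P.sh j x) = x 2 := by
  simp [Par.zj, Par.sh]

theorem Rj_sh (P : Par) (j : ℤ) (x : E4) : P.Rj j (P.sh j x) = R3 x := by
  rw [Par.Rj, zj_sh]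
  rfl

/-- The other centres are at distance at least `l / 10`. -/
theorem Rj_sh_ne (h : P.Ok) {j j' : ℤ} (hj : j' ≠ j) {x : E4} (hx : |x 2| ≤ 9 / 10 * P.l) :
    P.l / 10 ≤ |P.zj j' (P.sh j x)| := by
  have h0 := l_pos h
  rw [abs_le] at hx
  simp only [Par.zj, Par.sh, mk4_2]
  rcases lt_or_gt_of_ne hj with h1 | h1
  · have h2 : (j' : ℝ) + 1 ≤ j := by exact_mod_cast h1
    exact le_abs.2 (.inl (by nlinarith [hx.1]))
  · have h2 : (j : ℝ) + 1 ≤ j' := by exact_mod_cast h1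
    exact le_abs.2 (.inr (by nlinarith [hx.2]))

theorem sh_mem_UC (h : P.Ok) (j : ℤ) {x : E4} (hx : x ∈ P.UT) : P.sh j x ∈ P.UC := by
  refine ⟨hx.1, fun j' => ?_⟩
  rcases eq_or_ne j' j with rfl | hj
  · rw [Rj_sh]
    exact hx.2.2
  · have := (Rj_sh_ne h hj hx.2.1.le).trans (abs_zj_le P j' _)
    unfold Par.l at this
    linarith [h.ϱ1, h.δ0]

theorem exists_UT (h : P.Ok) {x : E4} (hx : x ∈ P.UC) :
    P.sh (-P.jn x) x ∈ P.UT ∧ P.sh (P.jn x) (P.sh (-P.jn x) x) = x := by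
  have h1 : P.sh (P.jn x) (P.sh (-P.jn x) x) = x := ext4 rfl rfl (by simp [Par.sh]) rfl
  refine ⟨⟨hx.1, ?_, ?_⟩, h1⟩
  · rw [← zj_sh P (P.jn x), h1]
    linarith [abs_zj_jn h x, l_pos h]
  · rw [← Rj_sh P (P.jn x), h1]
    exact hx.2 _

theorem sh_eq_add (P : Par) (j : ℤ) : P.sh j = fun x => x + mk4 0 0 (j * P.l) 0 := by
  funext x
  refine ext4 ?_ ?_ ?_ ?_ <;> simp [Par.sh]

theorem dk_eq_add (P : Par) (a b : ℤ) :
    P.dk a b = fun x => x + mk4 0 0 (a * (P.K * P.δ)) (b * (4 * π * P.ϱ)) := by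
  funext x
  refine ext4 ?_ ?_ ?_ ?_ <;> simp [Par.dk]

theorem trl_eq_add (K : ℝ) (v : Fin 3 → ℤ) :
    trl K v = fun x => x + mk4 (K * v 0) (K * v 1) (K * v 2) 0 := by
  funext x
  refine ext4 ?_ ?_ ?_ ?_ <;> simp [trl]

theorem mapa_Rj_sc (h : P.Ok) (j : ℤ) (x : E4) : P.Rj j (P.sc j x) = P.ϱ * R3 x := by
  conv_rhs => rw [R3, ← Real.sqrt_sq h.ϱ0.le, ← Real.sqrt_mul (sq_nonneg _)]
  rw [Par.Rj]
  congr 1
  simp only [u01, Par.zj, Par.sc, mk4_0, mk4_1, mk4_2]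
  ring

theorem mapa_sc_usc (h : P.Ok) (j : ℤ) (x : E4) : P.sc j (P.usc j x) = x := by
  have := h.ϱ0.ne'
  refine ext4 ?_ ?_ ?_ ?_ <;> simp only [Par.sc, Par.usc, Par.zj, mk4_0, mk4_1, mk4_2, mk4_3] <;>
    field_simp
  ring

theorem R3_usc (h : P.Ok) (j : ℤ) (x : E4) : R3 (P.usc j x) = P.Rj j x / P.ϱ := by
  rw [eq_div_iff h.ϱ0.ne', mul_comm, ← mapa_Rj_sc h j, mapa_sc_usc h]

theorem Rj_sc (h : P.Ok) (j : ℤ) (x : E4) : P.Rj j (P.sc j x) = P.ϱ * R3 x := by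
  exact mapa_Rj_sc h j x

theorem sc_usc (h : P.Ok) (j : ℤ) (x : E4) : P.sc j (P.usc j x) = x := by
  exact mapa_sc_usc h j x

theorem usc_sc (h : P.Ok) (j : ℤ) (x : E4) : P.usc j (P.sc j x) = x := by
  have := h.ϱ0.ne'
  refine ext4 ?_ ?_ ?_ ?_ <;> simp only [Par.sc, Par.usc, Par.zj, mk4_0, mk4_1, mk4_2, mk4_3] <;>
    field_simp
  ring

theorem sc_mem_UC (h : P.Ok) (j : ℤ) {x : E4} (h1 : 1 < R3 x) (h2 : R3 x < P.l / (20 * P.ϱ)) :
    P.sc j x ∈ P.UC := by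
  have h0 := h.ϱ0
  have h3 := l_pos h
  have h4 : P.Rj j (P.sc j x) < P.l / 20 := by
    rw [Rj_sc h]
    rw [lt_div_iff₀ (by positivity)] at h2
    linarith
  have h5 := abs_zj_le P j (P.sc j x)
  rw [mem_UC_iff h, Par.Rn, jn_eq h (j := j) (by linarith)]
  refine ⟨?_, by rw [Rj_sc h]; nlinarith⟩
  have h6 := Rj_sq P j (P.sc j x)
  have h7 : P.l ≤ 1 := by unfold Par.l; linarith [h.δ1]
  nlinarith [sq_nonneg (P.zj j (P.sc j x)), abs_nonneg (P.zj j (P.sc j x))]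

end Pool.Agent.Lib.MP_94aef8_gt.Hb
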