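import Pool.Agent.Lib.MP_94aef8_gt.H.MapA

/-!
The transition maps.
-/

open scoped Manifold ContDiff Topology
open Matrix Set Filter Real

namespace Pool.Agent.Lib.MP_94aef8_gt.Hb

variable {P : Par}

theorem UO_lt (h : P.Ok) {p : E4} (hp : p ∈ P.UO) : 0 < p 3 ∧ P.δ * p 3 < 1 := by
  have h0 : 0 < p 3 := lt_trans (by norm_num) hp.1
  exact ⟨h0, lt_of_le_of_lt (le_mul_of_one_le_right (mul_pos h.δ0 h0).le
    (le_add_of_nonneg_right (by positivity))) hp.2⟩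

theorem u01_P1 (h : P.Ok) {p : E4} (h0 : 0 < p 3) (h1 : P.δ * p 3 < 1) :
    u01 (P.P1 p) = 4 / 3 * (1 / (P.δ * p 3) - 1) := by
  have h2 : 0 ≤ 4 / 3 * (1 / (P.δ * p 3) - 1) := by
    linarith [one_lt_one_div (mul_pos h.δ0 h0) h1]
  rw [u01, Par.P1, mk4_0, mk4_1, mul_pow, mul_pow, ← mul_add, cos_sq_add_sin_sq, mul_one, sq_sqrt h2]

theorem P1_far (h : P.Ok) {p : E4} (hp : p ∈ P.UO) : (P.l / 10) ^ 2 < u01 (P.P1 p) := by
  obtain ⟨h0, h1⟩ := UO_lt h hp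
  have h2 := (lt_div_iff₀' (mul_pos h.δ0 h0)).2 hp.2
  rw [u01_P1 h h0 h1]
  linarith

theorem P1_mem_UC (h : P.Ok) {p : E4} (hp : p ∈ P.UO) (h1 : 1 / (3 * P.δ) < p 3) :
    P.P1 p ∈ P.UC := by
  obtain ⟨h0, h2⟩ := UO_lt h hp
  have h3 := h.δ0
  refine ⟨?_, fun j => (lt_sqrt h.ϱ0.le).2 ?_⟩
  · have h4 : 1 / (P.δ * p 3) < 3 := by
      rw [div_lt_iff₀ (by positivity)] at h1 ⊢
      linarith
    rw [u01_P1 h h0 h2]
    linarith
  · have h4 := P1_far h hp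
    rw [Par.l] at h4
    nlinarith [h.ϱ0, h.ϱ1, sq_nonneg (P.zj j (P.P1 p))]

/-- `Real.cos_add_int_mul_two_pi`, `Real.sin_add_int_mul_two_pi`. -/
theorem P1_trl (h : P.Ok) (v : Fin 3 → ℤ) (p : E4) :
    P.P1 (trl P.K v p) = P.dk (v 2) (v 1 - 2 * P.n * v 0) (P.P1 p) := by
  have hK : (P.K : ℝ) ≠ 0 := Nat.cast_ne_zero.2 h.K0.ne'
  have h1 : 2 * π * (p 0 + P.K * v 0) / P.K = 2 * π * p 0 / P.K + v 0 * (2 * π) := by field_simp
  refine ext4 ?_ ?_ ?_ ?_ <;> simp only [Par.P1, Par.dk, trl, mk4_0, mk4_1, mk4_2, mk4_3]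
  · rw [h1, cos_add_int_mul_two_pi]
  · rw [h1, sin_add_int_mul_two_pi]
  · ring
  · push_cast
    field_simp
    ring

theorem P1_smooth (h : P.Ok) {p : E4} (h0 : 0 < p 3) (h1 : P.δ * p 3 < 1) :
    ContDiffAt ℝ ∞ P.P1 p := by
  have h2 := mul_pos h.δ0 h0
  have h3 : ContDiffAt ℝ ∞ (fun p : E4 => √(4 / 3 * (1 / (P.δ * p 3) - 1))) p :=
    .sqrt (by fun_prop (disch := exact h2.ne')) (by linarith [one_lt_one_div h2 h1])
  exact cdAt_mk4 (h3.mul (by fun_prop)) (h3.mul (by fun_prop)) (by fun_prop) (by fun_prop)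

theorem R3_smooth {x : E4} (h : 0 < R3 x) : ContDiffAt ℝ ∞ R3 x := by
  exact .sqrt (by unfold u01; fun_prop) (sqrt_pos.1 h).ne'

theorem P2u_smooth (e : ℤˣ) {x : E4} (h1 : 1 < R3 x) (h2 : 0 < R3 x + ((e : ℤ) : ℝ) * x 2) :
    ContDiffAt ℝ ∞ (P2u e) x := by
  have h3 := R3_smooth (one_pos.trans h1)
  have h4 : ContDiffAt ℝ ∞ (fun x => √(R3 x - 1)) x :=
    (h3.sub contDiffAt_const).sqrt (sub_pos.2 h1).ne'
  have h5 : ContDiffAt ℝ ∞ (fun x => R3 x + ((e : ℤ) : ℝ) * x 2) x := h3.add (by fun_prop)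
  exact cdAt_mk4 (h4.mul (by fun_prop)) (h4.mul (by fun_prop))
    ((cdCoord 0).contDiffAt.div h5 h2.ne') ((cdCoord 1).contDiffAt.div h5 h2.ne')

theorem u01_P2u (e : ℤˣ) {x : E4} (h1 : 1 ≤ R3 x) : u01 (P2u e x) = R3 x - 1 := by
  rw [u01, P2u, mk4_0, mk4_1, mul_pow, mul_pow, ← mul_add, cos_sq_add_sin_sq, mul_one,
    sq_sqrt (sub_nonneg.2 h1)]

theorem P3_smooth {z : E4} (h : u23 z ≠ 0) : ContDiffAt ℝ ∞ P3 z := by
  have h1 : ContDiffAt ℝ ∞ u23 z := by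
    unfold u23
    fun_prop
  exact cdAt_mk4 (by fun_prop) (by fun_prop) ((cdCoord 2).contDiffAt.div h1 h)
    ((cdCoord 3).contDiffAt.div h1 h)

theorem usc_smooth (P : Par) (j : ℤ) : ContDiff ℝ ∞ (P.usc j) := by
  exact contDiff_iff_contDiffAt.2 fun _ =>
    cdAt_mk4 (by fun_prop) (by fun_prop) (by unfold Par.zj; fun_prop) (by fun_prop)

theorem sc_smooth (P : Par) (j : ℤ) : ContDiff ℝ ∞ (P.sc j) := by
  exact contDiff_iff_contDiffAt.2 fun _ =>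
    cdAt_mk4 (by fun_prop) (by fun_prop) (by fun_prop) (by fun_prop)

theorem usc_data (h : P.Ok) {j : ℤ} {e : ℤˣ} {x : E4} (hx : x ∈ P.UC) (h1 : P.Rj j x < 4 * P.ϱ)
    (h2 : 0 < P.Rj j x + ((e : ℤ) : ℝ) * P.zj j x) :
    1 < R3 (P.usc j x) ∧ R3 (P.usc j x) < 4 ∧
      0 < R3 (P.usc j x) + ((e : ℤ) : ℝ) * P.usc j x 2 ∧ P2u e (P.usc j x) ∈ UN := by
  have h3 : 1 < R3 (P.usc j x) := by
    rw [R3_usc h]
    exact (one_lt_div h.ϱ0).2 (hx.2 j)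
  have h4 : R3 (P.usc j x) < 4 := by
    rw [R3_usc h]
    exact (div_lt_iff₀ h.ϱ0).2 h1
  refine ⟨h3, h4, ?_, show u01 _ < 3 by rw [u01_P2u e h3.le]; linarith⟩
  rw [R3_usc h, Par.usc, mk4_2, ← mul_div_assoc, ← add_div]
  exact div_pos h2 h.ϱ0

theorem act_smooth (u : Sy) : ContDiff ℝ ∞ u.act := by
  exact contDiff_iff_contDiffAt.2 fun _ =>
    cdAt_mk4 (by fun_prop) (by fun_prop) (by fun_prop) (by fun_prop)

theorem actC_smooth (P : Par) (u : Sy) : ContDiff ℝ ∞ (P.actC u) := by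
  refine contDiff_iff_contDiffAt.2 fun _ => cdAt_mk4 ?_ ?_ ?_ ?_ <;>
    simp only [mk4_0, mk4_1, mk4_2, mk4_3] <;> fun_prop

theorem actN_smooth (P : Par) (u : Sy) : ContDiff ℝ ∞ (actN P u) := by
  exact contDiff_iff_contDiffAt.2 fun _ =>
    cdAt_mk4 (by fun_prop) (by fun_prop) (by fun_prop) (by fun_prop)

end Pool.Agent.Lib.MP_94aef8_gt.Hb
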