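import Pool.Agent.Lib.MP_94aef8_gt.H.ArA

/-!
The relation between addresses is an equivalence relation.
-/

open scoped Manifold ContDiff Topology
open Matrix Set Filter Real

namespace Pool.Agent.Lib.MP_94aef8_gt.Hb

open Cap (Amb YY Yo hyp cis cx EOm EMid EBub capU capE CP rad hgt ytop rOf sOf alV LocD Capped)

variable {P : Par} {A : Arith P.K}

theorem rela_K (h : P.Ok) : (P.K : ℝ) ≠ 0 := Nat.cast_ne_zero.2 h.K0.ne'

/-- `Cap.EOm_shift`. -/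
theorem EO_trl (h : P.Ok) (v : Fin 3 → ℤ) (p : E4) :
    EO P (trl P.K v p) = Cap.sh (P.K * v 2) (EO P p) := by
  exact Cap.EOm_shift (rela_K h) P.n (a := v 0) (b := v 1) rfl rfl rfl rfl

/-- `Cap.EOm_inj`. -/
theorem trl_of_EO (h : P.Ok) {p p' : E4} (h1 : 0 < p 3) (h2 : p 3 < ytop P.δ) (h1' : 0 < p' 3)
    (h2' : p' 3 < ytop P.δ) {m : ℤ} (e : EO P p' = Cap.sh (P.K * m) (EO P p)) :
    ∃ v, p' = trl P.K v p := by
  obtain ⟨a, b, e0, e1, e2, e3⟩ := Cap.EOm_inj (rela_K h) h.δ0 P.n h1 h2 h1' h2' e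
  exact ⟨![a, b, m], ext4 e0 e1 e2 e3⟩

theorem EO_mem (h : P.Ok) {p : E4} (h1 : 2 < p 3) (h2 : p 3 < ytop P.δ) : EO P p ∈ YP P :=
  Cap.EOm_mem (cpar_ok h) ⟨h1, h2⟩

theorem top_big (h : P.Ok) : 9 < ytop P.δ :=
  Cap.three_lt_ytop h.δ0 (h.δ1.trans (by norm_num))

/-- `K m = 2 (k m)`, `Cap.sh_mem_Yo`. -/
theorem sh_mem_YP (h : P.Ok) {e : Amb} (he : e ∈ YP P) (m : ℤ) : Cap.sh (P.K * m) e ∈ YP P := by
  obtain ⟨k, hk⟩ := h.K4
  have e' : (P.K : ℝ) * m = 2 * (2 * k * m : ℤ) := by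
    rw [hk]
    push_cast
    ring
  rw [e']
  exact (Cap.sh_mem_Yo _).2 he

theorem rela_sh_inv {K : ℝ} {m : ℤ} {e e' : Amb} (h : e' = Cap.sh (K * m) e) :
    e = Cap.sh (K * (-m : ℤ)) e' := by
  rw [h, Cap.sh_sh, Int.cast_neg, mul_neg, add_neg_cancel, Cap.sh_zero]

theorem rela_att_sh (h : P.Ok) {c c' : A.C} {p : E4} {e : Amb} (H : att P A c p c' e) (m : ℤ) :
    att P A c p c' (Cap.sh (P.K * m) e) := by
  obtain ⟨x, h2, h3, hr, rfl⟩ := H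
  exact ⟨trl P.K ![0, 0, m] x, h2, h3, rl_trans hr (rl_trl c' _ (two_pos.trans h2)),
    (EO_trl h ![0, 0, m] x).symm⟩

theorem rela_att_rl {c c' c'' : A.C} {p p' : E4} {e : Amb} (h : rl A c p c' p')
    (H : att P A c' p' c'' e) : att P A c p c'' e := by
  obtain ⟨x, h2, h3, hr, he⟩ := H
  exact ⟨x, h2, h3, rl_trans h hr, he⟩

theorem ra_refl (a : Ad A.C) : RA P A a a := by
  rcases a with a | a
  · exact rl_refl _ _
  · exact ⟨rfl, 0, by rw [Int.cast_zero, mul_zero, Cap.sh_zero]⟩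

theorem ra_symm {a b : Ad A.C} (ha : Val P a) (h : RA P A a b) : RA P A b a := by
  rcases a with a | a <;> rcases b with b | b
  · exact rl_symm h (U0_sub ha)
  · exact h
  · exact h
  · obtain ⟨e, m, hm⟩ := h
    exact ⟨e.symm, -m, rela_sh_inv hm⟩

/-- Eight cases. Slab, cap, slab: `EO x₁ = EO x₂` gives `x₂ = trl v x₁` (`trl_of_EO` with `m = 0`).
Cap, slab, cap: the two points have heights above 2, `rl_high`, `EO_trl`. Slab, cap, cap:
replace `x` by `trl ![0,0,m] x`. -/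
theorem ra_trans (h : P.Ok) {a b c : Ad A.C} (ha : Val P a) (hb : Val P b) (hc : Val P c)
    (h1 : RA P A a b) (h2 : RA P A b c) : RA P A a c := by
  have ht := top_big h
  rcases a with ⟨a, p⟩ | ⟨a, p⟩ <;> rcases b with ⟨b, q⟩ | ⟨b, q⟩ <;>
    rcases c with ⟨c, r⟩ | ⟨c, r⟩
  · exact rl_trans h1 h2
  · exact rela_att_rl h1 h2
  · obtain ⟨x, hx2, hx3, hx, e⟩ := h1
    obtain ⟨y, hy2, hy3, hy, e'⟩ := h2
    obtain ⟨v, hv⟩ := trl_of_EO h (p := x) (p' := y) (m := 0) (by linarith) (by linarith)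
      (by linarith) (by linarith) (by rw [Int.cast_zero, mul_zero, Cap.sh_zero, ← e, ← e'])
    have h3 := rl_trl (A := A) b v (p := x) (two_pos.trans hx2)
    rw [← hv] at h3
    exact rl_trans hx (rl_trans h3 (rl_symm hy (U0_sub hc)))
  · obtain ⟨rfl, m, rfl⟩ : b = c ∧ ∃ m : ℤ, r = Cap.sh (P.K * m) q := h2
    exact rela_att_sh h h1 m
  · exact rela_att_rl (rl_symm h2 (U0_sub hb)) h1
  · obtain ⟨x, hx2, hx3, hx, e⟩ := h1
    obtain ⟨y, hy2, hy3, hy, e'⟩ := h2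
    obtain ⟨e1, v, hv⟩ := rl_high (rl_trans (rl_symm hx (U0_sub hb)) hy) (two_pos.trans hx2)
      (by nlinarith)
    exact ⟨e1, v 2, by rw [e', e, hv, EO_trl h]⟩
  · obtain ⟨rfl, m, hm⟩ : a = b ∧ ∃ m : ℤ, q = Cap.sh (P.K * m) p := h1
    rw [rela_sh_inv hm]
    exact rela_att_sh h h2 (-m)
  · obtain ⟨e, m, hm⟩ := h1
    obtain ⟨e', m', hm'⟩ := h2
    exact ⟨e.trans e', m + m', by rw [hm', hm, Cap.sh_sh, Int.cast_add, mul_add]⟩

theorem cls_eq_iff (h : P.Ok) {a b : Ad A.C} (ha : Val P a) (hb : Val P b) :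
    cls P A a = cls P A b ↔ RA P A a b := by
  refine ⟨fun e => ?_, fun H => Set.ext fun c => and_congr_right fun hc =>
    ⟨fun H' => ra_trans h hb ha hc (ra_symm ha H) H', fun H' => ra_trans h ha hb hc H H'⟩⟩
  have hb' : b ∈ cls P A b := ⟨hb, ra_refl b⟩
  rw [← e] at hb'
  exact hb'.2

end Pool.Agent.Lib.MP_94aef8_gt.Hb
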