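import Pool.Agent.Lib.MP_94aef8_gt.H.RelA
import Pool.Agent.Lib.MP_94aef8_gt.H.Pt

/-!
Capped manifolds are Hausdorff.
-/

open scoped Manifold ContDiff Topology
open Matrix Set Filter Real

namespace Pool.Agent.Lib.MP_94aef8_gt.Hb

open Cap (Amb YY Yo hyp cis cx EOm EMid EBub capU capE CP rad hgt ytop rOf sOf alV LocD Capped)

variable {P : Par} {A : Arith P.K} {M : Type} [TopologicalSpace M] [ChartedSpace E4 M]

theorem cp_slab_cap (h : P.Ok) (D : Cp P A M) (c : A.C) {p : E4} (h1 : 2 < p 3) (h2 : p 3 < 3) :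
    D.slab c p = D.cap c (EO P p) :=
  (D.slab_cap c c p ⟨by linarith, h2⟩ _ (EO_mem h h1 (by linarith [top_big h]))).2
    ⟨p, h1, h2, rl_refl c p, rfl⟩

/-- `Cap.EOm_onto`, `Cap.hgt_EOm`, `Cap.two_lt_hgt_iff`. -/
theorem exists_EO (h : P.Ok) {e : Amb} (he : e ∈ YP P) (h1 : hgt P.δ e < ytop P.δ) :
    ∃ p : E4, 2 < p 3 ∧ p 3 = hgt P.δ e ∧ EO P p = e := by
  obtain ⟨y, hy, hE⟩ := Cap.EOm_onto (cpar_ok h) he h1
  have hy1 : 2 < y 3 := hy.1
  have hy2 : y 3 < ytop P.δ := hy.2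
  have hE' : EO P y = e := hE
  refine ⟨y, hy1, ?_, hE'⟩
  rw [← hE']
  exact (Cap.hgt_EOm h.δ0 (by linarith) hy2).symm

/-- If the first two components differ separate them; otherwise the difference `d` of the last
components is not in `K ℤ`, which is closed (or: take the distance of `d / K` to `round`). -/
theorem amb_sep {K : ℝ} (hK : 0 < K) {e e' : Amb} (h : ∀ m : ℤ, e' ≠ Cap.sh (K * m) e) :
    ∃ W ∈ 𝓝 e, ∃ W' ∈ 𝓝 e', ∀ f ∈ W, ∀ f' ∈ W', ∀ m : ℤ, f' ≠ Cap.sh (K * m) f := by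
  have hc : IsClosed {q : Amb × Amb | q.2.1 = q.1.1 ∧ q.2.2.1 = q.1.2.1 ∧
      (q.2.2.2 - q.1.2.2) / K ∈ range ((↑) : ℤ → ℝ)} := by
    refine (isClosed_eq (by fun_prop) (by fun_prop)).inter
      ((isClosed_eq (by fun_prop) (by fun_prop)).inter ?_)
    exact Int.isClosedEmbedding_coe_real.isClosed_range.preimage (f := fun q : Amb × Amb =>
      (q.2.2.2 - q.1.2.2) / K) (by fun_prop)
  have hn : (e, e') ∈ {q : Amb × Amb | q.2.1 = q.1.1 ∧ q.2.2.1 = q.1.2.1 ∧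
      (q.2.2.2 - q.1.2.2) / K ∈ range ((↑) : ℤ → ℝ)}ᶜ := by
    rintro ⟨h1, h2, m, hm⟩
    refine h m (Prod.ext h1 (Prod.ext h2 ?_))
    have h3 : (m : ℝ) = (e'.2.2 - e.2.2) / K := hm
    change e'.2.2 = e.2.2 + K * m
    rw [h3]
    field_simp
    ring
  obtain ⟨W, hW, W', hW', hs⟩ := mem_nhds_prod_iff.1 (hc.isOpen_compl.mem_nhds hn)
  refine ⟨W, hW, W', hW', fun f hf f' hf' m hm => hs (mk_mem_prod hf hf') ?_⟩
  subst hm
  refine ⟨rfl, rfl, m, ?_⟩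
  change (m : ℝ) = (f.2.2 + K * m - f.2.2) / K
  field_simp
  ring

/-- `e = capE a y` (`Cap.capE_cover`); the preimage of `W` under `capE a`, intersected with the
domain, is a neighbourhood of `y`; `locD_image` for `D.cap_loc`. -/
theorem cap_image (h : P.Ok) (D : Cp P A M) (c : A.C) {e : Amb} (he : e ∈ YP P) {W : Set Amb}
    (hW : W ∈ 𝓝 e) : D.cap c '' (W ∩ YP P) ∈ 𝓝 (D.cap c e) := by
  obtain ⟨a, y, hy, rfl⟩ := Cap.capE_cover (cpar_ok h) he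
  have h1 : capE (cpar P) a ⁻¹' W ∩ capU (cpar P) a ∈ 𝓝 y :=
    inter_mem ((Cap.capE_smooth (cpar_ok h) hy).continuousAt.preimage_mem_nhds hW)
      ((Cap.isOpen_capU (cpar_ok h) a).mem_nhds hy)
  refine mem_of_superset (locD_image (D.cap_loc c a y hy) h1) ?_
  rintro _ ⟨z, ⟨hz1, hz2⟩, rfl⟩
  exact ⟨_, ⟨hz1, Cap.capE_mem (cpar_ok h) hz2⟩, rfl⟩

theorem sep_ss (D : Cp P A M) {c c' : A.C} {p p' : E4} (hp : p ∈ U0) (hp' : p' ∈ U0)
    (hn : D.slab c p ≠ D.slab c' p') :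
    ∃ U ∈ 𝓝 (D.slab c p), ∃ V ∈ 𝓝 (D.slab c' p'), Disjoint U V := by
  obtain ⟨V, hV, V', hV', hs⟩ := rl_sep (A := A) (c := c) (c' := c') (U0_sub hp) (U0_sub hp')
    fun hr => hn ((D.slab_slab c c' p hp p' hp').2 hr)
  refine ⟨_, locD_image (D.slab_loc c p hp) (inter_mem hV (isOpen_U0.mem_nhds hp)), _,
    locD_image (D.slab_loc c' p' hp') (inter_mem hV' (isOpen_U0.mem_nhds hp')), ?_⟩
  rw [Set.disjoint_left]
  rintro _ ⟨x, ⟨hx, hx0⟩, rfl⟩ ⟨x', ⟨hx', hx0'⟩, he⟩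
  exact hs x hx x' hx' ((D.slab_slab c c' x hx0 x' hx0').1 he.symm)

theorem sep_cc (h : P.Ok) (D : Cp P A M) {c c' : A.C} {e e' : Amb} (he : e ∈ YP P)
    (he' : e' ∈ YP P) (hn : D.cap c e ≠ D.cap c' e') :
    ∃ U ∈ 𝓝 (D.cap c e), ∃ V ∈ 𝓝 (D.cap c' e'), Disjoint U V := by
  by_cases hc : c = c'
  · have hK : (0 : ℝ) < P.K := by exact_mod_cast h.K0
    obtain ⟨W, hW, W', hW', hs⟩ := amb_sep hK (e := e) (e' := e')
      fun m hm => hn ((D.cap_cap c c' e he e' he').2 ⟨hc, m, hm⟩)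
    refine ⟨_, cap_image h D c he hW, _, cap_image h D c' he' hW', ?_⟩
    rw [Set.disjoint_left]
    rintro _ ⟨f, ⟨hf, hf0⟩, rfl⟩ ⟨f', ⟨hf', hf0'⟩, hq⟩
    obtain ⟨-, m, hm⟩ := (D.cap_cap c c' f hf0 f' hf0').1 hq.symm
    exact hs f hf f' hf' m hm
  · refine ⟨_, cap_image h D c he univ_mem, _, cap_image h D c' he' univ_mem, ?_⟩
    rw [Set.disjoint_left]
    rintro _ ⟨f, ⟨-, hf0⟩, rfl⟩ ⟨f', ⟨-, hf0'⟩, hq⟩
    exact hc ((D.cap_cap c c' f hf0 f' hf0').1 hq.symm).1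

theorem sep_sc (h : P.Ok) (D : Cp P A M) {c c' : A.C} {p : E4} {e : Amb} (hp : p ∈ U0)
    (he : e ∈ YP P) (hn : D.slab c p ≠ D.cap c' e) :
    ∃ U ∈ 𝓝 (D.slab c p), ∃ V ∈ 𝓝 (D.cap c' e), Disjoint U V := by
  have ht := top_big h
  by_cases h3 : hgt P.δ e < 3
  · obtain ⟨q, hq1, hq2, hq3⟩ := exists_EO h he (by linarith)
    have hq4 : q 3 < 3 := by linarith
    have hq : D.slab c' q = D.cap c' e := by rw [cp_slab_cap h D c' hq1 hq4, hq3]
    rw [← hq] at hn ⊢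
    exact sep_ss D hp ⟨by linarith, hq4⟩ hn
  · have hp1 : 1 / 3 < p 3 := hp.1
    have hp2 : p 3 < 3 := hp.2
    have hp0 : 0 < p 3 := by linarith
    have hp3 : 1 / p 3 < 3 := by
      rw [div_lt_iff₀ hp0]
      linarith
    obtain ⟨b, hb1, hb2⟩ := exists_between (max_lt hp2 hp3)
    have hc3 : Continuous fun x : E4 => x 3 := by fun_prop
    have hcm : ContinuousAt (fun x : E4 => max (x 3) (1 / x 3)) p :=
      hc3.continuousAt.max (continuousAt_const.div hc3.continuousAt hp0.ne')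
    have hV : {x : E4 | max (x 3) (1 / x 3) < b} ∈ 𝓝 p := hcm.eventually (gt_mem_nhds hb1)
    have hW : {f : Amb | b < hgt P.δ f} ∈ 𝓝 e :=
      (Cap.contDiff_hgt h.δ0).continuous.continuousAt.eventually
        (lt_mem_nhds (by linarith [not_lt.1 h3]))
    refine ⟨_, locD_image (D.slab_loc c p hp) (inter_mem hV (isOpen_U0.mem_nhds hp)), _,
      cap_image h D c' he hW, ?_⟩
    rw [Set.disjoint_left]
    rintro _ ⟨x, ⟨hx, hx0⟩, rfl⟩ ⟨f, ⟨hf, hf0⟩, hq⟩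
    obtain ⟨z, hz1, hz2, hr, hz⟩ := (D.slab_cap c c' x hx0 f hf0).1 hq.symm
    have h4 := rl_height_le hr (U0_sub hx0)
    have h5 : hgt P.δ f = z 3 := by
      rw [hz]
      exact Cap.hgt_EOm h.δ0 (by linarith) (by linarith)
    have h6 : max (x 3) (1 / x 3) < b := hx
    have h7 : b < hgt P.δ f := hf
    linarith

/-- Two distinct points have disjoint neighbourhoods. Slab, slab: `rl_sep`. Cap, cap: different
cusps, or `amb_sep`. Slab `p`, cap `e`: if `hgt e < 3` the second point is a slab point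
(`exists_EO`, `cp_slab_cap`); otherwise take `b` with `max (p 3) (1 / p 3) < b < 3`,
`V = {1 / b < x 3 < b}` and `W = {b < hgt}` (`rl_height_le`, `Cap.hgt_EOm`). -/
theorem cp_t2 (h : P.Ok) (D : Cp P A M) : T2Space M := by
  refine t2Space_iff_nhds.2 fun {x y} hxy => ?_
  rcases D.onto x with ⟨c, p, hp, rfl⟩ | ⟨c, e, he, rfl⟩
  · rcases D.onto y with ⟨c', p', hp', rfl⟩ | ⟨c', e', he', rfl⟩
    · exact sep_ss D hp hp' hxy
    · exact sep_sc h D hp he' hxy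
  · rcases D.onto y with ⟨c', p', hp', rfl⟩ | ⟨c', e', he', rfl⟩
    · obtain ⟨U, hU, V, hV, hd⟩ := sep_sc h D hp' he hxy.symm
      exact ⟨V, hV, U, hU, hd.symm⟩
    · exact sep_cc h D he he' hxy

end Pool.Agent.Lib.MP_94aef8_gt.Hb
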